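import Pool.Agent.K4H49.SV.Stm

set_option autoImplicit false

/-! The variance as an integral over the critical line. -/

namespace Pool.Agent.K4H49.SV

open Complex MeasureTheory Filter Topology Set
open Pool.Agent.K4H66.HL Pool.Agent.K4H66.OL
open scoped ComplexConjugate

noncomputable section

variable {φ : ℝ → ℂ} {k : ℕ}

/-- the convolution -/
def BB (φ : ℝ → ℂ) (k : ℕ) (T : ℝ) : ℝ → ℂ := KK (kp φ (Real.log T)) (zr k 0)

lemma res_cont (k : ℕ) {c : ℝ} (hc : 0 < c) : Continuous (fun y : ℝ => res k (max y c)) := by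
  unfold res
  refine continuous_const.mul ?_
  unfold circleIntegral
  refine intervalIntegral.continuous_parametric_intervalIntegral_of_continuous' ?_ _ _
  have hne : ∀ y : ℝ, ((max y c : ℝ) : ℂ) ∈ slitPlane := by
    intro y
    rw [Complex.ofReal_mem_slitPlane]
    exact lt_of_lt_of_le hc (le_max_right _ _)
  have hcm : Continuous (fun p : ℝ × ℝ => circleMap 1 (1 / 4) p.2) := (continuous_circleMap 1 (1 / 4)).comp continuous_snd
  have hζ : Continuous (fun p : ℝ × ℝ => riemannZeta (circleMap 1 (1 / 4) p.2)) := by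
    rw [continuous_iff_continuousAt]
    intro p
    have h1 : circleMap 1 (1 / 4) p.2 ≠ 1 := by
      intro h
      have := circleMap_ne_center (c := (1:ℂ)) (R := 1 / 4) (by norm_num) (θ := p.2)
      exact this h
    exact ContinuousAt.comp (f := fun p : ℝ × ℝ => circleMap 1 (1 / 4) p.2)
      (differentiableAt_riemannZeta h1).continuousAt hcm.continuousAt
  have hder : Continuous (fun p : ℝ × ℝ => deriv (circleMap 1 (1 / 4)) p.2) := by
    simp only [deriv_circleMap]
    exact ((continuous_circleMap 0 (1 / 4)).comp continuous_snd).mul continuous_const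
  simp only [Function.uncurry_def, smul_eq_mul]
  refine hder.mul ((hζ.pow k).mul ?_)
  refine Continuous.cpow (Complex.continuous_ofReal.comp (continuous_fst.max continuous_const)) (hcm.sub continuous_const) ?_
  intro p
  exact hne p.1

/-- the deviation as a finite sum and a continuous density -/
lemma dev_data (h : TS φ) (k : ℕ) {T : ℝ} (hT : Real.exp 1 ≤ T) : ∃ (N : ℕ) (m : ℝ → ℂ) (c C : ℝ), 0 < c ∧
    Continuous m ∧ (∀ y, y < c → m y = 0) ∧ (∀ y, C < y → m y = 0) ∧
    (∀ t : ℝ, DP φ k T t = ∑ n ∈ Finset.range N,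
      ((W182.KO.dk k n : ℂ) * φ (Real.log n / Real.log T)) * (n : ℂ) ^ (-(1 / 2 + I * t) : ℂ)) ∧
    (∀ y : ℝ, 0 < y → m y = res k y * φ (Real.log y / Real.log T)) ∧
    ∀ h' x : ℝ, 0 < h' → 0 < x → dev φ k T h' x = ∑ n ∈ Finset.range N,
      (if x < n ∧ (n:ℝ) ≤ (1 + h') * x then (W182.KO.dk k n : ℂ) * φ (Real.log n / Real.log T) else 0) -
      ∫ y in x..((1 + h') * x), m y := by
  have hT0 : 0 < T := (Real.exp_pos 1).trans_le hT
  have hT1 : 1 < T := by have := Real.add_one_lt_exp one_ne_zero; linarith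
  have hL : 0 < Real.log T := Real.log_pos hT1
  set L := Real.log T with hLd
  obtain ⟨X, -, hX⟩ := h.tf
  obtain ⟨R, hR⟩ := h.cs.isCompact.isBounded.subset_closedBall 0
  have hz : ∀ ξ : ℝ, |R| < |ξ| → φ ξ = 0 := by
    intro ξ hξ
    by_contra hne
    have h1 : ξ ∈ tsupport φ := subset_tsupport _ hne
    have h2 := hR h1
    rw [Metric.mem_closedBall, dist_zero_right, Real.norm_eq_abs] at h2
    exact absurd (h2.trans (le_abs_self R)) (not_le.2 hξ)
  set N : ℕ := ⌈Real.exp (X * L)⌉₊ + 1 with hN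
  have hphi : ∀ n : ℕ, n ∉ Finset.range N → φ (Real.log n / L) = 0 := by
    intro n hn
    rw [Finset.mem_range, not_lt] at hn
    have h1 : Real.exp (X * L) < n := by
      refine (Nat.le_ceil _).trans_lt ?_
      exact_mod_cast hn
    have hn0 : (0:ℝ) < n := (Real.exp_pos _).trans h1
    have h2 : X * L < Real.log n := (Real.lt_log_iff_exp_lt hn0).2 h1
    exact hX.sp _ ((lt_div_iff₀ hL).2 h2)
  set c : ℝ := Real.exp (-((|R| + 1) * L)) with hc
  have hc0 : 0 < c := Real.exp_pos _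
  have hlow : ∀ y : ℝ, 0 < y → y ≤ c → φ (Real.log y / L) = 0 := by
    intro y hy hyc
    apply hz
    have h1 : Real.log y ≤ -((|R| + 1) * L) := by
      have := Real.log_le_log hy hyc
      rwa [hc, Real.log_exp] at this
    have h2 : Real.log y / L ≤ -(|R| + 1) := by
      rw [div_le_iff₀ hL]; linarith
    have h3 := abs_nonneg R
    rw [abs_of_nonpos (a := Real.log y / L) (by linarith)]
    linarith
  set m : ℝ → ℂ := fun y => res k (max y c) * φ (Real.log (max y c) / L) with hm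
  have hmc : Continuous m := by
    refine (res_cont k hc0).mul (h.cd.continuous.comp ?_)
    refine Continuous.div_const (Continuous.log (continuous_id.max continuous_const) fun y => ?_) _
    exact (lt_of_lt_of_le hc0 (le_max_right _ _)).ne'
  have hm1 : ∀ y : ℝ, 0 < y → m y = res k y * φ (Real.log y / L) := by
    intro y hy
    simp only [hm]
    rcases le_total y c with hyc | hyc
    · rw [max_eq_right hyc, hlow c hc0 le_rfl, hlow y hy hyc, mul_zero, mul_zero]
    · rw [max_eq_left hyc]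
  refine ⟨N, m, c, Real.exp (X * L), hc0, hmc, ?_, ?_, ?_, hm1, ?_⟩
  · intro y hy
    simp only [hm]
    rw [max_eq_right hy.le, hlow c hc0 le_rfl, mul_zero]
  · intro y hy
    have hy0 : 0 < y := (Real.exp_pos _).trans hy
    rw [hm1 y hy0, hX.sp _ ((lt_div_iff₀ hL).2 ((Real.lt_log_iff_exp_lt hy0).2 hy)), mul_zero]
  · intro t
    unfold DP
    refine tsum_eq_sum fun n hn => ?_
    rw [hphi n hn]
    simp
  · intro h' x hh' hx
    unfold dev
    congr 1
    · refine tsum_eq_sum fun n hn => ?_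
      rw [hphi n hn]
      simp
    · refine intervalIntegral.integral_congr fun y hy => ?_
      have hx1 : x ≤ (1 + h') * x := by nlinarith
      rw [uIcc_of_le hx1] at hy
      exact (hm1 y (lt_of_lt_of_le hx hy.1)).symm

/-- reality -/
lemma BB_neg (hφ : ∀ x, conj (φ x) = φ x) (k : ℕ) (T t : ℝ) : ‖BB φ k T (-t)‖ = ‖BB φ k T t‖ := by
  have hz : ∀ x : ℝ, zr k 0 (-x) = conj (zr k 0 x) := by
    intro x
    unfold zr
    rw [map_pow]
    congr 1
    have h1 : (((1 / 2 + 0 : ℝ) : ℂ) + ((-x : ℝ) : ℂ) * I) = conj (((1 / 2 + 0 : ℝ) : ℂ) + (x : ℂ) * I) := by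
      rw [map_add, map_mul, Complex.conj_ofReal, Complex.conj_ofReal, Complex.conj_I]
      push_cast
      ring
    rw [h1, riemannZeta_conj]
  have hk : ∀ y : ℝ, kp φ (Real.log T) (-y) = conj (kp φ (Real.log T) y) := by
    intro y
    unfold kp W182.KO.P
    rw [map_mul, Complex.conj_ofReal, ← integral_conj]
    congr 1
    refine integral_congr_ae (Eventually.of_forall fun ξ => ?_)
    simp only
    rw [map_mul, hφ, ← Complex.exp_conj]
    congr 2
    simp only [map_mul, Complex.conj_ofReal, Complex.conj_I]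
    push_cast
    ring
  have e : BB φ k T (-t) = conj (BB φ k T t) := by
    unfold BB KK
    rw [← integral_conj, ← integral_neg_eq_self]
    refine integral_congr_ae (Eventually.of_forall fun y => ?_)
    simp only
    rw [hk, show -t + -y = -(t + y) by ring, hz, map_mul]
  rw [e, Complex.norm_conj]

/-- the variance over the intervals `(x, (1+h) x]` on the critical line -/
theorem var_eq (hPL : S_PL) (hID : S_ID) (hKB : S_KB) (h : TS φ) (hφ : ∀ x, conj (φ x) = φ x) (k : ℕ) {T : ℝ}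
    (hT : Real.exp 1 ≤ T) {h' : ℝ} (h0 : 0 < h') (h1 : h' ≤ 1) :
    ∫ x in Ioi (0 : ℝ), ‖dev φ k T h' x‖ ^ 2 / x ^ 2 =
      1 / Real.pi * ∫ t in Ioi (0 : ℝ), ‖EE h' t‖ ^ 2 * ‖BB φ k T t‖ ^ 2 := by
  obtain ⟨N, m, c, C, hc, hm, hm1, hm2, hD, hm3, hdev⟩ := dev_data h k hT
  set a : ℕ → ℂ := fun n => (W182.KO.dk k n : ℂ) * φ (Real.log n / Real.log T) with ha
  have ha0 : a 0 = 0 := by
    simp only [ha]
    rw [dk_zero]
    simp
  obtain ⟨-, h3⟩ := hPL N a m c C ha0 hc hm hm1 hm2 h' h0 h1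
  have e1 : ∫ x in Ioi (0 : ℝ), ‖dev φ k T h' x‖ ^ 2 / x ^ 2 =
      ∫ x in Ioi (0:ℝ), ‖∑ n ∈ Finset.range N, (if x < n ∧ (n:ℝ) ≤ (1 + h') * x then a n else 0) -
      ∫ y in x..((1 + h') * x), m y‖ ^ 2 / x ^ 2 := by
    refine setIntegral_congr_fun measurableSet_Ioi fun x hx => ?_
    show ‖dev φ k T h' x‖ ^ 2 / x ^ 2 = _
    rw [hdev h' x h0 hx]
  have e2 : ∀ t : ℝ, ∑ n ∈ Finset.range N, a n * (n : ℂ) ^ (-(1 / 2 + I * t) : ℂ) -
        ∫ y in Ioi (0:ℝ), m y * (y : ℂ) ^ (-(1 / 2 + I * t) : ℂ) = BB φ k T t := by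
    intro t
    have h4 := hID φ h k T hT t
    unfold BB
    rw [← h4, hD t]
    congr 1
    refine setIntegral_congr_fun measurableSet_Ioi fun y hy => ?_
    show m y * (y : ℂ) ^ (-(1 / 2 + I * t) : ℂ) = _
    rw [hm3 y hy]
  rw [e1, h3]
  simp_rw [e2]
  have e3 : ∀ t : ℝ, ‖EE h' t‖ ^ 2 * ‖BB φ k T t‖ ^ 2 = (fun s : ℝ => ‖EE h' s‖ ^ 2 * ‖BB φ k T s‖ ^ 2) |t| := by
    intro t
    simp only
    rcases abs_choice t with ht | ht
    · rw [ht]
    · rw [ht, BB_neg hφ, ((hKB.1 h' h0 h1).2 t).2.2]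
  rw [integral_congr_ae (Eventually.of_forall e3),
    integral_comp_abs (f := fun s : ℝ => ‖EE h' s‖ ^ 2 * ‖BB φ k T s‖ ^ 2)]
  have hpi := Real.pi_pos
  field_simp

/-- integrability -/
theorem var_int (hPL : S_PL) (hID : S_ID) (h : TS φ) (k : ℕ) {T : ℝ}
    (hT : Real.exp 1 ≤ T) {h' : ℝ} (h0 : 0 < h') (h1 : h' ≤ 1) :
    Integrable (fun t : ℝ => ‖EE h' t‖ ^ 2 * ‖BB φ k T t‖ ^ 2) := by
  obtain ⟨N, m, c, C, hc, hm, hm1, hm2, hD, hm3, hdev⟩ := dev_data h k hT
  set a : ℕ → ℂ := fun n => (W182.KO.dk k n : ℂ) * φ (Real.log n / Real.log T) with ha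
  have ha0 : a 0 = 0 := by
    simp only [ha]
    rw [dk_zero]
    simp
  obtain ⟨h3, -⟩ := hPL N a m c C ha0 hc hm hm1 hm2 h' h0 h1
  have e2 : ∀ t : ℝ, ∑ n ∈ Finset.range N, a n * (n : ℂ) ^ (-(1 / 2 + I * t) : ℂ) -
        ∫ y in Ioi (0:ℝ), m y * (y : ℂ) ^ (-(1 / 2 + I * t) : ℂ) = BB φ k T t := by
    intro t
    have h4 := hID φ h k T hT t
    unfold BB
    rw [← h4, hD t]
    congr 1
    refine setIntegral_congr_fun measurableSet_Ioi fun y hy => ?_
    show m y * (y : ℂ) ^ (-(1 / 2 + I * t) : ℂ) = _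
    rw [hm3 y hy]
  simp_rw [e2] at h3
  exact h3

end

end Pool.Agent.K4H49.SV
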