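import Pool.Agent.K4H49.SV.A1
import Pool.Agent.K4H6.SV.C

set_option autoImplicit false

/-! Growth of the mean squares. -/

namespace Pool.Agent.K4H49.SV

open Complex MeasureTheory Filter Topology Set
open Pool.Agent.K4H66.HL Pool.Agent.K4H66.OL Pool.Agent.TH535.SM Pool.Agent.R446.KR

noncomputable section

lemma Kq (q : ℕ) : ∃ K : ℝ, 0 ≤ K ∧ ∀ x : ℝ, 1 ≤ x → (1 + Real.log (2 * x)) ^ q ≤ K * x ^ (1 / 2 : ℝ) := by
  rcases Nat.eq_zero_or_pos q with h0 | h0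
  · subst h0
    refine ⟨1, by norm_num, fun x hx => ?_⟩
    rw [pow_zero, one_mul]
    exact Real.one_le_rpow hx (by norm_num)
  · have hq : (0:ℝ) < q := by exact_mod_cast h0
    set δ : ℝ := 1 / (2 * q) with hδ
    have hδ0 : 0 < δ := by positivity
    refine ⟨(1 + 1 / δ) ^ q * 2, by positivity, fun x hx => ?_⟩
    have hx2 : (1:ℝ) ≤ 2 * x := by linarith
    have h1 : Real.log (2 * x) ≤ (2 * x) ^ δ / δ := Real.log_le_rpow_div (by linarith) hδ0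
    have h2 : (1:ℝ) ≤ (2 * x) ^ δ := Real.one_le_rpow hx2 hδ0.le
    have h3 : 1 + Real.log (2 * x) ≤ (1 + 1 / δ) * (2 * x) ^ δ := by
      have : (1 + 1 / δ) * (2 * x) ^ δ = (2 * x) ^ δ + (2 * x) ^ δ / δ := by ring
      linarith
    have h4 : 0 ≤ Real.log (2 * x) := Real.log_nonneg hx2
    calc (1 + Real.log (2 * x)) ^ q ≤ ((1 + 1 / δ) * (2 * x) ^ δ) ^ q := by gcongr
      _ = (1 + 1 / δ) ^ q * (2 * x) ^ (1 / 2 : ℝ) := by
          rw [mul_pow, ← Real.rpow_natCast ((2 * x) ^ δ) q, ← Real.rpow_mul (by linarith)]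
          congr 2
          rw [hδ]; field_simp
      _ ≤ (1 + 1 / δ) ^ q * (2 * x ^ (1 / 2 : ℝ)) := by
          gcongr
          rw [Real.mul_rpow (by norm_num) (by linarith)]
          gcongr
          calc (2:ℝ) ^ (1 / 2 : ℝ) ≤ 2 ^ (1:ℝ) := Real.rpow_le_rpow_of_exponent_le (by norm_num) (by norm_num)
            _ = 2 := Real.rpow_one 2
      _ = _ := by ring

lemma zr_neg (k : ℕ) (x : ℝ) : ‖zr k 0 (-x)‖ = ‖zr k 0 x‖ := by
  have h1 : zr k 0 (-x) = (starRingEnd ℂ) (zr k 0 x) := by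
    unfold zr
    rw [map_pow]
    congr 1
    have h1 : (((1 / 2 + 0 : ℝ) : ℂ) + ((-x : ℝ) : ℂ) * I) =
        (starRingEnd ℂ) (((1 / 2 + 0 : ℝ) : ℂ) + (x : ℂ) * I) := by
      rw [map_add, map_mul, Complex.conj_ofReal, Complex.conj_ofReal, Complex.conj_I]
      push_cast
      ring
    rw [h1, riemannZeta_conj]
  rw [h1, Complex.norm_conj]

lemma zr_cont (k : ℕ) : Continuous (fun t => ‖zr k 0 t‖ ^ 2) := (zdat k (u := 1) le_rfl).sc

lemma zr_sym (k : ℕ) (X : ℝ) : ∫ t in (-X)..X, ‖zr k 0 t‖ ^ 2 = 2 * M (zr k 0) X := by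
  have h1 := intervalIntegral.integral_add_adjacent_intervals
    ((zr_cont k).intervalIntegrable (μ := volume) (-X) 0) ((zr_cont k).intervalIntegrable 0 X)
  rw [← h1]
  have h2 : ∫ t in (-X)..0, ‖zr k 0 t‖ ^ 2 = ∫ t in (0:ℝ)..X, ‖zr k 0 t‖ ^ 2 := by
    have := intervalIntegral.integral_comp_neg (a := -X) (b := 0) (fun t => ‖zr k 0 t‖ ^ 2)
    simp only [neg_zero, neg_neg, zr_neg] at this
    exact this
  rw [h2]
  unfold M
  ring

/-- mean squares of convolutions, in the scaled variable -/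
lemma scaled (hMID : S_MID) (k : ℕ) : ∃ (C : ℝ) (N : ℕ), 0 ≤ C ∧ ∀ (T A : ℝ) (κ : ℝ → ℂ), Real.exp 1 ≤ T → 0 ≤ A →
    Continuous κ → (∀ y : ℝ, ‖κ y‖ ≤ A * (Real.log T / (1 + |Real.log T * y|) ^ N)) →
    Continuous (KK κ (zr k 0)) ∧ ∀ x : ℝ, 0 < x → 1 ≤ x * T →
    ∫ u in (0:ℝ)..x, ‖KK κ (zr k 0) (u * T)‖ ^ 2 ≤ C * A ^ 2 / T * (1 + 2 * M (zr k 0) (2 * x * T)) := by
  obtain ⟨C, N, hC, h⟩ := hMID k
  refine ⟨C, N, hC, fun T A κ hT hA hκ hb => ?_⟩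
  have hT0 : 0 < T := (Real.exp_pos 1).trans_le hT
  have hL : 1 ≤ Real.log T := by rwa [Real.le_log_iff_exp_le hT0]
  refine ⟨(h (Real.log T) A κ hL hA hκ hb 1 le_rfl).1, fun x hx hxT => ?_⟩
  obtain ⟨hc, h1⟩ := h (Real.log T) A κ hL hA hκ hb (x * T) hxT
  have hc2 : Continuous (fun t => ‖KK κ (zr k 0) t‖ ^ 2) := hc.norm.pow 2
  have e1 : ∫ u in (0:ℝ)..x, ‖KK κ (zr k 0) (u * T)‖ ^ 2 = T⁻¹ * ∫ t in (0:ℝ)..(x * T), ‖KK κ (zr k 0) t‖ ^ 2 := by
    have := intervalIntegral.integral_comp_mul_right (a := 0) (b := x) (fun t => ‖KK κ (zr k 0) t‖ ^ 2) hT0.ne'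
    rw [this, zero_mul, smul_eq_mul]
  have e2 : ∫ t in (0:ℝ)..(x * T), ‖KK κ (zr k 0) t‖ ^ 2 ≤ ∫ t in (-(x * T))..(x * T), ‖KK κ (zr k 0) t‖ ^ 2 := by
    rw [← intervalIntegral.integral_add_adjacent_intervals (hc2.intervalIntegrable (μ := volume) (-(x * T)) 0)
      (hc2.intervalIntegrable 0 (x * T))]
    have : 0 ≤ ∫ t in (-(x * T))..0, ‖KK κ (zr k 0) t‖ ^ 2 :=
      intervalIntegral.integral_nonneg (by linarith) fun t _ => by positivity
    linarith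
  rw [zr_sym] at h1
  rw [e1]
  calc T⁻¹ * ∫ t in (0:ℝ)..(x * T), ‖KK κ (zr k 0) t‖ ^ 2
      ≤ T⁻¹ * (C * A ^ 2 * (1 + 2 * M (zr k 0) (2 * (x * T)))) := by gcongr; linarith
    _ = _ := by rw [show 2 * (x * T) = 2 * x * T by ring]; field_simp

lemma M_mono (k : ℕ) {X Y : ℝ} (h : X ≤ Y) : M (zr k 0) X ≤ M (zr k 0) Y := (mo_gr k).mono h

/-- growth -/
lemma growth (hMID : S_MID) (k : ℕ) {C0 : ℝ} (hM : ∀ᶠ T : ℝ in atTop, M (zr k 0) T ≤ C0 * NN (k ^ 2) T) :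
    ∃ (C1 : ℝ) (N : ℕ), 0 ≤ C1 ∧ (∀ᶠ T : ℝ in atTop, ∀ (A : ℝ) (κ : ℝ → ℂ), 0 ≤ A → Continuous κ →
      (∀ y : ℝ, ‖κ y‖ ≤ A * (Real.log T / (1 + |Real.log T * y|) ^ N)) → ∀ x : ℝ, 1 ≤ x →
      ∫ u in (0:ℝ)..x, ‖KK κ (zr k 0) (u * T)‖ ^ 2 ≤ C1 * A ^ 2 * x ^ (3 / 2 : ℝ) * Real.log T ^ (k ^ 2)) ∧
    ∀ ε : ℝ, 0 < ε → ∃ a : ℝ, 0 < a ∧ ∀ᶠ T : ℝ in atTop, ∀ (A : ℝ) (κ : ℝ → ℂ), 0 ≤ A → Continuous κ →
      (∀ y : ℝ, ‖κ y‖ ≤ A * (Real.log T / (1 + |Real.log T * y|) ^ N)) →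
      ∫ u in (0:ℝ)..a, ‖KK κ (zr k 0) (u * T)‖ ^ 2 ≤ ε * A ^ 2 * Real.log T ^ (k ^ 2) := by
  obtain ⟨C, N, hC, h⟩ := scaled hMID k
  obtain ⟨K, hK, hKq⟩ := Kq (k ^ 2)
  obtain ⟨X0, hX0⟩ := eventually_atTop.1 hM
  set C0' : ℝ := max C0 0 with hC0'
  have hC0'' : 0 ≤ C0' := le_max_right _ _
  set q := k ^ 2 with hq
  have hMb : ∀ X : ℝ, X0 ≤ X → 1 ≤ X → M (zr k 0) X ≤ C0' * (X * Real.log X ^ q) := by
    intro X h1 h2
    refine (hX0 X h1).trans ?_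
    unfold NN
    have : 0 ≤ X * Real.log X ^ q := by
      have := Real.log_nonneg h2
      positivity
    exact mul_le_mul_of_nonneg_right (le_max_left _ _) this
  refine ⟨C * (1 + 4 * C0' * K), N, by positivity, ?_, ?_⟩
  · filter_upwards [eventually_ge_atTop (Real.exp 1), eventually_ge_atTop X0, eventually_ge_atTop 1] with T h1 h2 h3
    intro A κ hA hκ hb x hx
    have hT0 : 0 < T := by linarith
    have hL : 1 ≤ Real.log T := by rwa [Real.le_log_iff_exp_le hT0]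
    have hx0 : 0 < x := by linarith
    have hb1 := (h T A κ h1 hA hκ hb).2 x hx0 (by nlinarith)
    have hX : T ≤ 2 * x * T := by nlinarith
    have h4 := hMb (2 * x * T) (h2.trans hX) (h3.trans hX)
    have h5 : Real.log (2 * x * T) ≤ Real.log T * (1 + Real.log (2 * x)) := by
      rw [Real.log_mul (by positivity) hT0.ne']
      have : 0 ≤ Real.log (2 * x) := Real.log_nonneg (by linarith)
      nlinarith
    have h5' : 0 ≤ Real.log (2 * x * T) := Real.log_nonneg (h3.trans hX)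
    have h6 : Real.log (2 * x * T) ^ q ≤ Real.log T ^ q * (K * x ^ (1 / 2 : ℝ)) := by
      calc Real.log (2 * x * T) ^ q ≤ (Real.log T * (1 + Real.log (2 * x))) ^ q := by gcongr
        _ = Real.log T ^ q * (1 + Real.log (2 * x)) ^ q := mul_pow _ _ _
        _ ≤ _ := by gcongr; exact hKq x hx
    have h7 : M (zr k 0) (2 * x * T) ≤ 2 * C0' * K * (T * Real.log T ^ q * x ^ (3 / 2 : ℝ)) := by
      calc M (zr k 0) (2 * x * T) ≤ C0' * (2 * x * T * Real.log (2 * x * T) ^ q) := h4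
        _ ≤ C0' * (2 * x * T * (Real.log T ^ q * (K * x ^ (1 / 2 : ℝ)))) := by gcongr
        _ = 2 * C0' * K * (T * Real.log T ^ q * (x * x ^ (1 / 2 : ℝ))) := by ring
        _ = _ := by
            congr 2
            rw [← Real.rpow_one_add' hx0.le (by norm_num)]
            norm_num
    have h8 : (1:ℝ) ≤ T * Real.log T ^ q * x ^ (3 / 2 : ℝ) := by
      have a1 : (1:ℝ) ≤ Real.log T ^ q := one_le_pow₀ hL
      have a2 : (1:ℝ) ≤ x ^ (3 / 2 : ℝ) := Real.one_le_rpow hx (by norm_num)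
      exact one_le_mul_of_one_le_of_one_le (one_le_mul_of_one_le_of_one_le h3 a1) a2
    calc ∫ u in (0:ℝ)..x, ‖KK κ (zr k 0) (u * T)‖ ^ 2 ≤ C * A ^ 2 / T * (1 + 2 * M (zr k 0) (2 * x * T)) := hb1
      _ ≤ C * A ^ 2 / T * ((T * Real.log T ^ q * x ^ (3 / 2 : ℝ)) +
          2 * (2 * C0' * K * (T * Real.log T ^ q * x ^ (3 / 2 : ℝ)))) := by gcongr
      _ = _ := by field_simp; ring
  · intro ε hε
    set a : ℝ := min (1 / 2) (ε / (8 * C * C0' + 1)) with ha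
    have ha0 : 0 < a := lt_min (by norm_num) (by positivity)
    have ha1 : a ≤ 1 / 2 := min_le_left _ _
    have ha2 : a * (8 * C * C0') ≤ ε := by
      have h1 : a ≤ ε / (8 * C * C0' + 1) := min_le_right _ _
      rw [le_div_iff₀ (by positivity)] at h1
      nlinarith
    refine ⟨a, ha0, ?_⟩
    filter_upwards [eventually_ge_atTop (Real.exp 1), eventually_ge_atTop (X0 / (2 * a)), eventually_ge_atTop 1,
      eventually_ge_atTop (1 / a), eventually_ge_atTop (2 * C / ε)] with T h1 h2 h3 h3' h3''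
    intro A κ hA hκ hb
    have hT0 : 0 < T := by linarith
    have hL : 1 ≤ Real.log T := by rwa [Real.le_log_iff_exp_le hT0]
    have hb1 := (h T A κ h1 hA hκ hb).2 a ha0 (by rw [div_le_iff₀ ha0] at h3'; linarith)
    have hX : X0 ≤ 2 * a * T := by
      rw [div_le_iff₀ (by positivity)] at h2; linarith
    have hX1 : 1 ≤ 2 * a * T := by
      rw [div_le_iff₀ ha0] at h3'; linarith
    have h4 := hMb (2 * a * T) hX hX1
    have h5 : Real.log (2 * a * T) ≤ Real.log T := Real.log_le_log (by positivity) (by nlinarith)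
    have h5' : 0 ≤ Real.log (2 * a * T) := Real.log_nonneg hX1
    have h6 : (1:ℝ) ≤ Real.log T ^ q := one_le_pow₀ hL
    have h7 : C ≤ T * (ε / 2) := by
      rw [div_le_iff₀ hε] at h3''; linarith
    calc ∫ u in (0:ℝ)..a, ‖KK κ (zr k 0) (u * T)‖ ^ 2 ≤ C * A ^ 2 / T * (1 + 2 * M (zr k 0) (2 * a * T)) := hb1
      _ ≤ C * A ^ 2 / T * (1 + 2 * (C0' * (2 * a * T * Real.log T ^ q))) := by
          have : Real.log (2 * a * T) ^ q ≤ Real.log T ^ q := by gcongr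
          have h9 : M (zr k 0) (2 * a * T) ≤ C0' * (2 * a * T * Real.log T ^ q) :=
            h4.trans (by gcongr)
          gcongr
      _ = A ^ 2 * (C / T) + A ^ 2 * Real.log T ^ q * (a * (8 * C * C0')) / 2 := by field_simp; ring
      _ ≤ A ^ 2 * (ε / 2 * Real.log T ^ q) + A ^ 2 * Real.log T ^ q * ε / 2 := by
          have h8 : C / T ≤ ε / 2 * Real.log T ^ q := by
            rw [div_le_iff₀ hT0]
            nlinarith [mul_pos hT0 hε]
          gcongr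
      _ = _ := by ring

end

end Pool.Agent.K4H49.SV
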