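import Pool.Agent.K4H49.SV.A2

set_option autoImplicit false

/-! The normalised mean squares in the scaled variable. -/

namespace Pool.Agent.K4H49.SV

open Complex MeasureTheory Filter Topology Set
open Pool.Agent.K4H66.HL Pool.Agent.K4H66.OL Pool.Agent.TH535.SM Pool.Agent.R446.KR Pool.Agent.K4H6.SV
open scoped ComplexConjugate ENNReal

noncomputable section

variable {φ : ℝ → ℂ} {k : ℕ}

/-- the normalised square in the scaled variable -/
def ff (φ : ℝ → ℂ) (k : ℕ) (T u : ℝ) : ℝ :=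
  if Real.exp 1 ≤ T then ‖BB φ k T (u * T)‖ ^ 2 / Real.log T ^ (k ^ 2) else 0

/-- the scaled kernel -/
def GG (κ T u : ℝ) : ℝ := if κ ≤ T ∧ 0 < T then T ^ 2 * ‖EE (κ / T) (u * T)‖ ^ 2 else 0

/-- the limit kernel -/
def gg (κ u : ℝ) : ℝ := 4 * Real.sin (κ * u / 2) ^ 2 / u ^ 2

lemma logT {T : ℝ} (hT : Real.exp 1 ≤ T) : 0 < T ∧ 1 < T ∧ 1 ≤ Real.log T := by
  have hT0 : 0 < T := (Real.exp_pos 1).trans_le hT
  have hT1 : 1 < T := by have := Real.add_one_lt_exp one_ne_zero; linarith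
  exact ⟨hT0, hT1, by rwa [Real.le_log_iff_exp_le hT0]⟩

lemma ff_nonneg (φ : ℝ → ℂ) (k : ℕ) (T u : ℝ) : 0 ≤ ff φ k T u := by
  unfold ff
  split_ifs with h
  · have := (logT h).2.2
    positivity
  · exact le_rfl

lemma BB_cont (hMID : S_MID) (h : TS φ) (k : ℕ) {T : ℝ} (hT : Real.exp 1 ≤ T) : Continuous (BB φ k T) := by
  obtain ⟨C, N, hC, h1⟩ := scaled hMID k
  obtain ⟨C2, hC2, h2⟩ := kp_bd h N
  exact (h1 T C2 (kp φ (Real.log T)) hT hC2 (kp_cont h _) fun y => h2 (Real.log T) y (by linarith [(logT hT).2.2])).1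

lemma ff_cont (hMID : S_MID) (h : TS φ) (k : ℕ) (T : ℝ) : Continuous (ff φ k T) := by
  unfold ff
  split_ifs with hT
  · exact (((BB_cont hMID h k hT).comp (continuous_id.mul continuous_const)).norm.pow 2).div_const _
  · exact continuous_const

lemma ff_growth (hMID : S_MID) (h : TS φ) (k : ℕ) {C0 : ℝ}
    (hM : ∀ᶠ T : ℝ in atTop, M (zr k 0) T ≤ C0 * NN (k ^ 2) T) :
    (∃ C : ℝ, 0 ≤ C ∧ ∀ᶠ T : ℝ in atTop, ∀ x : ℝ, 1 ≤ x → ∫ u in (0:ℝ)..x, ff φ k T u ≤ C * x ^ (3 / 2 : ℝ)) ∧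
    ∀ ε : ℝ, 0 < ε → ∃ a : ℝ, 0 < a ∧ ∀ᶠ T : ℝ in atTop, ∫ u in (0:ℝ)..a, ff φ k T u ≤ ε := by
  obtain ⟨C1, N, hC1, h1, h2⟩ := growth hMID k hM
  obtain ⟨C2, hC2, h3⟩ := kp_bd h N
  have key : ∀ T : ℝ, Real.exp 1 ≤ T → ∀ x : ℝ, ∫ u in (0:ℝ)..x, ff φ k T u =
      (∫ u in (0:ℝ)..x, ‖KK (kp φ (Real.log T)) (zr k 0) (u * T)‖ ^ 2) / Real.log T ^ (k ^ 2) := by
    intro T hT x
    rw [← intervalIntegral.integral_div]
    refine intervalIntegral.integral_congr fun u _ => ?_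
    simp only [ff, if_pos hT, BB]
  constructor
  · refine ⟨C1 * C2 ^ 2, by positivity, ?_⟩
    filter_upwards [h1, eventually_ge_atTop (Real.exp 1)] with T hT hTe x hx
    have hL := (logT hTe).2.2
    have h4 := hT C2 (kp φ (Real.log T)) hC2 (kp_cont h _) (fun y => h3 (Real.log T) y (by linarith)) x hx
    rw [key T hTe, div_le_iff₀ (by positivity)]
    exact h4
  · intro ε hε
    obtain ⟨a, ha, h4⟩ := h2 (ε / (C2 ^ 2 + 1)) (by positivity)
    refine ⟨a, ha, ?_⟩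
    filter_upwards [h4, eventually_ge_atTop (Real.exp 1)] with T hT hTe
    have hL := (logT hTe).2.2
    have h5 := hT C2 (kp φ (Real.log T)) hC2 (kp_cont h _) (fun y => h3 (Real.log T) y (by linarith))
    rw [key T hTe, div_le_iff₀ (by positivity)]
    refine h5.trans ?_
    have : ε / (C2 ^ 2 + 1) * C2 ^ 2 ≤ ε := by
      rw [div_mul_eq_mul_div, div_le_iff₀ (by positivity)]
      nlinarith
    have h6 : 0 ≤ Real.log T ^ (k ^ 2) := by positivity
    exact mul_le_mul_of_nonneg_right this h6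

/-- integrals of `ff` over windows -/
lemma ff_window (φ : ℝ → ℂ) (k : ℕ) {T : ℝ} (hT : Real.exp 1 ≤ T) (a b : ℝ) :
    ∫ u in a..b, ff φ k T u = (∫ t in (a * T)..(b * T), ‖BB φ k T t‖ ^ 2) / NN (k ^ 2) T := by
  obtain ⟨hT0, hT1, hL⟩ := logT hT
  have e : ∫ u in a..b, ff φ k T u = ∫ u in a..b, (fun t => ‖BB φ k T t‖ ^ 2 / Real.log T ^ (k ^ 2)) (u * T) := by
    refine intervalIntegral.integral_congr fun u _ => ?_
    simp only [ff, if_pos hT]
  have e2 := intervalIntegral.integral_comp_mul_right (a := a) (b := b)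
    (fun t => ‖BB φ k T t‖ ^ 2 / Real.log T ^ (k ^ 2)) hT0.ne'
  rw [e, e2, smul_eq_mul, intervalIntegral.integral_div]
  unfold NN
  field_simp

/-- the polynomial and the convolution on a window -/
lemma close_window (hMID : S_MID) (h : TS φ) (k : ℕ) {a b : ℝ} (ha : 0 < a) (hab : a ≤ b) (A : ℝ) :
    (Tendsto (fun T => (∫ t in (a * T)..(b * T), ‖DP φ k T t‖ ^ 2) / NN (k ^ 2) T) atTop (𝓝 A) →
      Tendsto (fun T => (∫ t in (a * T)..(b * T), ‖BB φ k T t‖ ^ 2) / NN (k ^ 2) T) atTop (𝓝 A)) ∧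
    (Tendsto (fun T => (∫ t in (a * T)..(b * T), ‖BB φ k T t‖ ^ 2) / NN (k ^ 2) T) atTop (𝓝 A) →
      Tendsto (fun T => (∫ t in (a * T)..(b * T), ‖DP φ k T t‖ ^ 2) / NN (k ^ 2) T) atTop (𝓝 A)) := by
  obtain ⟨C, T0, hC, hT0, h1⟩ := DPw_close h k ha hab
  have hcD : ∀ᶠ T : ℝ in atTop, Continuous (DP φ k T) := by
    filter_upwards [eventually_gt_atTop 1] with T hT
    exact DP_cont h k hT
  have hcB : ∀ᶠ T : ℝ in atTop, Continuous (BB φ k T) := by
    filter_upwards [eventually_ge_atTop (Real.exp 1)] with T hT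
    exact BB_cont hMID h k hT
  have hab' : ∀ᶠ T : ℝ in atTop, a * T ≤ b * T := by
    filter_upwards [eventually_ge_atTop 0] with T hT
    gcongr
  have hN : ∀ᶠ T : ℝ in atTop, 0 < NN (k ^ 2) T := by
    filter_upwards [eventually_gt_atTop 1] with T hT
    exact NN_pos _ hT
  set e : ℝ → ℝ := fun T => (C / T) ^ 2 * ((b - a) * T) with he
  have he0 : ∀ᶠ T : ℝ in atTop, 0 ≤ e T := by
    filter_upwards [eventually_ge_atTop 0] with T hT
    have : 0 ≤ b - a := by linarith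
    simp only [he]
    positivity
  have hlim : Tendsto (fun T => e T / NN (k ^ 2) T) atTop (𝓝 0) := by
    have h2 : Tendsto (fun T : ℝ => (C ^ 2 * (b - a)) / NN (k ^ 2) T) atTop (𝓝 0) :=
      (NN_inf (k ^ 2)).const_div_atTop _
    have h0 : 0 ≤ b - a := by linarith
    refine squeeze_zero' ?_ ?_ h2
    · filter_upwards [he0, hN] with T h3 h4
      positivity
    · filter_upwards [hN, eventually_ge_atTop 1] with T h3 h4
      have h5 : 0 < T := by linarith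
      refine div_le_div_of_nonneg_right ?_ h3.le
      simp only [he]
      have : (C / T) ^ 2 * ((b - a) * T) = C ^ 2 * (b - a) / T := by field_simp
      rw [this]
      exact div_le_self (by positivity) h4
  have hl : ∀ᶠ T : ℝ in atTop, ∀ t ∈ Icc (a * T) (b * T), ‖DP φ k T t - BB φ k T t‖ ≤ C / T := by
    filter_upwards [eventually_ge_atTop T0] with T hT t ht
    exact h1 T hT t ht
  have hint : ∀ F : ℝ → ℝ → ℂ, (∀ᶠ T : ℝ in atTop, ∀ t ∈ Icc (a * T) (b * T), ‖F T t‖ ≤ C / T) →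
      ∀ᶠ T : ℝ in atTop, ∫⁻ t in Icc (a * T) (b * T), ‖F T t‖ₑ ^ 2 ≤ ENNReal.ofReal (e T) := by
    intro F hF
    filter_upwards [hF, eventually_gt_atTop 0] with T h2 h3
    calc ∫⁻ t in Icc (a * T) (b * T), ‖F T t‖ₑ ^ 2 ≤ ∫⁻ t in Icc (a * T) (b * T), ENNReal.ofReal ((C / T) ^ 2) := by
          refine setLIntegral_mono' measurableSet_Icc fun t ht => ?_
          rw [ensq]
          exact ENNReal.ofReal_le_ofReal (pow_le_pow_left₀ (norm_nonneg _) (h2 t ht) 2)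
      _ = ENNReal.ofReal (e T) := by
          rw [setLIntegral_const, Real.volume_Icc, ← ENNReal.ofReal_mul (by positivity)]
          congr 1
          simp only [he]
          ring
  constructor
  · intro hA
    refine tend_comp hcB hcD hab' hN he0 (hint _ ?_) hlim hA
    filter_upwards [hl] with T hT t ht
    rw [norm_sub_rev]
    exact hT t ht
  · intro hA
    exact tend_comp hcD hcB hab' hN he0 (hint _ hl) hlim hA

lemma GG_bd (hKB : S_KB) {κ : ℝ} (hκ : 0 < κ) (T u : ℝ) (hu : 0 < u) :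
    |GG κ T u| ≤ κ ^ 2 + 9 ∧ |GG κ T u| * u ^ 2 ≤ κ ^ 2 + 9 := by
  unfold GG
  split_ifs with h
  · obtain ⟨h1, h2⟩ := h
    have h3 := (hKB.1 (κ / T) (by positivity) ((div_le_one h2).2 h1)).2 (u * T)
    obtain ⟨h4, h5, -⟩ := h3
    have e1 : T ^ 2 * ‖EE (κ / T) (u * T)‖ ^ 2 ≤ κ ^ 2 := by
      rw [← mul_pow]
      refine pow_le_pow_left₀ (by positivity) ?_ 2
      calc T * ‖EE (κ / T) (u * T)‖ ≤ T * (κ / T) := by gcongr
        _ = κ := by field_simp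
    have e2 : T ^ 2 * ‖EE (κ / T) (u * T)‖ ^ 2 * u ^ 2 ≤ 9 := by
      rw [abs_of_pos (by positivity)] at h5
      calc T ^ 2 * ‖EE (κ / T) (u * T)‖ ^ 2 * u ^ 2 = (‖EE (κ / T) (u * T)‖ * (u * T)) ^ 2 := by ring
        _ ≤ 3 ^ 2 := pow_le_pow_left₀ (by positivity) h5 2
        _ = 9 := by norm_num
    rw [abs_of_nonneg (by positivity)]
    constructor
    · linarith
    · have := sq_nonneg κ
      linarith
  · simp only [abs_zero, zero_mul]
    constructor <;> positivity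

lemma GG_cont (hKB : S_KB) {κ : ℝ} (hκ : 0 < κ) (T : ℝ) : Continuous (GG κ T) := by
  unfold GG
  split_ifs with h
  · obtain ⟨h1, h2⟩ := h
    have h3 := (hKB.1 (κ / T) (by positivity) ((div_le_one h2).2 h1)).1
    exact continuous_const.mul ((h3.comp (continuous_id.mul continuous_const)).norm.pow 2)
  · exact continuous_const

lemma GG_nonneg (κ T u : ℝ) : 0 ≤ GG κ T u := by
  unfold GG
  split_ifs <;> positivity

lemma gg_bd (κ : ℝ) (u : ℝ) (hu : 0 < u) : |gg κ u| ≤ κ ^ 2 + 9 ∧ |gg κ u| * u ^ 2 ≤ κ ^ 2 + 9 := by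
  unfold gg
  have h1 : Real.sin (κ * u / 2) ^ 2 ≤ (κ * u / 2) ^ 2 := Real.sin_sq_le_sq
  have h2 : Real.sin (κ * u / 2) ^ 2 ≤ 1 := Real.sin_sq_le_one _
  rw [abs_of_nonneg (by positivity)]
  constructor
  · rw [div_le_iff₀ (by positivity)]
    nlinarith [mul_pos hu hu]
  · rw [div_mul_cancel₀ _ (by positivity)]
    nlinarith [sq_nonneg κ]

lemma gg_cont (κ : ℝ) : ContinuousOn (gg κ) (Ioi 0) := by
  unfold gg
  refine ContinuousOn.div (by fun_prop) (by fun_prop) fun u hu => ?_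
  have : (0:ℝ) < u := hu
  positivity

lemma GG_gg (hKB : S_KB) {κ : ℝ} (hκ : 0 < κ) : ∀ a b : ℝ, 0 < a → a < b → ∀ ε : ℝ, 0 < ε →
    ∀ᶠ T : ℝ in atTop, ∀ u ∈ Icc a b, |GG κ T u - gg κ u| ≤ ε := by
  intro a b ha hab ε hε
  filter_upwards [hKB.2 κ a b hκ ha hab ε hε, eventually_ge_atTop κ, eventually_gt_atTop 0] with T h1 h2 h3 u hu
  unfold GG gg
  rw [if_pos ⟨h2, h3⟩]
  exact h1 u hu

/-- scaling of the critical line integral -/
lemma scale_int (F : ℝ → ℝ) {T : ℝ} (hT : 0 < T) :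
    ∫ t in Ioi (0:ℝ), F t = T * ∫ u in Ioi (0:ℝ), F (u * T) := by
  have := integral_comp_mul_right_Ioi F 0 hT
  rw [this, zero_mul, smul_eq_mul]
  field_simp

/-- the variance in the scaled variable -/
lemma Va_eq (hPL : S_PL) (hID : S_ID) (hKB : S_KB) (h : TS φ) (hφ : ∀ x, conj (φ x) = φ x) (k : ℕ) {κ T : ℝ}
    (hκ : 0 < κ) (hT : Real.exp 1 ≤ T / κ) (hT1 : κ ≤ T) (hT0 : 0 < T) :
    Va φ k (T / κ) = 1 / (κ * Real.pi) * ∫ u in Ioi (0:ℝ), GG κ T u * ‖BB φ k (T / κ) (u * T)‖ ^ 2 := by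
  unfold Va
  have e1 : 1 / (T / κ) = κ / T := by field_simp
  rw [e1, var_eq hPL hID hKB h hφ k hT (by positivity) ((div_le_one hT0).2 hT1),
    scale_int (fun t => ‖EE (κ / T) t‖ ^ 2 * ‖BB φ k (T / κ) t‖ ^ 2) hT0]
  have e2 : ∫ u in Ioi (0:ℝ), GG κ T u * ‖BB φ k (T / κ) (u * T)‖ ^ 2 =
      T ^ 2 * ∫ u in Ioi (0:ℝ), ‖EE (κ / T) (u * T)‖ ^ 2 * ‖BB φ k (T / κ) (u * T)‖ ^ 2 := by
    rw [← integral_const_mul]
    refine integral_congr_ae (Eventually.of_forall fun u => ?_)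
    simp only [GG, if_pos (show κ ≤ T ∧ 0 < T from ⟨hT1, hT0⟩)]
    ring
  rw [e2]
  have := Real.pi_pos
  field_simp

end

end Pool.Agent.K4H49.SV
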