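import Pool.Agent.K4H49.SV.A3

set_option autoImplicit false

/-! The equivalence of the moment and the variance. -/

namespace Pool.Agent.K4H49.SV

open Complex MeasureTheory Filter Topology Set
open Pool.Agent.K4H66.HL Pool.Agent.K4H66.OL Pool.Agent.TH535.SM Pool.Agent.R446.KR Pool.Agent.K4H6.SV
open scoped ComplexConjugate ENNReal

noncomputable section

variable {φ : ℝ → ℂ} {k : ℕ}

lemma ev_le {f g : ℝ → ℝ} {c : ℝ} (h : Tendsto (fun T => f T / g T) atTop (𝓝 c)) (hg : ∀ᶠ T : ℝ in atTop, 0 < g T) :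
    ∀ᶠ T : ℝ in atTop, f T ≤ (c + 1) * g T := by
  filter_upwards [h.eventually_le_const (show c < c + 1 by linarith), hg] with T h1 h2
  rwa [div_le_iff₀ h2] at h1

lemma NN_ev (q : ℕ) : ∀ᶠ T : ℝ in atTop, 0 < NN q T := by
  filter_upwards [eventually_gt_atTop 1] with T hT
  exact NN_pos _ hT

/-- the moment gives the mean squares in the scaled variable -/
lemma ff_lim (hMID : S_MID) (hk : 2 ≤ k) (h : TS φ)
    (hφ : ∀ x ∈ Icc (1:ℝ) (k - 1), ‖φ x‖ ^ 2 + ‖φ (k - x)‖ ^ 2 = 1) {c : ℝ}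
    (hM : Tendsto (fun T => M (zr k 0) T / NN (k ^ 2) T) atTop (𝓝 c)) {x : ℝ} (hx : 0 < x) :
    Tendsto (fun T => ∫ u in (0:ℝ)..x, ff φ k T u) atTop (𝓝 ((c / 2 + Jc φ k) * x)) := by
  have hw : ∀ a b : ℝ, 0 < a → a ≤ b →
      Tendsto (fun T => ∫ u in a..b, ff φ k T u) atTop (𝓝 ((c / 2 + Jc φ k) * (b - a))) := by
    intro a b ha hab
    have h1 := windows hk h hφ hM ha hab
    unfold Wm at h1
    have h2 := (close_window hMID h k ha hab _).1 h1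
    refine h2.congr' ?_
    filter_upwards [eventually_ge_atTop (Real.exp 1)] with T hT
    exact (ff_window φ k hT a b).symm
  obtain ⟨-, hs⟩ := ff_growth hMID h k (ev_le hM (NN_ev _))
  set S := c / 2 + Jc φ k with hS
  rw [Metric.tendsto_nhds]
  intro ε hε
  obtain ⟨a0, ha0, h1⟩ := hs (ε / 4) (by positivity)
  set a : ℝ := min (min a0 x) (ε / (4 * (|S| + 1))) with ha
  have hap : 0 < a := lt_min (lt_min ha0 hx) (by positivity)
  have ha1 : a ≤ a0 := (min_le_left _ _).trans (min_le_left _ _)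
  have ha2 : a ≤ x := (min_le_left _ _).trans (min_le_right _ _)
  have ha3 : |S| * a ≤ ε / 4 := by
    have h2 : a ≤ ε / (4 * (|S| + 1)) := min_le_right _ _
    rw [le_div_iff₀ (by positivity)] at h2
    nlinarith [abs_nonneg S]
  have h3 := (Metric.tendsto_nhds.1 (hw a x hap ha2)) (ε / 4) (by positivity)
  filter_upwards [h1, h3] with T h4 h5
  have hc := ff_cont hMID h k T
  have e1 := intervalIntegral.integral_add_adjacent_intervals (hc.intervalIntegrable (μ := volume) 0 a)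
    (hc.intervalIntegrable a x)
  have e2 := intervalIntegral.integral_add_adjacent_intervals (hc.intervalIntegrable (μ := volume) 0 a)
    (hc.intervalIntegrable a a0)
  have h6 : 0 ≤ ∫ u in a..a0, ff φ k T u := intervalIntegral.integral_nonneg ha1 fun u _ => ff_nonneg φ k T u
  have h7 : 0 ≤ ∫ u in (0:ℝ)..a, ff φ k T u := intervalIntegral.integral_nonneg hap.le fun u _ => ff_nonneg φ k T u
  rw [Real.dist_eq] at h5 ⊢
  rw [← e1]
  have h8 : (∫ u in (0:ℝ)..a, ff φ k T u) + (∫ u in a..x, ff φ k T u) - S * x =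
      (∫ u in (0:ℝ)..a, ff φ k T u) + ((∫ u in a..x, ff φ k T u) - S * (x - a)) - S * a := by ring
  rw [h8]
  have h9 : |S * a| ≤ ε / 4 := by rw [abs_mul, abs_of_pos hap]; exact ha3
  rw [abs_lt] at h5 ⊢
  rw [abs_le] at h9
  constructor <;> linarith [h9.1, h9.2, h5.1, h5.2]

/-- the variance in terms of `ff` -/
lemma Va_ff (hPL : S_PL) (hID : S_ID) (hKB : S_KB) (h : TS φ) (hφ : ∀ x, conj (φ x) = φ x) (k : ℕ) :
    ∀ᶠ T : ℝ in atTop, Va φ k T / Real.log T ^ (k ^ 2) = 1 / Real.pi * ∫ u in Ioi (0:ℝ), GG 1 T u * ff φ k T u := by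
  filter_upwards [eventually_ge_atTop (Real.exp 1)] with T hT
  obtain ⟨hT0, hT1, hL⟩ := logT hT
  have h1 := Va_eq hPL hID hKB h hφ k one_pos (T := T) (by rwa [div_one]) hT1.le hT0
  rw [div_one, one_mul] at h1
  rw [h1, mul_div_assoc]
  congr 1
  rw [← integral_div]
  refine integral_congr_ae (Eventually.of_forall fun u => ?_)
  simp only [ff, if_pos hT]
  ring

/-- **the direct half** -/
theorem direct (hPL : S_PL) (hID : S_ID) (hKB : S_KB) (hMID : S_MID) (hCM : S_CM) (hAB : S_AB) (hSIN : S_SIN)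
    (hk : 2 ≤ k) (h : TS φ) (hr : ∀ x, conj (φ x) = φ x)
    (hφ : ∀ x ∈ Icc (1:ℝ) (k - 1), ‖φ x‖ ^ 2 + ‖φ (k - x)‖ ^ 2 = 1) {c : ℝ}
    (hM : Tendsto (fun T => M (zr k 0) T / NN (k ^ 2) T) atTop (𝓝 c)) :
    Tendsto (fun T => Va φ k T / Real.log T ^ (k ^ 2)) atTop (𝓝 (c / 2 + Jc φ k)) := by
  obtain ⟨⟨C, hC, hg⟩, hs⟩ := ff_growth hMID h k (ev_le hM (NN_ev _))
  set C' : ℝ := max C 10 with hC'
  have hg' : ∀ᶠ T : ℝ in atTop, ∀ x : ℝ, 1 ≤ x → ∫ u in (0:ℝ)..x, ff φ k T u ≤ C' * x ^ (3 / 2 : ℝ) := by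
    filter_upwards [hg] with T hT x hx
    refine (hT x hx).trans ?_
    have : 0 ≤ x ^ (3 / 2 : ℝ) := by positivity
    exact mul_le_mul_of_nonneg_right (le_max_left _ _) this
  have h10 : (1:ℝ) ^ 2 + 9 ≤ C' := by
    have := le_max_right C 10
    norm_num
    exact this
  have hG : ∀ᶠ T : ℝ in atTop, ∀ u : ℝ, 0 < u → |GG 1 T u| ≤ C' ∧ |GG 1 T u| * u ^ 2 ≤ C' :=
    Eventually.of_forall fun T u hu => ⟨(GG_bd hKB one_pos T u hu).1.trans h10, (GG_bd hKB one_pos T u hu).2.trans h10⟩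
  have hgg : ∀ u : ℝ, 0 < u → |gg 1 u| ≤ C' ∧ |gg 1 u| * u ^ 2 ≤ C' :=
    fun u hu => ⟨(gg_bd 1 u hu).1.trans h10, (gg_bd 1 u hu).2.trans h10⟩
  have h1 := hAB (ff φ k) (gg 1) (c / 2 + Jc φ k) C' (ff_cont hMID h k) (ff_nonneg φ k) (gg_cont 1) hg'
    (fun x hx => ff_lim hMID hk h hφ hM hx) hgg
  obtain ⟨-, h2⟩ := hCM (ff φ k) (GG 1) (gg 1) C' (ff_cont hMID h k) (ff_nonneg φ k)
    (fun T => (GG_cont hKB one_pos T).continuousOn) (gg_cont 1) hg' hs hG hgg (GG_gg hKB one_pos)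
  have h3 := (h2.add h1).const_mul (1 / Real.pi)
  have e : ∫ u in Ioi (0:ℝ), gg 1 u = Real.pi * 1 := hSIN 1 one_pos
  rw [e] at h3
  have hpi := Real.pi_pos
  have e2 : 1 / Real.pi * (0 + (c / 2 + Jc φ k) * (Real.pi * 1)) = c / 2 + Jc φ k := by field_simp; ring
  rw [e2] at h3
  refine h3.congr' ?_
  filter_upwards [Va_ff hPL hID hKB h hr k] with T hT
  rw [hT]
  ring

/-- comparison of squares -/
lemma sq_cmp (x y : ℂ) {ε : ℝ} (hε : 0 < ε) (hε1 : ε ≤ 1) :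
    |‖x‖ ^ 2 - ‖y‖ ^ 2| ≤ 2 * ε * ‖y‖ ^ 2 + (3 + 1 / ε) * ‖x - y‖ ^ 2 := by
  have h1 : ‖x‖ ≤ ‖y‖ + ‖x - y‖ := by
    calc ‖x‖ = ‖y + (x - y)‖ := by congr 1; ring
      _ ≤ _ := norm_add_le _ _
  have h2 : ‖y‖ ≤ ‖x‖ + ‖x - y‖ := by
    calc ‖y‖ = ‖x - (x - y)‖ := by congr 1; ring
      _ ≤ _ := norm_sub_le _ _
  set a := ‖x‖
  set b := ‖y‖
  set d := ‖x - y‖
  have ha : 0 ≤ a := norm_nonneg _
  have hb : 0 ≤ b := norm_nonneg _
  have hd : 0 ≤ d := norm_nonneg _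
  have h3 : 2 * b * d ≤ ε * b ^ 2 + 1 / ε * d ^ 2 := by
    have h4 : 0 ≤ (ε * b - d) ^ 2 / ε := by positivity
    have h5 : (ε * b - d) ^ 2 / ε = ε * b ^ 2 + 1 / ε * d ^ 2 - 2 * b * d := by field_simp; ring
    linarith
  have h6 : 0 ≤ 1 / ε * d ^ 2 := by positivity
  have h7 : 0 ≤ ε * b ^ 2 := by positivity
  have hbd : 0 ≤ b * d := by positivity
  rw [abs_le]
  constructor
  · rcases le_total d b with hdb | hdb
    · have : (b - d) ^ 2 ≤ a ^ 2 := pow_le_pow_left₀ (by linarith) (by linarith) 2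
      nlinarith [sq_nonneg d]
    · nlinarith [sq_nonneg d, sq_nonneg a]
  · have : a ^ 2 ≤ (b + d) ^ 2 := pow_le_pow_left₀ ha h1 2
    nlinarith [sq_nonneg d]

end

end Pool.Agent.K4H49.SV
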