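import Pool.Agent.K4H49.SV.A4

set_option autoImplicit false

/-! The converse half. -/

namespace Pool.Agent.K4H49.SV

open Complex MeasureTheory Filter Topology Set
open Pool.Agent.K4H66.HL Pool.Agent.K4H66.OL Pool.Agent.TH535.SM Pool.Agent.R446.KR Pool.Agent.K4H6.SV
open scoped ComplexConjugate ENNReal

noncomputable section

variable {φ : ℝ → ℂ} {k : ℕ}

/-- integrability in the scaled variable -/
lemma G_int (hPL : S_PL) (hID : S_ID) (h : TS φ) (k : ℕ) {κ T T' : ℝ}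
    (hκ : 0 < κ) (hT : Real.exp 1 ≤ T') (hT1 : κ ≤ T) (hT0 : 0 < T) :
    IntegrableOn (fun u => GG κ T u * ‖BB φ k T' (u * T)‖ ^ 2) (Ioi 0) := by
  have h1 := var_int hPL hID h k hT (h' := κ / T) (by positivity) ((div_le_one hT0).2 hT1)
  have h2 := (h1.comp_mul_right' hT0.ne').const_mul (T ^ 2)
  refine (h2.congr (Eventually.of_forall fun u => ?_)).integrableOn
  simp only [GG, if_pos (show κ ≤ T ∧ 0 < T from ⟨hT1, hT0⟩)]
  ring

/-- the lower bound of the kernel -/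
lemma GG_low (hKB : S_KB) : ∃ c : ℝ, 0 < c ∧ ∀ᶠ T : ℝ in atTop, ∀ u ∈ Icc (1:ℝ) 2, c ≤ GG 1 T u := by
  have hs : 0 < Real.sin (1 / 2) := Real.sin_pos_of_pos_of_lt_pi (by norm_num) (by linarith [Real.pi_gt_three])
  refine ⟨Real.sin (1 / 2) ^ 2 / 2, by positivity, ?_⟩
  filter_upwards [GG_gg hKB one_pos 1 2 one_pos (by norm_num) (Real.sin (1 / 2) ^ 2 / 2) (by positivity)] with T hT u hu
  have h1 := hT u hu
  obtain ⟨hu1, hu2⟩ := hu
  have h2 : Real.sin (1 / 2) ≤ Real.sin (1 * u / 2) := by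
    refine Real.sin_le_sin_of_le_of_le_pi_div_two (by linarith [Real.pi_gt_three]) (by linarith [Real.pi_gt_three]) (by linarith)
  have h3 : Real.sin (1 / 2) ^ 2 ≤ gg 1 u := by
    unfold gg
    rw [le_div_iff₀ (by positivity)]
    have h4 : Real.sin (1 / 2) ^ 2 ≤ Real.sin (1 * u / 2) ^ 2 := by gcongr
    have h5 : u ^ 2 ≤ 4 := by nlinarith
    nlinarith [sq_nonneg (Real.sin (1 / 2))]
  rw [abs_le] at h1
  linarith [h1.1]

/-- a bounded variance bounds the moment -/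
theorem mom_bdd (hPL : S_PL) (hID : S_ID) (hKB : S_KB) (hMID : S_MID) (hk : 2 ≤ k) (h : TS φ)
    (hr : ∀ x, conj (φ x) = φ x) (hφ : ∀ x ∈ Icc (1:ℝ) (k - 1), ‖φ x‖ ^ 2 + ‖φ (k - x)‖ ^ 2 = 1) {B : ℝ}
    (hV : ∀ᶠ T : ℝ in atTop, Va φ k T ≤ B * Real.log T ^ (k ^ 2)) :
    ∃ C : ℝ, ∀ᶠ T : ℝ in atTop, M (zr k 0) T ≤ C * NN (k ^ 2) T := by
  rw [half_order hk h hφ]
  obtain ⟨c, hc, hG⟩ := GG_low hKB
  obtain ⟨C, T0, hC, hT0, h1⟩ := DPw_close h k (a := 1) (b := 2) one_pos (by norm_num)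
  refine ⟨2 * (Real.pi * B / c) + 2 * C ^ 2, ?_⟩
  filter_upwards [hV, hG, Va_ff hPL hID hKB h hr k, eventually_ge_atTop (Real.exp 1), eventually_ge_atTop T0]
    with T t1 t2 t3 t4 t5
  obtain ⟨hTp, hT1, hL⟩ := logT t4
  have hpi := Real.pi_pos
  have hLq : 0 < Real.log T ^ (k ^ 2) := by positivity
  have hNN : 0 < NN (k ^ 2) T := NN_pos _ hT1
  -- the window
  have i1 : IntegrableOn (fun u => GG 1 T u * ff φ k T u) (Ioi 0) := by
    have h2 := (G_int hPL hID h k one_pos t4 hT1.le hTp).div_const (Real.log T ^ (k ^ 2))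
    refine h2.congr (Eventually.of_forall fun u => ?_)
    simp only [ff, if_pos t4]
    ring
  have i2 : ∫ u in (1:ℝ)..2, c * ff φ k T u ≤ ∫ u in Ioi (0:ℝ), GG 1 T u * ff φ k T u := by
    rw [intervalIntegral.integral_of_le (by norm_num)]
    calc ∫ u in Ioc (1:ℝ) 2, c * ff φ k T u ≤ ∫ u in Ioc (1:ℝ) 2, GG 1 T u * ff φ k T u := by
          refine setIntegral_mono_on ?_ ?_ measurableSet_Ioc fun u hu => ?_
          · exact ((continuous_const.mul (ff_cont hMID h k T)).integrableOn_Icc (a := 1) (b := 2)).mono_set Ioc_subset_Icc_self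
          · exact i1.mono_set fun u hu => lt_trans one_pos hu.1
          · exact mul_le_mul_of_nonneg_right (t2 u ⟨hu.1.le, hu.2⟩) (ff_nonneg φ k T u)
      _ ≤ _ := by
          refine setIntegral_mono_set i1 (Eventually.of_forall fun u => mul_nonneg (GG_nonneg _ _ _) (ff_nonneg _ _ _ _)) ?_
          exact Eventually.of_forall fun u (hu : u ∈ Ioc (1:ℝ) 2) => lt_trans one_pos hu.1
  rw [intervalIntegral.integral_const_mul, ff_window φ k t4 1 2] at i2
  have i3 : ∫ u in Ioi (0:ℝ), GG 1 T u * ff φ k T u ≤ Real.pi * B := by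
    have h2 : Va φ k T / Real.log T ^ (k ^ 2) ≤ B := by rwa [div_le_iff₀ hLq]
    rw [t3] at h2
    have h3 := mul_le_mul_of_nonneg_left h2 hpi.le
    have h4 : Real.pi * (1 / Real.pi * ∫ u in Ioi (0:ℝ), GG 1 T u * ff φ k T u) =
        ∫ u in Ioi (0:ℝ), GG 1 T u * ff φ k T u := by field_simp
    linarith
  have i4 : ∫ t in (1 * T)..(2 * T), ‖BB φ k T t‖ ^ 2 ≤ Real.pi * B / c * NN (k ^ 2) T := by
    have h2 := i2.trans i3
    rw [← div_le_iff₀ hNN, le_div_iff₀ hc]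
    linarith
  -- the polynomial
  have hcB := BB_cont hMID h k t4
  have hcD := DP_cont h k hT1
  have i5 : mD φ k T ≤ ∫ t in (1 * T)..(2 * T), (2 * ‖BB φ k T t‖ ^ 2 + 2 * (C / T) ^ 2) := by
    unfold mD
    rw [one_mul]
    refine intervalIntegral.integral_mono_on (by linarith) ((hcD.norm.pow 2).intervalIntegrable _ _)
      ((continuous_const.mul (hcB.norm.pow 2)).add continuous_const |>.intervalIntegrable _ _) fun t ht => ?_
    have h2 := h1 T t5 t (by rw [one_mul]; exact ht)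
    have h3 : ‖DP φ k T t‖ ≤ ‖BB φ k T t‖ + C / T := by
      calc ‖DP φ k T t‖ = ‖BB φ k T t + (DP φ k T t - BB φ k T t)‖ := by congr 1; ring
        _ ≤ ‖BB φ k T t‖ + ‖DP φ k T t - BB φ k T t‖ := norm_add_le _ _
        _ ≤ _ := by gcongr; exact h2
    have h4 : 0 ≤ C / T := by positivity
    nlinarith [norm_nonneg (DP φ k T t), norm_nonneg (BB φ k T t), sq_nonneg (‖BB φ k T t‖ - C / T)]
  have hc2 : Continuous (fun t => 2 * ‖BB φ k T t‖ ^ 2) := continuous_const.mul (hcB.norm.pow 2)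
  rw [intervalIntegral.integral_add (f := fun t => 2 * ‖BB φ k T t‖ ^ 2) (g := fun _ => 2 * (C / T) ^ 2)
    (hc2.intervalIntegrable _ _) (continuous_const.intervalIntegrable _ _), intervalIntegral.integral_const_mul,
    intervalIntegral.integral_const, smul_eq_mul] at i5
  have i6 : (2 * T - 1 * T) * (2 * (C / T) ^ 2) ≤ 2 * C ^ 2 * NN (k ^ 2) T := by
    have h2 : (2 * T - 1 * T) * (2 * (C / T) ^ 2) = 2 * C ^ 2 * (1 / T) := by field_simp; ring
    rw [h2]
    have h3 : 1 / T ≤ NN (k ^ 2) T := by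
      have a1 : 1 / T ≤ 1 := by rw [div_le_one hTp]; exact hT1.le
      have a2 : (1:ℝ) ≤ T * Real.log T ^ (k ^ 2) := one_le_mul_of_one_le_of_one_le hT1.le (one_le_pow₀ hL)
      unfold NN
      linarith
    gcongr
  calc mD φ k T ≤ _ := i5
    _ ≤ 2 * (Real.pi * B / c * NN (k ^ 2) T) + 2 * C ^ 2 * NN (k ^ 2) T := by gcongr
    _ = _ := by ring

end

end Pool.Agent.K4H49.SV
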