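import Pool.Agent.K4H49.SV.A5

set_option autoImplicit false

/-! The converse half: the family of kernels. -/

namespace Pool.Agent.K4H49.SV

open Complex MeasureTheory Filter Topology Set
open Pool.Agent.K4H66.HL Pool.Agent.K4H66.OL Pool.Agent.TH535.SM Pool.Agent.R446.KR Pool.Agent.K4H6.SV
open scoped ComplexConjugate ENNReal

noncomputable section

variable {φ : ℝ → ℂ} {k : ℕ}

/-- changing the length by a constant factor changes the convolution little -/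
lemma diff_growth (hMID : S_MID) (hKP : S_KP) (h : TS φ) (k : ℕ) {C0 : ℝ}
    (hM : ∀ᶠ T : ℝ in atTop, M (zr k 0) T ≤ C0 * NN (k ^ 2) T) {κ : ℝ} (hκ : 0 < κ) :
    ∃ C : ℝ, 0 ≤ C ∧ ∀ᶠ T : ℝ in atTop, ∀ x : ℝ, 1 ≤ x →
      ∫ u in (0:ℝ)..x, ‖BB φ k (T / κ) (u * T) - BB φ k T (u * T)‖ ^ 2 / Real.log T ^ (k ^ 2) ≤
        C * (1 / Real.log T) ^ 2 * x ^ (3 / 2 : ℝ) := by
  obtain ⟨C1, N, hC1, h1, -⟩ := growth hMID k hM
  obtain ⟨C2, hC2, h2⟩ := hKP φ h N
  refine ⟨C1 * (C2 * |Real.log κ|) ^ 2, by positivity, ?_⟩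
  have hlog : ∀ᶠ T : ℝ in atTop, 2 * |Real.log κ| ≤ Real.log T := Real.tendsto_log_atTop.eventually_ge_atTop _
  filter_upwards [h1, eventually_ge_atTop (Real.exp 1), hlog] with T t1 t2 t3 x hx
  obtain ⟨hT0, hT1, hL⟩ := logT t2
  have e1 : Real.log (T / κ) = Real.log T - Real.log κ := Real.log_div hT0.ne' hκ.ne'
  have hk0 := abs_nonneg (Real.log κ)
  have hk1 := le_abs_self (Real.log κ)
  have hk2 := neg_abs_le (Real.log κ)
  have b1 : Real.log T / 2 ≤ Real.log (T / κ) := by rw [e1]; linarith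
  have b2 : Real.log (T / κ) ≤ 2 * Real.log T := by rw [e1]; linarith
  have b3 : |Real.log (T / κ) - Real.log T| = |Real.log κ| := by
    rw [e1, ← abs_neg]; congr 1; ring
  have h3 := h2 (Real.log T) (Real.log (T / κ)) hL b1 b2
  rw [b3] at h3
  set κ' : ℝ → ℂ := fun y => kp φ (Real.log (T / κ)) y - kp φ (Real.log T) y with hκ'
  have hc : Continuous κ' := (kp_cont h _).sub (kp_cont h _)
  have h4 := t1 (C2 * (|Real.log κ| / Real.log T)) κ' (by positivity) hc h3 x hx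
  have e2 : ∀ u : ℝ, KK κ' (zr k 0) (u * T) = BB φ k (T / κ) (u * T) - BB φ k T (u * T) := by
    intro u
    unfold BB KK
    rw [← integral_sub (kz_int h (zdat k (u := 1) le_rfl) (by linarith) _)
      (kz_int h (zdat k (u := 1) le_rfl) (by linarith) _)]
    refine integral_congr_ae (Eventually.of_forall fun y => ?_)
    simp only [hκ']
    ring
  simp_rw [e2] at h4
  rw [intervalIntegral.integral_div, div_le_iff₀ (by positivity)]
  refine h4.trans (le_of_eq ?_)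
  field_simp

/-- the variances give the integrals against all the kernels -/
theorem all_kernels (hPL : S_PL) (hID : S_ID) (hKB : S_KB) (hMID : S_MID) (hKP : S_KP) (hBD : S_BD) (h : TS φ)
    (hr : ∀ x, conj (φ x) = φ x) {C0 : ℝ} (hM : ∀ᶠ T : ℝ in atTop, M (zr k 0) T ≤ C0 * NN (k ^ 2) T) {S : ℝ}
    (hV : Tendsto (fun T => Va φ k T / Real.log T ^ (k ^ 2)) atTop (𝓝 S)) {κ : ℝ} (hκ : 0 < κ) :
    Tendsto (fun T => ∫ u in Ioi (0:ℝ), GG κ T u * ff φ k T u) atTop (𝓝 (Real.pi * κ * S)) := by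
  obtain ⟨K, hK, hBD⟩ := hBD
  obtain ⟨C, hC, hD⟩ := diff_growth hMID hKP h k hM hκ
  obtain ⟨⟨C', hC', hf⟩, -⟩ := ff_growth hMID h k hM
  have hTk : Tendsto (fun T : ℝ => T / κ) atTop atTop := tendsto_id.atTop_div_const hκ
  -- the first integral
  have s1 : Tendsto (fun T => ∫ u in Ioi (0:ℝ), GG κ T u * (‖BB φ k (T / κ) (u * T)‖ ^ 2 / Real.log T ^ (k ^ 2))) atTop
      (𝓝 (Real.pi * κ * S)) := by
    have h1 : Tendsto (fun T => Va φ k (T / κ) / Real.log (T / κ) ^ (k ^ 2)) atTop (𝓝 S) := hV.comp hTk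
    have h2 : Tendsto (fun T => Real.log (T / κ) / Real.log T) atTop (𝓝 1) := by
      have h3 : Tendsto (fun T => 1 - Real.log κ / Real.log T) atTop (𝓝 (1 - 0)) :=
        tendsto_const_nhds.sub (Real.tendsto_log_atTop.const_div_atTop _)
      rw [sub_zero] at h3
      refine h3.congr' ?_
      filter_upwards [eventually_ge_atTop (Real.exp 1)] with T hT
      obtain ⟨hT0, hT1, hL⟩ := logT hT
      rw [Real.log_div hT0.ne' hκ.ne']
      field_simp
    have h3 := ((h2.pow (k ^ 2)).mul h1).const_mul (κ * Real.pi)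
    rw [one_pow, one_mul, show κ * Real.pi * S = Real.pi * κ * S by ring] at h3
    refine h3.congr' ?_
    filter_upwards [eventually_ge_atTop (Real.exp 1), eventually_ge_atTop κ,
      hTk.eventually_ge_atTop (Real.exp 1)] with T t1 t2 t3
    obtain ⟨hT0, hT1, hL⟩ := logT t1
    obtain ⟨-, -, hL'⟩ := logT t3
    have h4 := Va_eq hPL hID hKB h hr k hκ t3 t2 hT0
    have h5 : ∫ u in Ioi (0:ℝ), GG κ T u * (‖BB φ k (T / κ) (u * T)‖ ^ 2 / Real.log T ^ (k ^ 2)) =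
        (∫ u in Ioi (0:ℝ), GG κ T u * ‖BB φ k (T / κ) (u * T)‖ ^ 2) / Real.log T ^ (k ^ 2) := by
      rw [← integral_div]
      refine integral_congr_ae (Eventually.of_forall fun u => ?_)
      simp only
      ring
    rw [h5, h4, div_pow]
    have hpi := Real.pi_pos
    field_simp
  -- the difference
  suffices hz : Tendsto (fun T => (∫ u in Ioi (0:ℝ), GG κ T u * ff φ k T u) -
      ∫ u in Ioi (0:ℝ), GG κ T u * (‖BB φ k (T / κ) (u * T)‖ ^ 2 / Real.log T ^ (k ^ 2))) atTop (𝓝 0) by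
    have := hz.add s1
    simpa using this
  rw [Metric.tendsto_nhds]
  intro η hη
  set G0 : ℝ := κ ^ 2 + 9 with hG0
  have hG0p : 0 < G0 := by positivity
  obtain ⟨ε, hε0, hε1, hε2⟩ : ∃ ε : ℝ, 0 < ε ∧ ε ≤ 1 ∧ 2 * ε * (K * C' * G0) ≤ η / 4 := by
    refine ⟨min 1 (η / (8 * (K * C' * G0 + 1))), by positivity, min_le_left _ _, ?_⟩
    have h1 : min 1 (η / (8 * (K * C' * G0 + 1))) ≤ η / (8 * (K * C' * G0 + 1)) := min_le_right _ _
    have h0 : 0 ≤ K * C' * G0 := by positivity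
    calc 2 * min 1 (η / (8 * (K * C' * G0 + 1))) * (K * C' * G0)
        ≤ 2 * (η / (8 * (K * C' * G0 + 1))) * (K * C' * G0 + 1) := by gcongr; linarith
      _ = η / 4 := by field_simp; norm_num
  have hlim : Tendsto (fun T : ℝ => (3 + 1 / ε) * (K * (C * (1 / Real.log T) ^ 2) * G0)) atTop (𝓝 0) := by
    have h1 : Tendsto (fun T : ℝ => 1 / Real.log T) atTop (𝓝 0) := Real.tendsto_log_atTop.const_div_atTop _
    have h2 := ((((h1.pow 2).const_mul C).const_mul K).mul_const G0).const_mul (3 + 1 / ε)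
    simpa using h2
  filter_upwards [hD, hf, eventually_ge_atTop (Real.exp 1), eventually_ge_atTop κ,
      hTk.eventually_ge_atTop (Real.exp 1), hlim.eventually_lt_const (show (0:ℝ) < η / 4 by positivity)]
    with T t1 t2 t3 t4 t5 t6
  obtain ⟨hT0, hT1, hL⟩ := logT t3
  set q := k ^ 2 with hq
  have hLq : 0 < Real.log T ^ q := by positivity
  set d : ℝ → ℝ := fun u => ‖BB φ k (T / κ) (u * T) - BB φ k T (u * T)‖ ^ 2 / Real.log T ^ q with hd
  have hdc : Continuous d := by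
    have c1 := BB_cont hMID h k t3
    have c2 := BB_cont hMID h k t5
    exact (((c2.comp (continuous_id.mul continuous_const)).sub
      (c1.comp (continuous_id.mul continuous_const))).norm.pow 2).div_const _
  have hGb : ∀ u : ℝ, 0 < u → |GG κ T u| ≤ G0 ∧ |GG κ T u| * u ^ 2 ≤ G0 := GG_bd hKB hκ T
  obtain ⟨i1, b1⟩ := hBD (ff φ k T) (GG κ T) C' G0 hC' hG0p.le (ff_cont hMID h k T) (ff_nonneg φ k T)
    (GG_cont hKB hκ T).continuousOn t2 hGb
  obtain ⟨i2, b2⟩ := hBD d (GG κ T) (C * (1 / Real.log T) ^ 2) G0 (by positivity) hG0p.le hdc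
    (fun u => by simp only [hd]; positivity) (GG_cont hKB hκ T).continuousOn t1 hGb
  have i3 : IntegrableOn (fun u => GG κ T u * (‖BB φ k (T / κ) (u * T)‖ ^ 2 / Real.log T ^ q)) (Ioi 0) := by
    refine ((G_int hPL hID h k hκ t5 t4 hT0).div_const (Real.log T ^ q)).congr (Eventually.of_forall fun u => ?_)
    simp only
    ring
  rw [Real.dist_eq, sub_zero, ← integral_sub i1 i3]
  have hb : ‖∫ u in Ioi (0:ℝ), (GG κ T u * ff φ k T u -
      GG κ T u * (‖BB φ k (T / κ) (u * T)‖ ^ 2 / Real.log T ^ q))‖ ≤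
      ∫ u in Ioi (0:ℝ), (2 * ε * (GG κ T u * ff φ k T u) + (3 + 1 / ε) * (GG κ T u * d u)) := by
    refine norm_integral_le_of_norm_le ((i1.const_mul _).add (i2.const_mul _)) (Eventually.of_forall fun u => ?_)
    rw [← mul_sub, norm_mul, Real.norm_of_nonneg (GG_nonneg κ T u), Real.norm_eq_abs]
    have h1 := sq_cmp (BB φ k (T / κ) (u * T)) (BB φ k T (u * T)) hε0 hε1
    have h2 : |ff φ k T u - ‖BB φ k (T / κ) (u * T)‖ ^ 2 / Real.log T ^ q| ≤
        2 * ε * ff φ k T u + (3 + 1 / ε) * d u := by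
      have e1 : ff φ k T u = ‖BB φ k T (u * T)‖ ^ 2 / Real.log T ^ q := by simp only [ff, if_pos t3, hq]
      rw [e1, ← sub_div, abs_div, abs_of_pos hLq, abs_sub_comm]
      simp only [hd]
      rw [div_le_iff₀ hLq]
      refine h1.trans (le_of_eq ?_)
      field_simp
    calc GG κ T u * |ff φ k T u - ‖BB φ k (T / κ) (u * T)‖ ^ 2 / Real.log T ^ q|
        ≤ GG κ T u * (2 * ε * ff φ k T u + (3 + 1 / ε) * d u) := mul_le_mul_of_nonneg_left h2 (GG_nonneg κ T u)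
      _ = _ := by ring
  rw [integral_add (i1.const_mul _) (i2.const_mul _), integral_const_mul, integral_const_mul] at hb
  have n1 := (le_abs_self _).trans b1
  have n2 := (le_abs_self _).trans b2
  have m1 : 2 * ε * ∫ u in Ioi (0:ℝ), GG κ T u * ff φ k T u ≤ 2 * ε * (K * C' * G0) := by gcongr
  have m2 : (3 + 1 / ε) * ∫ u in Ioi (0:ℝ), GG κ T u * d u ≤ (3 + 1 / ε) * (K * (C * (1 / Real.log T) ^ 2) * G0) := by
    gcongr
  rw [Real.norm_eq_abs] at hb
  linarith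

/-- **the converse half** -/
theorem converse (hPL : S_PL) (hID : S_ID) (hKB : S_KB) (hMID : S_MID) (hKP : S_KP) (hBD : S_BD) (hCM : S_CM)
    (hTL : S_TL) (hk : 2 ≤ k) (h : TS φ) (hr : ∀ x, conj (φ x) = φ x)
    (hφ : ∀ x ∈ Icc (1:ℝ) (k - 1), ‖φ x‖ ^ 2 + ‖φ (k - x)‖ ^ 2 = 1) {c : ℝ}
    (hV : Tendsto (fun T => Va φ k T / Real.log T ^ (k ^ 2)) atTop (𝓝 (c / 2 + Jc φ k))) :
    Tendsto (fun T => M (zr k 0) T / NN (k ^ 2) T) atTop (𝓝 c) := by
  set S := c / 2 + Jc φ k with hS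
  have hLq : ∀ᶠ T : ℝ in atTop, 0 < Real.log T ^ (k ^ 2) := by
    filter_upwards [eventually_gt_atTop 1] with T hT
    have := Real.log_pos hT
    positivity
  obtain ⟨C0, hM⟩ := mom_bdd hPL hID hKB hMID hk h hr hφ (ev_le hV hLq)
  obtain ⟨⟨C, hC, hg⟩, hs⟩ := ff_growth hMID h k hM
  have lim : ∀ κ : ℝ, 0 < κ → Tendsto (fun T => ∫ u in Ioi (0:ℝ), 4 * Real.sin (κ * u / 2) ^ 2 / u ^ 2 * ff φ k T u) atTop
      (𝓝 (Real.pi * κ * S)) := by
    intro κ hκ
    have h1 := all_kernels hPL hID hKB hMID hKP hBD h hr hM hV hκ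
    set C' : ℝ := max C (κ ^ 2 + 9) with hC'
    have hle : κ ^ 2 + 9 ≤ C' := le_max_right _ _
    have hg' : ∀ᶠ T : ℝ in atTop, ∀ x : ℝ, 1 ≤ x → ∫ u in (0:ℝ)..x, ff φ k T u ≤ C' * x ^ (3 / 2 : ℝ) := by
      filter_upwards [hg] with T hT x hx
      refine (hT x hx).trans ?_
      have : 0 ≤ x ^ (3 / 2 : ℝ) := by positivity
      exact mul_le_mul_of_nonneg_right (le_max_left _ _) this
    obtain ⟨-, h2⟩ := hCM (ff φ k) (GG κ) (gg κ) C' (ff_cont hMID h k) (ff_nonneg φ k)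
      (fun T => (GG_cont hKB hκ T).continuousOn) (gg_cont κ) hg' hs
      (Eventually.of_forall fun T u hu => ⟨(GG_bd hKB hκ T u hu).1.trans hle, (GG_bd hKB hκ T u hu).2.trans hle⟩)
      (fun u hu => ⟨(gg_bd κ u hu).1.trans hle, (gg_bd κ u hu).2.trans hle⟩) (GG_gg hKB hκ)
    have h3 := h1.sub h2
    rw [sub_zero] at h3
    refine h3.congr fun T => ?_
    simp only [gg]
    ring
  have h4 := hTL (ff φ k) S C (ff_cont hMID h k) (ff_nonneg φ k) hg lim 1 2 one_pos (by norm_num)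
  have h5 : Tendsto (fun T => (∫ t in (1 * T)..(2 * T), ‖BB φ k T t‖ ^ 2) / NN (k ^ 2) T) atTop (𝓝 S) := by
    rw [show S * (2 - 1) = S by ring] at h4
    refine h4.congr' ?_
    filter_upwards [eventually_ge_atTop (Real.exp 1)] with T hT
    exact ff_window φ k hT 1 2
  have h6 := (close_window hMID h k (a := 1) (b := 2) one_pos (by norm_num) S).2 h5
  rw [half_iff hk h hφ c]
  refine h6.congr fun T => ?_
  unfold mD
  rw [one_mul]

/-- **the equivalence** -/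
theorem equiv (hPL : S_PL) (hID : S_ID) (hKB : S_KB) (hMID : S_MID) (hKP : S_KP) (hBD : S_BD) (hCM : S_CM)
    (hAB : S_AB) (hTL : S_TL) (hSIN : S_SIN) (hk : 2 ≤ k) (h : TS φ) (hr : ∀ x, conj (φ x) = φ x)
    (hφ : ∀ x ∈ Icc (1:ℝ) (k - 1), ‖φ x‖ ^ 2 + ‖φ (k - x)‖ ^ 2 = 1) (c : ℝ) :
    Tendsto (fun T => M (zr k 0) T / NN (k ^ 2) T) atTop (𝓝 c) ↔
    Tendsto (fun T => Va φ k T / Real.log T ^ (k ^ 2)) atTop (𝓝 (c / 2 + Jc φ k)) :=
  ⟨fun hM => direct hPL hID hKB hMID hCM hAB hSIN hk h hr hφ hM,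
    fun hV => converse hPL hID hKB hMID hKP hBD hCM hTL hk h hr hφ hV⟩

end

end Pool.Agent.K4H49.SV
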