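import Pool.Agent.K4H49.SV.A1

set_option autoImplicit false

/-! The cut-off outside the sum: bounds for the coefficients and the main term. -/

namespace Pool.Agent.K4H49.SV

open Complex MeasureTheory Filter Topology Set Metric
open Pool.Agent.K4H66.HL Pool.Agent.K4H66.OL
open scoped ComplexConjugate

noncomputable section

variable {φ : ℝ → ℂ} {k : ℕ}

lemma rpow_le_add {y u r : ℝ} (hy : 0 < y) (hu : |u| ≤ r) : y ^ u ≤ y ^ r + y ^ (-r) := by
  rw [abs_le] at hu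
  rcases le_total 1 y with h | h
  · have h1 : y ^ u ≤ y ^ r := Real.rpow_le_rpow_of_exponent_le h hu.2
    have h2 : 0 ≤ y ^ (-r) := by positivity
    linarith
  · have h1 : y ^ u ≤ y ^ (-r) := Real.rpow_le_rpow_of_exponent_ge hy h hu.1
    have h2 : 0 ≤ y ^ r := by positivity
    linarith

lemma res_circle (k : ℕ) {r : ℝ} (hr : 0 < r) (hr1 : r ≤ 1 / 4) {y : ℝ} (hy : 0 < y) :
    res k y = (2 * Real.pi * I)⁻¹ * ∮ s in C(1, r), riemannZeta s ^ k * (y : ℂ) ^ (s - 1) := by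
  unfold res
  congr 1
  have hy0 : (y : ℂ) ≠ 0 := by exact_mod_cast hy.ne'
  have hd : ∀ z : ℂ, z ≠ 1 → DifferentiableAt ℂ (fun s : ℂ => riemannZeta s ^ k * (y : ℂ) ^ (s - 1)) z := by
    intro z hz
    refine ((differentiableAt_riemannZeta hz).pow k).mul ?_
    exact (differentiableAt_id.sub_const 1).const_cpow (Or.inl hy0)
  refine Complex.circleIntegral_eq_of_differentiable_on_annulus_off_countable hr hr1 countable_empty ?_ ?_
  · intro z hz
    refine (hd z ?_).continuousAt.continuousWithinAt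
    rintro rfl
    exact hz.2 (mem_ball_self hr)
  · intro z hz
    refine hd z ?_
    rintro rfl
    exact hz.1.2 (mem_closedBall_self hr.le)

lemma res_bd (k : ℕ) {r : ℝ} (hr : 0 < r) (hr1 : r ≤ 1 / 4) : ∃ C : ℝ, 0 ≤ C ∧ ∀ y : ℝ, 0 < y →
    ‖res k y‖ ≤ C * (y ^ r + y ^ (-r)) := by
  have hc : ContinuousOn (fun s : ℂ => riemannZeta s ^ k) (sphere 1 r) := by
    intro z hz
    refine ((differentiableAt_riemannZeta ?_).pow k).continuousAt.continuousWithinAt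
    rintro rfl
    rw [mem_sphere, dist_self] at hz
    exact hr.ne hz
  obtain ⟨B, hB⟩ := (isCompact_sphere (1:ℂ) r).exists_bound_of_continuousOn hc
  have hB0 : 0 ≤ B := by
    have h1 : (1 + r : ℂ) ∈ sphere (1:ℂ) r := by
      rw [mem_sphere, dist_eq_norm, add_sub_cancel_left, Complex.norm_real, Real.norm_of_nonneg hr.le]
    exact (norm_nonneg _).trans (hB _ h1)
  refine ⟨r * B, by positivity, fun y hy => ?_⟩
  rw [res_circle k hr hr1 hy, norm_mul, norm_inv]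
  have h1 : ‖∮ s in C(1, r), riemannZeta s ^ k * (y : ℂ) ^ (s - 1)‖ ≤ 2 * Real.pi * r * (B * (y ^ r + y ^ (-r))) := by
    refine circleIntegral.norm_integral_le_of_norm_le_const hr.le fun z hz => ?_
    rw [norm_mul]
    refine mul_le_mul (hB z hz) ?_ (norm_nonneg _) hB0
    rw [Complex.norm_cpow_eq_rpow_re_of_pos hy]
    refine rpow_le_add hy ?_
    rw [mem_sphere, dist_eq_norm] at hz
    exact (Complex.abs_re_le_norm _).trans hz.le
  have h2 : ‖(2 * Real.pi * I : ℂ)‖ = 2 * Real.pi := by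
    rw [norm_mul, norm_mul, Complex.norm_I, Complex.norm_real, Real.norm_of_nonneg Real.pi_pos.le]
    simp
  rw [h2]
  have hpi := Real.pi_pos
  calc (2 * Real.pi)⁻¹ * ‖∮ s in C(1, r), riemannZeta s ^ k * (y : ℂ) ^ (s - 1)‖
      ≤ (2 * Real.pi)⁻¹ * (2 * Real.pi * r * (B * (y ^ r + y ^ (-r)))) := by gcongr
    _ = _ := by field_simp

lemma dk_bd (k : ℕ) {r : ℝ} (hr : 0 < r) : ∃ D : ℝ, 0 ≤ D ∧ ∀ n : ℕ, (W182.KO.dk k n : ℝ) ≤ D * (n : ℝ) ^ r := by
  obtain ⟨D, hD, h⟩ := W182.KO.tau_ptw k hr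
  refine ⟨D, hD, fun n => ?_⟩
  have h1 := h (fun _ => 0) n
  have h2 : (fun j : Fin k => (-(((fun _ : Fin k => (0:ℝ)) j : ℝ) * I) : ℂ)) = fun _ => 0 := by
    funext j; simp
  rw [h2, W182.KO.tau_dk] at h1
  simpa using h1

/-- the error term of the sum of `d_k(n)` over `x < n ≤ x + h` -/
def ET (k : ℕ) (x h : ℝ) : ℂ :=
  ∑ n ∈ Finset.Ioc ⌊x⌋₊ ⌊x + h⌋₊, (W182.KO.dk k n : ℂ) - ∫ y in x..(x + h), res k y

/-- the variance with the cut-off outside -/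
def Vo (φ : ℝ → ℂ) (k : ℕ) (T : ℝ) : ℝ :=
  T * ∫ x in Ioi (0 : ℝ), ‖φ (Real.log x / Real.log T)‖ ^ 2 * ‖ET k x (x / T)‖ ^ 2 / x ^ 2

lemma mem_Ioc_floor {x h : ℝ} (hx : 0 ≤ x) (hh : 0 ≤ h) (n : ℕ) :
    n ∈ Finset.Ioc ⌊x⌋₊ ⌊x + h⌋₊ ↔ x < n ∧ (n : ℝ) ≤ x + h := by
  rw [Finset.mem_Ioc, Nat.floor_lt hx, Nat.le_floor_iff (by linarith)]

/-- sums over the interval -/
lemma sum_Ioc_eq {x h : ℝ} (hx : 0 ≤ x) (hh : 0 ≤ h) (a : ℕ → ℂ) {N : ℕ} (hN : ∀ n : ℕ, (n:ℝ) ≤ x + h → N ≤ n → a n = 0) :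
    ∑ n ∈ Finset.Ioc ⌊x⌋₊ ⌊x + h⌋₊, a n = ∑ n ∈ Finset.range N, (if x < n ∧ (n : ℝ) ≤ x + h then a n else 0) := by
  rw [← Finset.sum_filter]
  refine (Finset.sum_subset ?_ ?_).symm
  · intro n hn
    rw [Finset.mem_filter] at hn
    exact (mem_Ioc_floor hx hh n).2 hn.2
  · intro n hn hn2
    have h1 := (mem_Ioc_floor hx hh n).1 hn
    rw [Finset.mem_filter, not_and] at hn2
    refine hN n h1.2 ?_
    by_contra h3
    push Not at h3
    exact hn2 (Finset.mem_range.2 h3) h1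

end

end Pool.Agent.K4H49.SV
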