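import Pool.Agent.K4H49.SV.B1

set_option autoImplicit false

/-! The cut-off outside the sum: integrability and the pointwise bound. -/

namespace Pool.Agent.K4H49.SV

open Complex MeasureTheory Filter Topology Set Metric
open Pool.Agent.K4H66.HL Pool.Agent.K4H66.OL
open scoped ComplexConjugate

noncomputable section

variable {φ : ℝ → ℂ} {k : ℕ}

lemma gen_int {N : ℕ} {a : ℕ → ℂ} {m w F : ℝ → ℂ} (hm : Continuous m) (hw : Measurable w) {W : ℝ}
    (hW : ∀ x, ‖w x‖ ≤ W) {h : ℝ} (hh : 0 < h) {c0 C0 : ℝ} (hc0 : 0 < c0)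
    (hF : ∀ x : ℝ, 0 < x → F x = w x * (∑ n ∈ Finset.range N, (if x < n ∧ (n : ℝ) ≤ (1 + h) * x then a n else 0) -
      ∫ y in x..((1 + h) * x), m y))
    (h0 : ∀ x : ℝ, 0 < x → (x < c0 ∨ C0 < x) → F x = 0) :
    IntegrableOn (fun x => ‖F x‖ ^ 2 / x ^ 2) (Ioi 0) := by
  obtain ⟨K, hK⟩ := (isCompact_Icc (a := (0:ℝ)) (b := (1 + h) * |C0|)).exists_bound_of_continuousOn hm.continuousOn
  have hK0 : 0 ≤ K := (norm_nonneg _).trans (hK 0 ⟨le_rfl, by positivity⟩)
  have hW0 : 0 ≤ W := (norm_nonneg _).trans (hW 0)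
  have hGm : Measurable (fun x : ℝ => w x * (∑ n ∈ Finset.range N, (if x < n ∧ (n : ℝ) ≤ (1 + h) * x then a n else 0) -
      ∫ y in x..((1 + h) * x), m y)) := by
    refine hw.mul (Measurable.sub ?_ ?_)
    · refine Finset.measurable_sum _ fun n _ => ?_
      refine Measurable.ite ?_ measurable_const measurable_const
      exact (measurableSet_lt measurable_id measurable_const).inter
        (measurableSet_le measurable_const (measurable_id.const_mul _))
    · have h1 : Continuous (fun x : ℝ => ∫ y in (0:ℝ)..x, m y) :=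
        intervalIntegral.continuous_primitive (fun a b => hm.intervalIntegrable a b) 0
      have h2 : (fun x : ℝ => ∫ y in x..((1 + h) * x), m y) =
          fun x => (∫ y in (0:ℝ)..((1 + h) * x), m y) - ∫ y in (0:ℝ)..x, m y := by
        funext x
        rw [intervalIntegral.integral_interval_sub_left (hm.intervalIntegrable _ _) (hm.intervalIntegrable _ _)]
      rw [h2]
      exact ((h1.comp (continuous_const.mul continuous_id)).sub h1).measurable
  set B : ℝ := W * ((∑ n ∈ Finset.range N, ‖a n‖) + K * (h * |C0|)) with hB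
  have hB0 : 0 ≤ B := by
    have : 0 ≤ ∑ n ∈ Finset.range N, ‖a n‖ := Finset.sum_nonneg fun _ _ => norm_nonneg _
    positivity
  have hb : ∀ x : ℝ, 0 < x → x ∈ Icc c0 C0 → ‖F x‖ ≤ B := by
    intro x hx hx2
    have hxC : x ≤ |C0| := hx2.2.trans (le_abs_self _)
    rw [hF x hx, norm_mul]
    refine mul_le_mul (hW x) ?_ (norm_nonneg _) hW0
    refine (norm_sub_le _ _).trans (add_le_add ?_ ?_)
    · refine (norm_sum_le _ _).trans (Finset.sum_le_sum fun n _ => ?_)
      split_ifs
      · exact le_rfl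
      · rw [norm_zero]; exact norm_nonneg _
    · have h1 : ‖∫ y in x..((1 + h) * x), m y‖ ≤ K * |(1 + h) * x - x| := by
        refine intervalIntegral.norm_integral_le_of_norm_le_const fun y hy => ?_
        rw [uIoc_of_le (by nlinarith)] at hy
        exact hK y ⟨hx.le.trans hy.1.le, hy.2.trans (by gcongr)⟩
      refine h1.trans ?_
      rw [show (1 + h) * x - x = h * x by ring, abs_of_pos (by positivity)]
      gcongr
  refine Integrable.mono' (g := (Icc c0 C0).indicator fun _ => B ^ 2 / c0 ^ 2) ?_ ?_ ?_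
  · refine Integrable.integrableOn ?_
    rw [integrable_indicator_iff measurableSet_Icc]
    exact integrableOn_const (by rw [Real.volume_Icc]; exact ENNReal.ofReal_ne_top)
  · have h1 : AEStronglyMeasurable F (volume.restrict (Ioi (0:ℝ))) := by
      refine hGm.aestronglyMeasurable.congr ?_
      filter_upwards [ae_restrict_mem measurableSet_Ioi] with x hx
      exact (hF x hx).symm
    exact ((h1.norm.aemeasurable.pow_const 2).div (measurable_id.pow_const 2).aemeasurable).aestronglyMeasurable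
  · filter_upwards [ae_restrict_mem measurableSet_Ioi] with x hx
    have hx0 : (0:ℝ) < x := hx
    rw [Real.norm_of_nonneg (by positivity)]
    by_cases hx2 : x ∈ Icc c0 C0
    · rw [indicator_of_mem hx2]
      have h1 := hb x hx0 hx2
      have h2 := hx2.1
      gcongr
    · rw [indicator_of_notMem hx2]
      have h1 : x < c0 ∨ C0 < x := by
        by_contra h3
        push Not at h3
        exact hx2 ⟨h3.1, h3.2⟩
      rw [h0 x hx0 h1]
      simp

/-- vanishing of the cut-off -/
lemma phi_zero (h : TS φ) : ∃ R : ℝ, 0 < R ∧ ∀ ξ : ℝ, R ≤ |ξ| → φ ξ = 0 := by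
  obtain ⟨R, hR⟩ := h.cs.isCompact.isBounded.subset_closedBall 0
  refine ⟨|R| + 1, by positivity, fun ξ hξ => ?_⟩
  by_contra hne
  have h1 : ξ ∈ tsupport φ := subset_tsupport _ hne
  have h2 := hR h1
  rw [Metric.mem_closedBall, dist_zero_right, Real.norm_eq_abs] at h2
  linarith [le_abs_self R]

lemma phi_lip (h : TS φ) : ∃ Λ : ℝ, 0 ≤ Λ ∧ ∀ x y : ℝ, ‖φ x - φ y‖ ≤ Λ * |x - y| := by
  obtain ⟨C, hC⟩ := ContDiff.lipschitzWith_of_hasCompactSupport h.cs h.cd (by simp)
  refine ⟨C, C.2, fun x y => ?_⟩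
  have := hC.dist_le_mul x y
  rwa [dist_eq_norm, Real.dist_eq] at this

lemma res_cOn (k : ℕ) : ContinuousOn (res k) (Ioi 0) := by
  intro y hy
  have hy0 : (0:ℝ) < y := hy
  have h1 := (res_cont k (half_pos hy0)).continuousAt (x := y)
  refine (h1.congr ?_).continuousWithinAt
  filter_upwards [lt_mem_nhds (half_lt_self hy0)] with z hz
  rw [max_eq_left (show y / 2 ≤ z from le_of_lt hz)]

lemma log_close {T x y : ℝ} (hT : Real.exp 1 ≤ T) (hx : 0 < x) (hxy : x ≤ y) (hy : y ≤ x + x / T) :
    |Real.log y / Real.log T - Real.log x / Real.log T| ≤ 1 / T := by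
  have hT0 : 0 < T := (Real.exp_pos 1).trans_le hT
  have hL : 1 ≤ Real.log T := by rwa [Real.le_log_iff_exp_le hT0]
  have hy0 : 0 < y := hx.trans_le hxy
  rw [← sub_div, ← Real.log_div hy0.ne' hx.ne']
  have h1 : 1 ≤ y / x := by rwa [le_div_iff₀ hx, one_mul]
  have h2 : 0 ≤ Real.log (y / x) := Real.log_nonneg h1
  have h3 : Real.log (y / x) ≤ y / x - 1 := Real.log_le_sub_one_of_pos (by positivity)
  have h4 : y / x - 1 ≤ 1 / T := by
    rw [sub_le_iff_le_add, div_le_iff₀ hx]
    calc y ≤ x + x / T := hy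
      _ = (1 / T + 1) * x := by ring
  rw [abs_of_nonneg (by positivity)]
  calc Real.log (y / x) / Real.log T ≤ Real.log (y / x) := div_le_self h2 hL
    _ ≤ _ := h3.trans h4

/-- the difference -/
lemma dev_sub (h : TS φ) (k : ℕ) {T x : ℝ} (hT : Real.exp 1 ≤ T) (hx : 0 < x) :
    dev φ k T (1 / T) x - φ (Real.log x / Real.log T) * ET k x (x / T) =
      ∑ n ∈ Finset.Ioc ⌊x⌋₊ ⌊x + x / T⌋₊, (W182.KO.dk k n : ℂ) *
        (φ (Real.log n / Real.log T) - φ (Real.log x / Real.log T)) -
      ∫ y in x..(x + x / T), res k y * (φ (Real.log y / Real.log T) - φ (Real.log x / Real.log T)) := by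
  have hT0 : 0 < T := (Real.exp_pos 1).trans_le hT
  have hxT : 0 < x / T := by positivity
  have e0 : (1 + 1 / T) * x = x + x / T := by ring
  unfold dev ET
  rw [e0]
  have e1 : ∑' n : ℕ, (if x < n ∧ (n : ℝ) ≤ x + x / T then
      (W182.KO.dk k n : ℂ) * φ (Real.log n / Real.log T) else 0) =
      ∑ n ∈ Finset.Ioc ⌊x⌋₊ ⌊x + x / T⌋₊, (W182.KO.dk k n : ℂ) * φ (Real.log n / Real.log T) := by
    rw [tsum_eq_sum (s := Finset.Ioc ⌊x⌋₊ ⌊x + x / T⌋₊)]
    · refine Finset.sum_congr rfl fun n hn => ?_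
      rw [if_pos ((mem_Ioc_floor hx.le hxT.le n).1 hn)]
    · intro n hn
      rw [if_neg (fun h3 => hn ((mem_Ioc_floor hx.le hxT.le n).2 h3))]
  have hsub : uIcc x (x + x / T) ⊆ Ioi 0 := by
    rw [uIcc_of_le (by linarith)]
    intro y hy
    exact lt_of_lt_of_le hx hy.1
  have i1 : IntervalIntegrable (fun y => res k y * φ (Real.log y / Real.log T)) volume x (x + x / T) := by
    refine ContinuousOn.intervalIntegrable (((res_cOn k).mono hsub).mul ?_)
    refine h.cd.continuous.comp_continuousOn (ContinuousOn.div_const ?_ _)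
    exact Real.continuousOn_log.mono fun y hy => (ne_of_gt (hsub hy) : y ≠ 0)
  have i2 : IntervalIntegrable (fun y => res k y * φ (Real.log x / Real.log T)) volume x (x + x / T) :=
    ContinuousOn.intervalIntegrable (((res_cOn k).mono hsub).mul continuousOn_const)
  have e2 : ∫ y in x..(x + x / T), res k y * (φ (Real.log y / Real.log T) - φ (Real.log x / Real.log T)) =
      (∫ y in x..(x + x / T), res k y * φ (Real.log y / Real.log T)) -
        (∫ y in x..(x + x / T), res k y) * φ (Real.log x / Real.log T) := by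
    rw [← intervalIntegral.integral_mul_const, ← intervalIntegral.integral_sub i1 i2]
    refine intervalIntegral.integral_congr fun y _ => ?_
    ring
  rw [e1, e2]
  simp_rw [mul_sub]
  rw [Finset.sum_sub_distrib, ← Finset.sum_mul]
  ring

end

end Pool.Agent.K4H49.SV
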