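import Pool.Agent.K4H49.SV.B2

set_option autoImplicit false

/-! The cut-off outside the sum: the dominating function. -/

namespace Pool.Agent.K4H49.SV

open Complex MeasureTheory Filter Topology Set Metric
open Pool.Agent.K4H66.HL Pool.Agent.K4H66.OL
open scoped ComplexConjugate

noncomputable section

variable {φ : ℝ → ℂ} {k : ℕ}

/-- the difference of the deviations with the cut-off inside and outside -/
def DD (φ : ℝ → ℂ) (k : ℕ) (T x : ℝ) : ℂ :=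
  dev φ k T (1 / T) x - φ (Real.log x / Real.log T) * ET k x (x / T)

lemma DD_zero (h : TS φ) (k : ℕ) {b : ℝ} (hb : ∀ ξ, b ≤ ξ → φ ξ = 0) {T x : ℝ} (hT : Real.exp 1 ≤ T)
    (hx : T ^ b ≤ x) : DD φ k T x = 0 := by
  have hT0 : 0 < T := (Real.exp_pos 1).trans_le hT
  have hL : 1 ≤ Real.log T := by rwa [Real.le_log_iff_exp_le hT0]
  have hTb : 0 < T ^ b := Real.rpow_pos_of_pos hT0 b
  have hx0 : 0 < x := hTb.trans_le hx
  have hz : ∀ y : ℝ, x ≤ y → φ (Real.log y / Real.log T) = 0 := by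
    intro y hy
    apply hb
    rw [le_div_iff₀ (by linarith), ← Real.log_rpow hT0]
    exact Real.log_le_log hTb (hx.trans hy)
  unfold DD
  rw [dev_sub h k hT hx0]
  have e1 : ∑ n ∈ Finset.Ioc ⌊x⌋₊ ⌊x + x / T⌋₊, (W182.KO.dk k n : ℂ) *
        (φ (Real.log n / Real.log T) - φ (Real.log x / Real.log T)) = 0 := by
    refine Finset.sum_eq_zero fun n hn => ?_
    rw [hz n ((mem_Ioc_floor hx0.le (by positivity) n).1 hn).1.le, hz x le_rfl, sub_zero, mul_zero]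
  have e2 : ∫ y in x..(x + x / T), res k y * (φ (Real.log y / Real.log T) - φ (Real.log x / Real.log T)) = 0 := by
    rw [intervalIntegral.integral_congr (g := fun _ => 0)]
    · simp
    · intro y hy
      rw [uIcc_of_le (by have : 0 < x / T := by positivity
                         linarith)] at hy
      simp only
      rw [hz y hy.1, hz x le_rfl, sub_zero, mul_zero]
  rw [e1, e2, sub_zero]

/-- the general bound -/
lemma DD_le (h : TS φ) (k : ℕ) : ∃ Λ : ℝ, 0 ≤ Λ ∧ ∀ T x P : ℝ, Real.exp 1 ≤ T → 0 < x →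
    (∀ y ∈ Icc x (2 * x), ‖res k y‖ ≤ P) →
    ‖DD φ k T x‖ ≤ Λ / T * (∑ n ∈ Finset.Ioc ⌊x⌋₊ ⌊x + x / T⌋₊, (W182.KO.dk k n : ℝ) + P * (x / T)) := by
  obtain ⟨Λ, hΛ, hl⟩ := phi_lip h
  refine ⟨Λ, hΛ, fun T x P hT hx hP => ?_⟩
  have hT0 : 0 < T := (Real.exp_pos 1).trans_le hT
  have hT1 : 1 ≤ T := by have := Real.add_one_le_exp 1; linarith
  have hxT : 0 < x / T := by positivity
  have hxT2 : x / T ≤ x := div_le_self hx.le hT1
  have hl2 : ∀ y : ℝ, x ≤ y → y ≤ x + x / T → ‖φ (Real.log y / Real.log T) - φ (Real.log x / Real.log T)‖ ≤ Λ / T := by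
    intro y h1 h2
    refine (hl _ _).trans ?_
    calc Λ * |Real.log y / Real.log T - Real.log x / Real.log T| ≤ Λ * (1 / T) := by
          gcongr; exact log_close hT hx h1 h2
      _ = Λ / T := by ring
  unfold DD
  rw [dev_sub h k hT hx, mul_add, Finset.mul_sum]
  refine (norm_sub_le _ _).trans (add_le_add ?_ ?_)
  · refine (norm_sum_le _ _).trans (Finset.sum_le_sum fun n hn => ?_)
    obtain ⟨h1, h2⟩ := (mem_Ioc_floor hx.le hxT.le n).1 hn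
    rw [norm_mul, Complex.norm_natCast, mul_comm]
    exact mul_le_mul_of_nonneg_right (hl2 n h1.le h2) (Nat.cast_nonneg _)
  · have h3 : ‖∫ y in x..(x + x / T), res k y * (φ (Real.log y / Real.log T) - φ (Real.log x / Real.log T))‖ ≤
        (P * (Λ / T)) * |x + x / T - x| := by
      refine intervalIntegral.norm_integral_le_of_norm_le_const fun y hy => ?_
      rw [uIoc_of_le (by linarith)] at hy
      rw [norm_mul]
      have h4 := hP y ⟨hy.1.le, by linarith [hy.2]⟩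
      exact mul_le_mul h4 (hl2 y hy.1.le hy.2) (norm_nonneg _) ((norm_nonneg _).trans h4)
    refine h3.trans (le_of_eq ?_)
    rw [add_sub_cancel_left, abs_of_pos hxT]
    ring

lemma DD_small (h : TS φ) (k : ℕ) : ∃ K : ℝ, 0 ≤ K ∧ ∀ T x : ℝ, Real.exp 1 ≤ T → 0 < x → x ≤ 1 / 2 →
    ‖DD φ k T x‖ ^ 2 / x ^ 2 ≤ K / T ^ 4 * x ^ (-(1 / 2) : ℝ) := by
  obtain ⟨Λ, hΛ, h1⟩ := DD_le h k
  obtain ⟨C, hC, h2⟩ := res_bd k (r := 1 / 4) (by norm_num) le_rfl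
  refine ⟨4 * Λ ^ 2 * C ^ 2, by positivity, fun T x hT hx hx2 => ?_⟩
  have hT0 : 0 < T := (Real.exp_pos 1).trans_le hT
  have hT1 : 1 < T := by have := Real.add_one_lt_exp one_ne_zero; linarith
  have hw : 1 ≤ x ^ (-(1 / 4) : ℝ) := Real.one_le_rpow_of_pos_of_le_one_of_nonpos hx (by linarith) (by norm_num)
  have h3 := h1 T x (2 * C * x ^ (-(1 / 4) : ℝ)) hT hx (fun y hy => by
    have hy0 : 0 < y := hx.trans_le hy.1
    refine (h2 y hy0).trans ?_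
    have a1 : y ^ (1 / 4 : ℝ) ≤ 1 := Real.rpow_le_one hy0.le (by linarith [hy.2]) (by norm_num)
    have a2 : y ^ (-(1 / 4) : ℝ) ≤ x ^ (-(1 / 4) : ℝ) := Real.rpow_le_rpow_of_nonpos hx hy.1 (by norm_num)
    calc C * (y ^ (1 / 4 : ℝ) + y ^ (-(1 / 4) : ℝ)) ≤ C * (x ^ (-(1 / 4) : ℝ) + x ^ (-(1 / 4) : ℝ)) := by
          gcongr; linarith
      _ = _ := by ring)
  have h4 : Finset.Ioc ⌊x⌋₊ ⌊x + x / T⌋₊ = ∅ := by
    rw [Finset.eq_empty_iff_forall_notMem]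
    intro n hn
    obtain ⟨a1, a2⟩ := (mem_Ioc_floor hx.le (by positivity) n).1 hn
    have a3 : x / T < x := div_lt_self hx hT1
    have a4 : (n:ℝ) < 1 := by linarith
    have a5 : n = 0 := by
      have : n < 1 := by exact_mod_cast a4
      omega
    rw [a5] at a1
    push_cast at a1
    linarith
  rw [h4, Finset.sum_empty, zero_add] at h3
  have h5 : ‖DD φ k T x‖ ^ 2 ≤ (Λ / T * (2 * C * x ^ (-(1 / 4) : ℝ) * (x / T))) ^ 2 :=
    pow_le_pow_left₀ (norm_nonneg _) h3 2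
  have h6 : (x ^ (-(1 / 4) : ℝ)) ^ 2 = x ^ (-(1 / 2) : ℝ) := by
    rw [← Real.rpow_natCast, ← Real.rpow_mul hx.le]
    norm_num
  rw [div_le_iff₀ (by positivity)]
  refine h5.trans (le_of_eq ?_)
  rw [← h6]
  field_simp
  ring

lemma DD_big (h : TS φ) (k : ℕ) {r : ℝ} (hr : 0 < r) (hr1 : r ≤ 1 / 4) : ∃ K : ℝ, 0 ≤ K ∧ ∀ T x : ℝ,
    Real.exp 1 ≤ T → 1 / 2 < x → ‖DD φ k T x‖ ^ 2 / x ^ 2 ≤ K / T ^ 2 * x ^ (2 * r) * (1 / T ^ 2 + x ^ (-2 : ℝ)) := by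
  obtain ⟨Λ, hΛ, h1⟩ := DD_le h k
  obtain ⟨C, hC, h2⟩ := res_bd k hr hr1
  obtain ⟨D, hD, h3⟩ := dk_bd k hr
  refine ⟨4 * Λ ^ 2 * (D + 3 * C) ^ 2, by positivity, fun T x hT hx2 => ?_⟩
  have hT0 : 0 < T := (Real.exp_pos 1).trans_le hT
  have hT1 : 1 < T := by have := Real.add_one_lt_exp one_ne_zero; linarith
  have hx : 0 < x := by linarith
  have hxT : 0 < x / T := by positivity
  have hxT2 : x / T ≤ x := div_le_self hx.le hT1.le
  set w : ℝ := (2 * x) ^ r with hw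
  have hw1 : 1 ≤ w := Real.one_le_rpow (by linarith) hr.le
  have h4 := h1 T x (3 * C * w) hT hx (fun y hy => by
    have hy0 : 0 < y := hx.trans_le hy.1
    refine (h2 y hy0).trans ?_
    have a1 : y ^ r ≤ w := Real.rpow_le_rpow hy0.le hy.2 hr.le
    have a2 : y ^ (-r) ≤ 2 := by
      calc y ^ (-r) ≤ (1 / 2 : ℝ) ^ (-r) := Real.rpow_le_rpow_of_nonpos (by norm_num) (by linarith [hy.1]) (by linarith)
        _ = 2 ^ r := by rw [one_div, Real.inv_rpow (by norm_num), Real.rpow_neg (by norm_num), inv_inv]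
        _ ≤ 2 ^ (1:ℝ) := Real.rpow_le_rpow_of_exponent_le (by norm_num) (by linarith)
        _ = 2 := Real.rpow_one 2
    calc C * (y ^ r + y ^ (-r)) ≤ C * (w + 2 * w) := by gcongr; linarith
      _ = _ := by ring)
  have h5 : ∑ n ∈ Finset.Ioc ⌊x⌋₊ ⌊x + x / T⌋₊, (W182.KO.dk k n : ℝ) ≤ (x / T + 1) * (D * w) := by
    have a1 : ∑ n ∈ Finset.Ioc ⌊x⌋₊ ⌊x + x / T⌋₊, (W182.KO.dk k n : ℝ) ≤
        ∑ n ∈ Finset.Ioc ⌊x⌋₊ ⌊x + x / T⌋₊, D * w := by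
      refine Finset.sum_le_sum fun n hn => ?_
      obtain ⟨b1, b2⟩ := (mem_Ioc_floor hx.le hxT.le n).1 hn
      refine (h3 n).trans ?_
      have b3 : (n:ℝ) ≤ 2 * x := by linarith
      refine mul_le_mul_of_nonneg_left ?_ hD
      rw [hw]
      exact Real.rpow_le_rpow (by positivity) b3 hr.le
    refine a1.trans ?_
    rw [Finset.sum_const, nsmul_eq_mul, Nat.card_Ioc]
    have a2 : ⌊x⌋₊ ≤ ⌊x + x / T⌋₊ := Nat.floor_le_floor (by linarith)
    rw [Nat.cast_sub a2]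
    have a3 : (⌊x + x / T⌋₊ : ℝ) ≤ x + x / T := Nat.floor_le (by linarith)
    have a4 : x < ⌊x⌋₊ + 1 := Nat.lt_floor_add_one x
    have a5 : 0 ≤ D * w := by positivity
    gcongr
    linarith
  have h6 : ‖DD φ k T x‖ ≤ Λ / T * (w * (D + 3 * C) * (x / T + 1)) := by
    refine h4.trans ?_
    have a1 : ∑ n ∈ Finset.Ioc ⌊x⌋₊ ⌊x + x / T⌋₊, (W182.KO.dk k n : ℝ) + 3 * C * w * (x / T) ≤
        w * (D + 3 * C) * (x / T + 1) := by
      have a2 : 0 ≤ C * w := by positivity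
      nlinarith
    gcongr
  have h7 : ‖DD φ k T x‖ ^ 2 ≤ (Λ / T * (w * (D + 3 * C) * (x / T + 1))) ^ 2 :=
    pow_le_pow_left₀ (norm_nonneg _) h6 2
  have h8 : w ^ 2 ≤ 2 * x ^ (2 * r) := by
    have a1 : w ^ 2 = 2 ^ (2 * r) * x ^ (2 * r) := by
      rw [hw, ← Real.rpow_natCast, ← Real.rpow_mul (by positivity), Real.mul_rpow (by norm_num) hx.le]
      push_cast
      rw [mul_comm r 2]
    rw [a1]
    have a2 : (2:ℝ) ^ (2 * r) ≤ 2 ^ (1:ℝ) := Real.rpow_le_rpow_of_exponent_le (by norm_num) (by linarith)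
    rw [Real.rpow_one] at a2
    gcongr
  have h9 : x ^ (-2 : ℝ) = 1 / x ^ 2 := by
    rw [Real.rpow_neg hx.le, one_div]
    norm_num
  rw [h9]
  have h10 : (x / T + 1) ^ 2 / x ^ 2 ≤ 2 * (1 / T ^ 2 + 1 / x ^ 2) := by
    have a1 : (x / T + 1) ^ 2 / x ^ 2 = (1 / T + 1 / x) ^ 2 := by field_simp
    have a2 : (1:ℝ) / T ^ 2 = (1 / T) ^ 2 := by ring
    have a3 : (1:ℝ) / x ^ 2 = (1 / x) ^ 2 := by ring
    rw [a1, a2, a3]
    nlinarith [sq_nonneg (1 / T - 1 / x)]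
  calc ‖DD φ k T x‖ ^ 2 / x ^ 2 ≤ (Λ / T * (w * (D + 3 * C) * (x / T + 1))) ^ 2 / x ^ 2 := by gcongr
    _ = Λ ^ 2 / T ^ 2 * (D + 3 * C) ^ 2 * w ^ 2 * ((x / T + 1) ^ 2 / x ^ 2) := by field_simp
    _ ≤ Λ ^ 2 / T ^ 2 * (D + 3 * C) ^ 2 * (2 * x ^ (2 * r)) * (2 * (1 / T ^ 2 + 1 / x ^ 2)) := by gcongr
    _ = _ := by ring

/-- the dominating function -/
lemma DD_dom (h : TS φ) (k : ℕ) {b : ℝ} (hb0 : 0 < b) (hb3 : b < 3) (hb : ∀ ξ, b ≤ ξ → φ ξ = 0) :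
    ∃ (K θ : ℝ) (G : ℝ → ℝ → ℝ), 0 ≤ K ∧ 0 < θ ∧ ∀ T : ℝ, Real.exp 1 ≤ T → IntegrableOn (G T) (Ioi 0) ∧
      (∀ x : ℝ, 0 < x → ‖DD φ k T x‖ ^ 2 / x ^ 2 ≤ G T x) ∧ T * ∫ x in Ioi (0:ℝ), G T x ≤ K * T ^ (-θ) := by
  set r : ℝ := (3 - b) / 16 with hr
  have hr0 : 0 < r := by rw [hr]; linarith
  have hr1 : r ≤ 1 / 4 := by rw [hr]; linarith
  obtain ⟨K1, hK1, h1⟩ := DD_small h k
  obtain ⟨K2, hK2, h2⟩ := DD_big h k hr0 hr1
  set θ : ℝ := min (1 - 2 * r * b) (3 - b - 2 * r * b) with hθ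
  have hθ0 : 0 < θ := by
    refine lt_min ?_ ?_
    · have : 2 * r * b = b * (3 - b) / 8 := by rw [hr]; ring
      rw [this]
      nlinarith [sq_nonneg (b - 3 / 2)]
    · have : 3 - b - 2 * r * b = (3 - b) * (1 - b / 8) := by rw [hr]; ring
      rw [this]
      exact mul_pos (by linarith) (by linarith)
  have hθ3 : θ ≤ 3 := by
    have := min_le_right (1 - 2 * r * b) (3 - b - 2 * r * b)
    have h0 : 0 ≤ 2 * r * b := by positivity
    linarith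
  refine ⟨2 * K1 + 3 * K2, θ, fun T x => (Ioc (0:ℝ) (1 / 2)).indicator (fun x => K1 / T ^ 4 * x ^ (-(1 / 2) : ℝ)) x +
    (Ioc (1 / 2 : ℝ) (T ^ b)).indicator (fun x => K2 / T ^ 2 * (T ^ b) ^ (2 * r) * (1 / T ^ 2 + x ^ (-2 : ℝ))) x,
    by positivity, hθ0, fun T hT => ?_⟩
  have hT0 : 0 < T := (Real.exp_pos 1).trans_le hT
  have hT1 : 1 < T := by have := Real.add_one_lt_exp one_ne_zero; linarith
  have hTb : 1 ≤ T ^ b := Real.one_le_rpow hT1.le hb0.le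
  have hTb0 : 0 < T ^ b := by linarith
  -- the first piece
  have j1 : IntegrableOn (fun x : ℝ => K1 / T ^ 4 * x ^ (-(1 / 2) : ℝ)) (Ioc 0 (1 / 2)) := by
    have := (intervalIntegral.intervalIntegrable_rpow' (a := 0) (b := 1 / 2) (r := -(1 / 2)) (by norm_num)).const_mul (K1 / T ^ 4)
    rwa [intervalIntegrable_iff_integrableOn_Ioc_of_le (by norm_num)] at this
  have v1 : ∫ x in Ioc (0:ℝ) (1 / 2), K1 / T ^ 4 * x ^ (-(1 / 2) : ℝ) ≤ 2 * K1 / T ^ 4 := by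
    rw [← intervalIntegral.integral_of_le (by norm_num), intervalIntegral.integral_const_mul,
      integral_rpow (Or.inl (by norm_num))]
    have a1 : ((1 / 2 : ℝ) ^ (-(1 / 2) + 1 : ℝ) - 0 ^ (-(1 / 2) + 1 : ℝ)) / (-(1 / 2) + 1) ≤ 2 := by
      rw [Real.zero_rpow (by norm_num), sub_zero, div_le_iff₀ (by norm_num)]
      calc (1 / 2 : ℝ) ^ (-(1 / 2) + 1 : ℝ) ≤ 1 := Real.rpow_le_one (by norm_num) (by norm_num) (by norm_num)
        _ = _ := by norm_num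
    calc K1 / T ^ 4 * (((1 / 2 : ℝ) ^ (-(1 / 2) + 1 : ℝ) - 0 ^ (-(1 / 2) + 1 : ℝ)) / (-(1 / 2) + 1)) ≤ K1 / T ^ 4 * 2 := by
          gcongr
      _ = _ := by ring
  -- the second piece
  have hm : (0:ℝ) ∉ uIcc (1 / 2) (T ^ b) := by
    rw [uIcc_of_le (by linarith)]
    intro h0
    linarith [h0.1]
  have i2 : IntervalIntegrable (fun x : ℝ => x ^ (-2 : ℝ)) volume (1 / 2) (T ^ b) :=
    intervalIntegral.intervalIntegrable_rpow (Or.inr hm)
  have j2' : IntervalIntegrable (fun x : ℝ => K2 / T ^ 2 * (T ^ b) ^ (2 * r) * (1 / T ^ 2 + x ^ (-2 : ℝ))) volume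
      (1 / 2) (T ^ b) := ((intervalIntegrable_const).add i2).const_mul _
  have j2 : IntegrableOn (fun x : ℝ => K2 / T ^ 2 * (T ^ b) ^ (2 * r) * (1 / T ^ 2 + x ^ (-2 : ℝ))) (Ioc (1 / 2) (T ^ b)) := by
    rwa [intervalIntegrable_iff_integrableOn_Ioc_of_le (by linarith)] at j2'
  have v2 : ∫ x in Ioc (1 / 2 : ℝ) (T ^ b), K2 / T ^ 2 * (T ^ b) ^ (2 * r) * (1 / T ^ 2 + x ^ (-2 : ℝ)) ≤
      K2 / T ^ 2 * (T ^ b) ^ (2 * r) * (T ^ b / T ^ 2 + 2) := by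
    rw [← intervalIntegral.integral_of_le (by linarith), intervalIntegral.integral_const_mul,
      intervalIntegral.integral_add (intervalIntegrable_const) i2, intervalIntegral.integral_const,
      integral_rpow (Or.inr ⟨by norm_num, hm⟩), smul_eq_mul]
    have a1 : (T ^ b - 1 / 2) * (1 / T ^ 2) ≤ T ^ b / T ^ 2 := by
      rw [mul_one_div]
      gcongr
      linarith
    have a2 : ((T ^ b) ^ (-2 + 1 : ℝ) - (1 / 2 : ℝ) ^ (-2 + 1 : ℝ)) / (-2 + 1) ≤ 2 := by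
      have a3 : 0 ≤ (T ^ b) ^ (-2 + 1 : ℝ) := by positivity
      have a4 : (1 / 2 : ℝ) ^ (-2 + 1 : ℝ) = 2 := by
        rw [show (-2 + 1 : ℝ) = -1 by norm_num, Real.rpow_neg_one]
        norm_num
      rw [a4, div_le_iff_of_neg (by norm_num)]
      linarith
    gcongr
  refine ⟨?_, ?_, ?_⟩
  · exact (((integrable_indicator_iff measurableSet_Ioc).2 j1).add
      ((integrable_indicator_iff measurableSet_Ioc).2 j2)).integrableOn
  · intro x hx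
    rcases le_or_gt x (1 / 2) with hx1 | hx1
    · have m1 : x ∈ Ioc (0:ℝ) (1 / 2) := ⟨hx, hx1⟩
      have m2 : x ∉ Ioc (1 / 2 : ℝ) (T ^ b) := fun h0 => absurd h0.1 (not_lt.2 hx1)
      simp only [indicator_of_mem m1, indicator_of_notMem m2, add_zero]
      exact h1 T x hT hx hx1
    · have m1 : x ∉ Ioc (0:ℝ) (1 / 2) := fun h0 => absurd h0.2 (not_le.2 hx1)
      rcases le_or_gt x (T ^ b) with hx2 | hx2
      · have m2 : x ∈ Ioc (1 / 2 : ℝ) (T ^ b) := ⟨hx1, hx2⟩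
        simp only [indicator_of_notMem m1, indicator_of_mem m2, zero_add]
        refine (h2 T x hT hx1).trans ?_
        have a1 : x ^ (2 * r) ≤ (T ^ b) ^ (2 * r) := Real.rpow_le_rpow hx.le hx2 (by positivity)
        have a2 : 0 ≤ x ^ (-2 : ℝ) := by positivity
        gcongr
      · have m2 : x ∉ Ioc (1 / 2 : ℝ) (T ^ b) := fun h0 => absurd h0.2 (not_le.2 hx2)
        simp only [indicator_of_notMem m1, indicator_of_notMem m2, add_zero]
        rw [DD_zero h k hb hT hx2.le]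
        simp
  · have s1 : Ioi (0:ℝ) ∩ Ioc 0 (1 / 2) = Ioc 0 (1 / 2) := inter_eq_right.2 fun x hx => hx.1
    have s2 : Ioi (0:ℝ) ∩ Ioc (1 / 2) (T ^ b) = Ioc (1 / 2) (T ^ b) :=
      inter_eq_right.2 fun x hx => lt_trans (by norm_num) hx.1
    have e1 : ∫ x in Ioi (0:ℝ), ((Ioc (0:ℝ) (1 / 2)).indicator (fun x => K1 / T ^ 4 * x ^ (-(1 / 2) : ℝ)) x +
        (Ioc (1 / 2 : ℝ) (T ^ b)).indicator (fun x => K2 / T ^ 2 * (T ^ b) ^ (2 * r) * (1 / T ^ 2 + x ^ (-2 : ℝ))) x) =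
        (∫ x in Ioc (0:ℝ) (1 / 2), K1 / T ^ 4 * x ^ (-(1 / 2) : ℝ)) +
        ∫ x in Ioc (1 / 2 : ℝ) (T ^ b), K2 / T ^ 2 * (T ^ b) ^ (2 * r) * (1 / T ^ 2 + x ^ (-2 : ℝ)) := by
      rw [integral_add ((integrable_indicator_iff measurableSet_Ioc).2 j1).integrableOn
        ((integrable_indicator_iff measurableSet_Ioc).2 j2).integrableOn,
        setIntegral_indicator measurableSet_Ioc, setIntegral_indicator measurableSet_Ioc, s1, s2]
    rw [e1]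
    have t1 : T ^ (-3 : ℝ) ≤ T ^ (-θ) := Real.rpow_le_rpow_of_exponent_le hT1.le (by linarith)
    have t2 : T ^ (2 * r * b - 1) ≤ T ^ (-θ) := Real.rpow_le_rpow_of_exponent_le hT1.le (by
      have := min_le_left (1 - 2 * r * b) (3 - b - 2 * r * b)
      linarith)
    have t3 : T ^ (2 * r * b + b - 3) ≤ T ^ (-θ) := Real.rpow_le_rpow_of_exponent_le hT1.le (by
      have := min_le_right (1 - 2 * r * b) (3 - b - 2 * r * b)
      linarith)
    have u0 : (T ^ b) ^ (2 * r) = T ^ (2 * r * b) := by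
      rw [← Real.rpow_mul hT0.le]; congr 1; ring
    have u1 : T * (2 * K1 / T ^ 4) = 2 * K1 * T ^ (-3 : ℝ) := by
      rw [Real.rpow_neg hT0.le, show (3:ℝ) = ((3:ℕ):ℝ) by norm_num, Real.rpow_natCast]
      field_simp
    have u2 : T * (K2 / T ^ 2 * (T ^ b) ^ (2 * r) * (T ^ b / T ^ 2 + 2)) =
        K2 * T ^ (2 * r * b + b - 3) + 2 * K2 * T ^ (2 * r * b - 1) := by
      rw [u0, Real.rpow_sub hT0, Real.rpow_sub hT0, Real.rpow_add hT0, Real.rpow_one,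
        show (3:ℝ) = ((3:ℕ):ℝ) by norm_num, Real.rpow_natCast]
      field_simp
    calc T * ((∫ x in Ioc (0:ℝ) (1 / 2), K1 / T ^ 4 * x ^ (-(1 / 2) : ℝ)) +
        ∫ x in Ioc (1 / 2 : ℝ) (T ^ b), K2 / T ^ 2 * (T ^ b) ^ (2 * r) * (1 / T ^ 2 + x ^ (-2 : ℝ)))
        ≤ T * (2 * K1 / T ^ 4 + K2 / T ^ 2 * (T ^ b) ^ (2 * r) * (T ^ b / T ^ 2 + 2)) := by gcongr
      _ = 2 * K1 * T ^ (-3 : ℝ) + (K2 * T ^ (2 * r * b + b - 3) + 2 * K2 * T ^ (2 * r * b - 1)) := by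
          rw [mul_add, u1, u2]
      _ ≤ 2 * K1 * T ^ (-θ) + (K2 * T ^ (-θ) + 2 * K2 * T ^ (-θ)) := by gcongr
      _ = _ := by ring

end

end Pool.Agent.K4H49.SV
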