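import Pool.Agent.K4H49.SV.B3
import Pool.Agent.K4H49.SV.A6

set_option autoImplicit false

/-! The cut-off outside the sum: comparison of the two variances. -/

namespace Pool.Agent.K4H49.SV

open Complex MeasureTheory Filter Topology Set Metric
open Pool.Agent.K4H66.HL Pool.Agent.K4H66.OL
open scoped ComplexConjugate

noncomputable section

variable {φ : ℝ → ℂ} {k : ℕ}

lemma A_int (h : TS φ) (k : ℕ) {T : ℝ} (hT : Real.exp 1 ≤ T) :
    IntegrableOn (fun x => ‖dev φ k T (1 / T) x‖ ^ 2 / x ^ 2) (Ioi 0) := by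
  have hT0 : 0 < T := (Real.exp_pos 1).trans_le hT
  have hT1 : 1 < T := by have := Real.add_one_lt_exp one_ne_zero; linarith
  obtain ⟨N, m, c, C, hc, hm, hm1, hm2, -, -, hdev⟩ := dev_data h k hT
  have hi : 1 / T ≤ 1 := by rw [div_le_one hT0]; exact hT1.le
  refine gen_int (N := N) (a := fun n => (W182.KO.dk k n : ℂ) * φ (Real.log n / Real.log T)) (m := m)
    (w := fun _ => 1) (W := 1) (h := 1 / T) (c0 := min (c / 2) (1 / 2)) (C0 := max N C) hm measurable_const
    (fun x => by simp) (by positivity) (by positivity) (fun x hx => ?_) ?_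
  · rw [one_mul]
    exact hdev (1 / T) x (by positivity) hx
  · intro x hx hx2
    rw [hdev (1 / T) x (by positivity) hx]
    have hxx : x ≤ (1 + 1 / T) * x := by
      have : 0 < 1 / T := by positivity
      nlinarith
    have hxx2 : (1 + 1 / T) * x ≤ 2 * x := by nlinarith
    rcases hx2 with hx2 | hx2
    · have b1 : x < c / 2 := hx2.trans_le (min_le_left _ _)
      have b2 : x < 1 / 2 := hx2.trans_le (min_le_right _ _)
      have e1 : ∑ n ∈ Finset.range N, (if x < n ∧ (n : ℝ) ≤ (1 + 1 / T) * x then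
          (W182.KO.dk k n : ℂ) * φ (Real.log n / Real.log T) else 0) = 0 := by
        refine Finset.sum_eq_zero fun n _ => ?_
        rw [if_neg]
        rintro ⟨a1, a2⟩
        have a4 : (n:ℝ) < 1 := by linarith
        have a5 : n = 0 := by
          have : n < 1 := by exact_mod_cast a4
          omega
        rw [a5] at a1
        push_cast at a1
        linarith
      have e2 : ∫ y in x..((1 + 1 / T) * x), m y = 0 := by
        rw [intervalIntegral.integral_congr (g := fun _ => 0)]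
        · simp
        · intro y hy
          rw [uIcc_of_le hxx] at hy
          exact hm1 y (by linarith [hy.2])
      rw [e1, e2, sub_zero]
    · have b1 : (N:ℝ) < x := (le_max_left _ _).trans_lt hx2
      have b2 : C < x := (le_max_right _ _).trans_lt hx2
      have e1 : ∑ n ∈ Finset.range N, (if x < n ∧ (n : ℝ) ≤ (1 + 1 / T) * x then
          (W182.KO.dk k n : ℂ) * φ (Real.log n / Real.log T) else 0) = 0 := by
        refine Finset.sum_eq_zero fun n hn => ?_
        rw [if_neg]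
        rintro ⟨a1, -⟩
        have a2 : (n:ℝ) < N := by exact_mod_cast Finset.mem_range.1 hn
        linarith
      have e2 : ∫ y in x..((1 + 1 / T) * x), m y = 0 := by
        rw [intervalIntegral.integral_congr (g := fun _ => 0)]
        · simp
        · intro y hy
          rw [uIcc_of_le hxx] at hy
          exact hm2 y (by linarith [hy.1])
      rw [e1, e2, sub_zero]

lemma B_int (h : TS φ) (k : ℕ) {T : ℝ} (hT : Real.exp 1 ≤ T) :
    IntegrableOn (fun x => ‖φ (Real.log x / Real.log T) * ET k x (x / T)‖ ^ 2 / x ^ 2) (Ioi 0) := by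
  have hT0 : 0 < T := (Real.exp_pos 1).trans_le hT
  have hT1 : 1 < T := by have := Real.add_one_lt_exp one_ne_zero; linarith
  have hL : 0 < Real.log T := Real.log_pos hT1
  set L := Real.log T with hLd
  obtain ⟨R, hR, hR0⟩ := phi_zero h
  obtain ⟨W, hW0, hW⟩ := h.bdd
  set c : ℝ := Real.exp (-(R * L)) with hc
  have hc0 : 0 < c := Real.exp_pos _
  set C0 : ℝ := Real.exp (R * L) with hC0
  have hz : ∀ x : ℝ, 0 < x → (x < c ∨ C0 < x) → φ (Real.log x / L) = 0 := by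
    intro x hx hx2
    apply hR0
    rcases hx2 with hx2 | hx2
    · have h1 : Real.log x ≤ -(R * L) := ((Real.log_lt_iff_lt_exp hx).2 hx2).le
      have h2 : Real.log x / L ≤ -R := by rw [div_le_iff₀ hL]; linarith
      rw [abs_of_nonpos (by linarith)]
      linarith
    · have h1 : R * L ≤ Real.log x := ((Real.lt_log_iff_exp_lt hx).2 hx2).le
      have h2 : R ≤ Real.log x / L := by rwa [le_div_iff₀ hL]
      exact h2.trans (le_abs_self _)
  refine gen_int (N := ⌈2 * C0⌉₊ + 1) (a := fun n => (W182.KO.dk k n : ℂ)) (m := fun y => res k (max y c))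
    (w := fun x => φ (Real.log x / L)) (W := W) (h := 1 / T) (c0 := c) (C0 := C0) (res_cont k hc0)
    (h.cd.continuous.measurable.comp (Real.measurable_log.div_const _)) (fun x => hW _) (by positivity) hc0
    (fun x hx => ?_) (fun x hx hx2 => by rw [hz x hx hx2, zero_mul])
  by_cases hx2 : x < c ∨ C0 < x
  · rw [hz x hx hx2, zero_mul, zero_mul]
  · push Not at hx2
    obtain ⟨hx3, hx4⟩ := hx2
    congr 1
    unfold ET
    have e0 : (1 + 1 / T) * x = x + x / T := by ring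
    have hxT : 0 < x / T := by positivity
    have hxT2 : x / T ≤ x := div_le_self hx.le hT1.le
    rw [e0]
    congr 1
    · refine sum_Ioc_eq hx.le hxT.le _ fun n hn hN => ?_
      exfalso
      have a1 : (n:ℝ) ≤ 2 * C0 := by linarith
      have a2 : 2 * C0 < (⌈2 * C0⌉₊ + 1 : ℕ) := by
        push_cast
        have := Nat.le_ceil (2 * C0)
        linarith
      have a3 : ((⌈2 * C0⌉₊ + 1 : ℕ) : ℝ) ≤ n := by exact_mod_cast hN
      linarith
    · refine intervalIntegral.integral_congr fun y hy => ?_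
      rw [uIcc_of_le (by linarith)] at hy
      rw [max_eq_left (hx3.trans hy.1)]

lemma Vo_eq (φ : ℝ → ℂ) (k : ℕ) (T : ℝ) :
    Vo φ k T = T * ∫ x in Ioi (0:ℝ), ‖φ (Real.log x / Real.log T) * ET k x (x / T)‖ ^ 2 / x ^ 2 := by
  unfold Vo
  congr 1
  refine integral_congr_ae (Eventually.of_forall fun x => ?_)
  simp only [norm_mul, mul_pow]

/-- the two variances are close -/
lemma Vo_Va (h : TS φ) (k : ℕ) {b : ℝ} (hb0 : 0 < b) (hb3 : b < 3) (hb : ∀ ξ, b ≤ ξ → φ ξ = 0) :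
    ∃ e : ℝ → ℝ, Tendsto e atTop (𝓝 0) ∧ ∀ ε : ℝ, 0 < ε → ε ≤ 1 → ∀ T : ℝ, Real.exp 1 ≤ T →
      |Vo φ k T - Va φ k T| ≤ 2 * ε * Va φ k T + (3 + 1 / ε) * e T ∧
      |Va φ k T - Vo φ k T| ≤ 2 * ε * Vo φ k T + (3 + 1 / ε) * e T := by
  obtain ⟨K, θ, G, hK, hθ, hG⟩ := DD_dom h k hb0 hb3 hb
  refine ⟨fun T => K * T ^ (-θ), ?_, fun ε hε hε1 T hT => ?_⟩
  · have := (tendsto_rpow_neg_atTop hθ).const_mul K
    simpa using this
  obtain ⟨hGi, hGb, hGE⟩ := hG T hT
  have hT0 : 0 < T := (Real.exp_pos 1).trans_le hT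
  have iA := A_int h k hT
  have iB := B_int h k hT
  set A : ℝ → ℂ := fun x => dev φ k T (1 / T) x with hA
  set B : ℝ → ℂ := fun x => φ (Real.log x / Real.log T) * ET k x (x / T) with hB
  have key : ∀ P Q : ℝ → ℂ, IntegrableOn (fun x => ‖P x‖ ^ 2 / x ^ 2) (Ioi 0) →
      IntegrableOn (fun x => ‖Q x‖ ^ 2 / x ^ 2) (Ioi 0) → (∀ x : ℝ, 0 < x → ‖P x - Q x‖ ^ 2 / x ^ 2 ≤ G T x) →
      |T * (∫ x in Ioi (0:ℝ), ‖P x‖ ^ 2 / x ^ 2) - T * ∫ x in Ioi (0:ℝ), ‖Q x‖ ^ 2 / x ^ 2| ≤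
        2 * ε * (T * ∫ x in Ioi (0:ℝ), ‖Q x‖ ^ 2 / x ^ 2) + (3 + 1 / ε) * (K * T ^ (-θ)) := by
    intro P Q iP iQ hPQ
    rw [← mul_sub, ← integral_sub iP iQ, abs_mul, abs_of_pos hT0]
    have h1 : ‖∫ x in Ioi (0:ℝ), (‖P x‖ ^ 2 / x ^ 2 - ‖Q x‖ ^ 2 / x ^ 2)‖ ≤
        ∫ x in Ioi (0:ℝ), (2 * ε * (‖Q x‖ ^ 2 / x ^ 2) + (3 + 1 / ε) * G T x) := by
      refine norm_integral_le_of_norm_le ((iQ.const_mul _).add (hGi.const_mul _)) ?_
      filter_upwards [ae_restrict_mem measurableSet_Ioi] with x hx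
      have hx0 : (0:ℝ) < x := hx
      have h2 := sq_cmp (P x) (Q x) hε hε1
      rw [← sub_div, norm_div, Real.norm_eq_abs, Real.norm_of_nonneg (by positivity : (0:ℝ) ≤ x ^ 2)]
      calc |‖P x‖ ^ 2 - ‖Q x‖ ^ 2| / x ^ 2 ≤ (2 * ε * ‖Q x‖ ^ 2 + (3 + 1 / ε) * ‖P x - Q x‖ ^ 2) / x ^ 2 := by gcongr
        _ = 2 * ε * (‖Q x‖ ^ 2 / x ^ 2) + (3 + 1 / ε) * (‖P x - Q x‖ ^ 2 / x ^ 2) := by ring
        _ ≤ _ := by
            have := hPQ x hx0
            gcongr
    rw [integral_add (iQ.const_mul _) (hGi.const_mul _), integral_const_mul, integral_const_mul] at h1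
    calc T * |∫ x in Ioi (0:ℝ), (‖P x‖ ^ 2 / x ^ 2 - ‖Q x‖ ^ 2 / x ^ 2)|
        ≤ T * (2 * ε * (∫ x in Ioi (0:ℝ), ‖Q x‖ ^ 2 / x ^ 2) + (3 + 1 / ε) * ∫ x in Ioi (0:ℝ), G T x) := by
          gcongr
          exact h1
      _ = 2 * ε * (T * ∫ x in Ioi (0:ℝ), ‖Q x‖ ^ 2 / x ^ 2) + (3 + 1 / ε) * (T * ∫ x in Ioi (0:ℝ), G T x) := by ring
      _ ≤ _ := by gcongr
  have hAB : ∀ x : ℝ, 0 < x → ‖A x - B x‖ ^ 2 / x ^ 2 ≤ G T x := hGb
  have hBA : ∀ x : ℝ, 0 < x → ‖B x - A x‖ ^ 2 / x ^ 2 ≤ G T x := by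
    intro x hx
    rw [norm_sub_rev]
    exact hGb x hx
  rw [Vo_eq]
  exact ⟨key B A iB iA hBA, key A B iA iB hAB⟩

lemma close_lim {f g e : ℝ → ℝ} (he : Tendsto e atTop (𝓝 0))
    (h : ∀ ε : ℝ, 0 < ε → ε ≤ 1 → ∀ᶠ T : ℝ in atTop, |f T - g T| ≤ 2 * ε * g T + (3 + 1 / ε) * e T) {S : ℝ}
    (hg : Tendsto g atTop (𝓝 S)) : Tendsto f atTop (𝓝 S) := by
  suffices hz : Tendsto (fun T => f T - g T) atTop (𝓝 0) by
    have := hz.add hg
    simpa using this
  rw [Metric.tendsto_nhds]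
  intro η hη
  set ε : ℝ := min 1 (η / (8 * (|S| + 1))) with hε
  have hε0 : 0 < ε := by positivity
  have hε1 : ε ≤ 1 := min_le_left _ _
  have hε2 : 2 * ε * (|S| + 1) ≤ η / 4 := by
    have h1 : ε ≤ η / (8 * (|S| + 1)) := min_le_right _ _
    rw [le_div_iff₀ (by positivity)] at h1
    linarith
  have h2 := (he.const_mul (3 + 1 / ε))
  rw [mul_zero] at h2
  filter_upwards [h ε hε0 hε1, h2.eventually_lt_const (show (0:ℝ) < η / 4 by positivity),
    hg.eventually_le_const (show S < |S| + 1 by linarith [le_abs_self S])] with T t1 t2 t3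
  rw [Real.dist_eq, sub_zero]
  have h3 : 2 * ε * g T ≤ 2 * ε * (|S| + 1) := by gcongr
  linarith

/-- the cut-off may be taken outside -/
theorem out_iff (h : TS φ) (k : ℕ) {b : ℝ} (hb0 : 0 < b) (hb3 : b < 3) (hb : ∀ ξ, b ≤ ξ → φ ξ = 0) (S : ℝ) :
    Tendsto (fun T => Va φ k T / Real.log T ^ (k ^ 2)) atTop (𝓝 S) ↔
    Tendsto (fun T => Vo φ k T / Real.log T ^ (k ^ 2)) atTop (𝓝 S) := by
  obtain ⟨e, he, h1⟩ := Vo_Va h k hb0 hb3 hb
  have he' : Tendsto (fun T => e T / Real.log T ^ (k ^ 2)) atTop (𝓝 0) := by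
    refine squeeze_zero_norm' (a := fun T => ‖e T‖) ?_ (tendsto_zero_iff_norm_tendsto_zero.1 he)
    filter_upwards [eventually_ge_atTop (Real.exp 1)] with T hT
    have hL := (logT hT).2.2
    rw [norm_div]
    refine div_le_self (norm_nonneg _) ?_
    rw [Real.norm_of_nonneg (by positivity)]
    exact one_le_pow₀ hL
  constructor
  · intro hV
    refine close_lim he' (fun ε hε hε1 => ?_) hV
    filter_upwards [eventually_ge_atTop (Real.exp 1)] with T hT
    have hL : 0 < Real.log T ^ (k ^ 2) := by have := (logT hT).2.2; positivity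
    rw [← sub_div, abs_div, abs_of_pos hL, div_le_iff₀ hL]
    refine (h1 ε hε hε1 T hT).1.trans (le_of_eq ?_)
    field_simp
  · intro hV
    refine close_lim he' (fun ε hε hε1 => ?_) hV
    filter_upwards [eventually_ge_atTop (Real.exp 1)] with T hT
    have hL : 0 < Real.log T ^ (k ^ 2) := by have := (logT hT).2.2; positivity
    rw [← sub_div, abs_div, abs_of_pos hL, div_le_iff₀ hL]
    refine (h1 ε hε hε1 T hT).2.trans (le_of_eq ?_)
    field_simp

end

end Pool.Agent.K4H49.SV
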