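import Pool.Agent.K4H49.SV.B4

set_option autoImplicit false

/-! The order of magnitude of the variance. -/

namespace Pool.Agent.K4H49.SV

open Complex MeasureTheory Filter Topology Set Metric
open Pool.Agent.K4H66.HL Pool.Agent.K4H66.OL Pool.Agent.TH535.SM Pool.Agent.R446.KR
open scoped ComplexConjugate

noncomputable section

variable {φ : ℝ → ℂ} {k : ℕ}

lemma Va_nonneg (φ : ℝ → ℂ) (k : ℕ) {T : ℝ} (hT : 0 ≤ T) : 0 ≤ Va φ k T := by
  unfold Va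
  exact mul_nonneg hT (integral_nonneg fun x => by positivity)

lemma Vo_nonneg (φ : ℝ → ℂ) (k : ℕ) {T : ℝ} (hT : 0 ≤ T) : 0 ≤ Vo φ k T := by
  unfold Vo
  exact mul_nonneg hT (integral_nonneg fun x => by positivity)

/-- a bounded moment bounds the variance -/
theorem var_bdd (hPL : S_PL) (hID : S_ID) (hKB : S_KB) (hMID : S_MID) (hBD : S_BD) (h : TS φ)
    (hr : ∀ x, conj (φ x) = φ x) {C0 : ℝ} (hM : ∀ᶠ T : ℝ in atTop, M (zr k 0) T ≤ C0 * NN (k ^ 2) T) :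
    ∃ B : ℝ, ∀ᶠ T : ℝ in atTop, Va φ k T ≤ B * Real.log T ^ (k ^ 2) := by
  obtain ⟨K, hK, hBD⟩ := hBD
  obtain ⟨⟨C, hC, hf⟩, -⟩ := ff_growth hMID h k hM
  refine ⟨1 / Real.pi * (K * C * 10), ?_⟩
  filter_upwards [hf, Va_ff hPL hID hKB h hr k, eventually_ge_atTop (Real.exp 1)] with T t1 t2 t3
  have hL : 0 < Real.log T ^ (k ^ 2) := by have := (logT t3).2.2; positivity
  obtain ⟨-, h2⟩ := hBD (ff φ k T) (GG 1 T) C 10 hC (by norm_num) (ff_cont hMID h k T) (ff_nonneg φ k T)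
    (GG_cont hKB one_pos T).continuousOn t1 (fun u hu => by
      have := GG_bd hKB one_pos T u hu
      norm_num at this
      exact this)
  rw [← div_le_iff₀ hL, t2]
  have hpi := Real.pi_pos
  have h3 := (le_abs_self _).trans h2
  gcongr

/-- the orders of magnitude -/
theorem ord_iff (hPL : S_PL) (hID : S_ID) (hKB : S_KB) (hMID : S_MID) (hBD : S_BD) (hk : 2 ≤ k) (h : TS φ)
    (hr : ∀ x, conj (φ x) = φ x) (hφ : ∀ x ∈ Icc (1:ℝ) (k - 1), ‖φ x‖ ^ 2 + ‖φ (k - x)‖ ^ 2 = 1)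
    {b : ℝ} (hb0 : 0 < b) (hb3 : b < 3) (hb : ∀ ξ, b ≤ ξ → φ ξ = 0) :
    (∃ B : ℝ, ∀ᶠ T : ℝ in atTop, M (zr k 0) T ≤ B * NN (k ^ 2) T) ↔
    ∃ B : ℝ, ∀ᶠ T : ℝ in atTop, Vo φ k T ≤ B * Real.log T ^ (k ^ 2) := by
  obtain ⟨e, he, h1⟩ := Vo_Va h k hb0 hb3 hb
  have he1 := he.eventually_le_const (show (0:ℝ) < 1 by norm_num)
  constructor
  · rintro ⟨C0, hM⟩
    obtain ⟨B, hB⟩ := var_bdd hPL hID hKB hMID hBD h hr hM
    refine ⟨3 * B + 4, ?_⟩
    filter_upwards [hB, he1, eventually_ge_atTop (Real.exp 1)] with T t1 t2 t3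
    have hL : 1 ≤ Real.log T ^ (k ^ 2) := one_le_pow₀ (logT t3).2.2
    have h2 := (h1 1 one_pos le_rfl T t3).1
    rw [abs_le] at h2
    linarith [h2.2]
  · rintro ⟨B, hB⟩
    refine mom_bdd hPL hID hKB hMID hk h hr hφ (B := 3 * B + 4) ?_
    filter_upwards [hB, he1, eventually_ge_atTop (Real.exp 1)] with T t1 t2 t3
    have hL : 1 ≤ Real.log T ^ (k ^ 2) := one_le_pow₀ (logT t3).2.2
    have h2 := (h1 1 one_pos le_rfl T t3).2
    rw [abs_le] at h2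
    linarith [h2.2]

end

end Pool.Agent.K4H49.SV
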