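import Pool.Agent.K4H49.SV.B5

set_option autoImplicit false

/-! Powers of `T`. -/

namespace Pool.Agent.K4H49.SV

open Complex MeasureTheory Filter Topology Set Metric
open Pool.Agent.K4H66.HL Pool.Agent.K4H66.OL Pool.Agent.TH535.SM Pool.Agent.R446.KR Pool.Agent.K4H6.SV
open scoped ComplexConjugate

noncomputable section

variable {φ : ℝ → ℂ} {k : ℕ}

/-- the mean square of the polynomial is bounded by the variance -/
theorem win_bdd (hPL : S_PL) (hID : S_ID) (hKB : S_KB) (hMID : S_MID) (h : TS φ)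
    (hr : ∀ x, conj (φ x) = φ x) (k : ℕ) :
    ∃ C : ℝ, 0 ≤ C ∧ ∀ᶠ T : ℝ in atTop, mD φ k T ≤ C * (T * (Va φ k T + 1)) := by
  obtain ⟨c, hc, hG⟩ := GG_low hKB
  obtain ⟨C, T0, hC, hT0, h1⟩ := DPw_close h k (a := 1) (b := 2) one_pos (by norm_num)
  have hpi := Real.pi_pos
  refine ⟨2 * (Real.pi / c) + 2 * C ^ 2, by positivity, ?_⟩
  filter_upwards [hG, eventually_ge_atTop (Real.exp 1), eventually_ge_atTop T0] with T t2 t4 t5
  obtain ⟨hTp, hT1, hL⟩ := logT t4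
  have hcB := BB_cont hMID h k t4
  have hcD := DP_cont h k hT1
  have hV := Va_nonneg φ k hTp.le
  have i1 : IntegrableOn (fun u => GG 1 T u * ‖BB φ k T (u * T)‖ ^ 2) (Ioi 0) := G_int hPL hID h k one_pos t4 hT1.le hTp
  have i2 : ∫ u in (1:ℝ)..2, c * ‖BB φ k T (u * T)‖ ^ 2 ≤ ∫ u in Ioi (0:ℝ), GG 1 T u * ‖BB φ k T (u * T)‖ ^ 2 := by
    rw [intervalIntegral.integral_of_le (by norm_num)]
    calc ∫ u in Ioc (1:ℝ) 2, c * ‖BB φ k T (u * T)‖ ^ 2 ≤ ∫ u in Ioc (1:ℝ) 2, GG 1 T u * ‖BB φ k T (u * T)‖ ^ 2 := by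
          refine setIntegral_mono_on ?_ ?_ measurableSet_Ioc fun u hu => ?_
          · exact ((continuous_const.mul ((hcB.comp (continuous_id.mul continuous_const)).norm.pow 2)).integrableOn_Icc
              (a := 1) (b := 2)).mono_set Ioc_subset_Icc_self
          · exact i1.mono_set fun u hu => lt_trans one_pos hu.1
          · exact mul_le_mul_of_nonneg_right (t2 u ⟨hu.1.le, hu.2⟩) (by positivity)
      _ ≤ _ := by
          refine setIntegral_mono_set i1 (Eventually.of_forall fun u => mul_nonneg (GG_nonneg _ _ _) (by positivity)) ?_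
          exact Eventually.of_forall fun u (hu : u ∈ Ioc (1:ℝ) 2) => lt_trans one_pos hu.1
  have i3 : ∫ u in Ioi (0:ℝ), GG 1 T u * ‖BB φ k T (u * T)‖ ^ 2 = Real.pi * Va φ k T := by
    have h2 := Va_eq hPL hID hKB h hr k one_pos (T := T) (by rwa [div_one]) hT1.le hTp
    rw [div_one, one_mul] at h2
    rw [h2, ← mul_assoc, mul_one_div, div_self hpi.ne', one_mul]
  have e2 : ∫ u in (1:ℝ)..2, ‖BB φ k T (u * T)‖ ^ 2 = T⁻¹ * ∫ t in (1 * T)..(2 * T), ‖BB φ k T t‖ ^ 2 := by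
    have := intervalIntegral.integral_comp_mul_right (a := 1) (b := 2) (fun t => ‖BB φ k T t‖ ^ 2) hTp.ne'
    rw [this, smul_eq_mul]
  rw [intervalIntegral.integral_const_mul, i3, e2] at i2
  have i4 : ∫ t in (1 * T)..(2 * T), ‖BB φ k T t‖ ^ 2 ≤ Real.pi / c * (T * Va φ k T) := by
    have h2 : T⁻¹ * (∫ t in (1 * T)..(2 * T), ‖BB φ k T t‖ ^ 2) ≤ Real.pi * Va φ k T / c := by
      rw [le_div_iff₀ hc]; linarith
    rw [inv_mul_le_iff₀ hTp] at h2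
    refine h2.trans (le_of_eq ?_)
    ring
  have i5 : mD φ k T ≤ ∫ t in (1 * T)..(2 * T), (2 * ‖BB φ k T t‖ ^ 2 + 2 * (C / T) ^ 2) := by
    unfold mD
    rw [one_mul]
    refine intervalIntegral.integral_mono_on (by linarith) ((hcD.norm.pow 2).intervalIntegrable _ _)
      ((continuous_const.mul (hcB.norm.pow 2)).add continuous_const |>.intervalIntegrable _ _) fun t ht => ?_
    have h2 := h1 T t5 t (by rw [one_mul]; exact ht)
    have h3 : ‖DP φ k T t‖ ≤ ‖BB φ k T t‖ + C / T := by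
      calc ‖DP φ k T t‖ = ‖BB φ k T t + (DP φ k T t - BB φ k T t)‖ := by congr 1; ring
        _ ≤ ‖BB φ k T t‖ + ‖DP φ k T t - BB φ k T t‖ := norm_add_le _ _
        _ ≤ _ := by gcongr; exact h2
    have h4 : 0 ≤ C / T := by positivity
    nlinarith [norm_nonneg (DP φ k T t), norm_nonneg (BB φ k T t), sq_nonneg (‖BB φ k T t‖ - C / T)]
  have hc2 : Continuous (fun t => 2 * ‖BB φ k T t‖ ^ 2) := continuous_const.mul (hcB.norm.pow 2)
  rw [intervalIntegral.integral_add (f := fun t => 2 * ‖BB φ k T t‖ ^ 2) (g := fun _ => 2 * (C / T) ^ 2)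
    (hc2.intervalIntegrable _ _) (continuous_const.intervalIntegrable _ _), intervalIntegral.integral_const_mul,
    intervalIntegral.integral_const, smul_eq_mul] at i5
  have i6 : (2 * T - 1 * T) * (2 * (C / T) ^ 2) ≤ 2 * C ^ 2 * T := by
    have h2 : (2 * T - 1 * T) * (2 * (C / T) ^ 2) = 2 * C ^ 2 * (1 / T) := by field_simp; ring
    rw [h2]
    have h3 : 1 / T ≤ T := by rw [div_le_iff₀ hTp]; nlinarith
    gcongr
  have i7 : 0 ≤ T * Va φ k T := by positivity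
  have i8 : 0 ≤ Real.pi / c := by positivity
  calc mD φ k T ≤ _ := i5
    _ ≤ 2 * (Real.pi / c * (T * Va φ k T)) + 2 * C ^ 2 * T := by gcongr
    _ ≤ _ := by nlinarith [mul_nonneg i8 hTp.le, mul_nonneg (sq_nonneg C) i7]

/-- a bound for the moment bounds the variance -/
theorem var_pow (hPL : S_PL) (hID : S_ID) (hKB : S_KB) (hMID : S_MID) (hBD : S_BD) (h : TS φ)
    (hr : ∀ x, conj (φ x) = φ x) {θ : ℝ} (hθ : 0 < θ) (hθ1 : θ ≤ 1 / 2) {C0 : ℝ}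
    (hM : ∀ᶠ T : ℝ in atTop, M (zr k 0) T ≤ C0 * T ^ (1 + θ)) :
    ∃ B : ℝ, ∀ᶠ T : ℝ in atTop, Va φ k T ≤ B * T ^ θ := by
  obtain ⟨K, hK, hBD⟩ := hBD
  obtain ⟨C, N, hC, h1⟩ := scaled hMID k
  obtain ⟨C2, hC2, h2⟩ := kp_bd h N
  obtain ⟨X0, hX0⟩ := eventually_atTop.1 hM
  set C0' : ℝ := max C0 0 with hC0'
  have hC0'' : 0 ≤ C0' := le_max_right _ _
  have hpi := Real.pi_pos
  refine ⟨1 / Real.pi * (K * (C * C2 ^ 2 * (1 + 6 * C0')) * 10), ?_⟩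
  filter_upwards [eventually_ge_atTop (Real.exp 1), eventually_ge_atTop X0] with T t1 t2
  obtain ⟨hT0, hT1, hL⟩ := logT t1
  have hTθ : 1 ≤ T ^ θ := Real.one_le_rpow hT1.le hθ.le
  have hcB := BB_cont hMID h k t1
  have hf : ∀ x : ℝ, 1 ≤ x → ∫ u in (0:ℝ)..x, ‖BB φ k T (u * T)‖ ^ 2 ≤
      (C * C2 ^ 2 * (1 + 6 * C0') * T ^ θ) * x ^ (3 / 2 : ℝ) := by
    intro x hx
    have hx0 : 0 < x := by linarith
    have h3 := (h1 T C2 (kp φ (Real.log T)) t1 hC2 (kp_cont h _) (fun y => h2 (Real.log T) y (by linarith))).2 x hx0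
      (by nlinarith)
    have hX : X0 ≤ 2 * x * T := t2.trans (by nlinarith)
    have h4 : M (zr k 0) (2 * x * T) ≤ C0' * (2 * x * T) ^ (1 + θ) := by
      refine (hX0 _ hX).trans ?_
      have : 0 ≤ (2 * x * T) ^ (1 + θ) := by positivity
      exact mul_le_mul_of_nonneg_right (le_max_left _ _) this
    have h5 : (2 * x * T) ^ (1 + θ) ≤ 3 * x ^ (3 / 2 : ℝ) * (T * T ^ θ) := by
      rw [Real.mul_rpow (by positivity) hT0.le, Real.rpow_add hT0, Real.rpow_one]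
      have h6 : (2 * x) ^ (1 + θ) ≤ (2 * x) ^ (3 / 2 : ℝ) :=
        Real.rpow_le_rpow_of_exponent_le (by linarith) (by linarith)
      have h7 : (2 * x) ^ (3 / 2 : ℝ) = 2 ^ (3 / 2 : ℝ) * x ^ (3 / 2 : ℝ) := Real.mul_rpow (by norm_num) hx0.le
      have h8 : (2:ℝ) ^ (3 / 2 : ℝ) ≤ 3 := by
        have h9 : ((2:ℝ) ^ (3 / 2 : ℝ)) ^ 2 = 8 := by
          rw [← Real.rpow_natCast, ← Real.rpow_mul (by norm_num)]
          norm_num
        have h10 : 0 < (2:ℝ) ^ (3 / 2 : ℝ) := by positivity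
        nlinarith
      have h9 : 0 ≤ x ^ (3 / 2 : ℝ) := by positivity
      calc (2 * x) ^ (1 + θ) * (T * T ^ θ) ≤ (2 ^ (3 / 2 : ℝ) * x ^ (3 / 2 : ℝ)) * (T * T ^ θ) := by
            rw [← h7]; gcongr
        _ ≤ _ := by gcongr
    have h6 : (1:ℝ) ≤ x ^ (3 / 2 : ℝ) * (T * T ^ θ) := by
      have a1 : (1:ℝ) ≤ x ^ (3 / 2 : ℝ) := Real.one_le_rpow hx (by norm_num)
      exact one_le_mul_of_one_le_of_one_le a1 (one_le_mul_of_one_le_of_one_le hT1.le hTθ)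
    calc ∫ u in (0:ℝ)..x, ‖BB φ k T (u * T)‖ ^ 2 ≤ C * C2 ^ 2 / T * (1 + 2 * M (zr k 0) (2 * x * T)) := h3
      _ ≤ C * C2 ^ 2 / T * (x ^ (3 / 2 : ℝ) * (T * T ^ θ) + 2 * (C0' * (3 * x ^ (3 / 2 : ℝ) * (T * T ^ θ)))) := by
          gcongr
          exact h4.trans (by gcongr)
      _ = _ := by field_simp; ring
  obtain ⟨-, h3⟩ := hBD (fun u => ‖BB φ k T (u * T)‖ ^ 2) (GG 1 T) (C * C2 ^ 2 * (1 + 6 * C0') * T ^ θ) 10
    (by positivity) (by norm_num) ((hcB.comp (continuous_id.mul continuous_const)).norm.pow 2)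
    (fun u => by positivity) (GG_cont hKB one_pos T).continuousOn hf (fun u hu => by
      have := GG_bd hKB one_pos T u hu
      norm_num at this
      exact this)
  have h4 := Va_eq hPL hID hKB h hr k one_pos (T := T) (by rwa [div_one]) hT1.le hT0
  rw [div_one, one_mul] at h4
  rw [h4]
  have h5 := (le_abs_self _).trans h3
  calc 1 / Real.pi * ∫ u in Ioi (0:ℝ), GG 1 T u * ‖BB φ k T (u * T)‖ ^ 2
      ≤ 1 / Real.pi * (K * (C * C2 ^ 2 * (1 + 6 * C0') * T ^ θ) * 10) := by gcongr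
    _ = _ := by ring

/-- power bounds -/
theorem pow_iff (hPL : S_PL) (hID : S_ID) (hKB : S_KB) (hMID : S_MID) (hBD : S_BD) (hk : 2 ≤ k) (h : TS φ)
    (hr : ∀ x, conj (φ x) = φ x) (hφ : ∀ x ∈ Icc (1:ℝ) (k - 1), ‖φ x‖ ^ 2 + ‖φ (k - x)‖ ^ 2 = 1)
    {b : ℝ} (hb0 : 0 < b) (hb3 : b < 3) (hb : ∀ ξ, b ≤ ξ → φ ξ = 0) {θ : ℝ} (hθ : 0 < θ) (hθ1 : θ ≤ 1 / 2) :
    (∃ B : ℝ, ∀ᶠ T : ℝ in atTop, M (zr k 0) T ≤ B * T ^ (1 + θ)) ↔
    ∃ B : ℝ, ∀ᶠ T : ℝ in atTop, Vo φ k T ≤ B * T ^ θ := by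
  obtain ⟨e, he, h1⟩ := Vo_Va h k hb0 hb3 hb
  have he1 := he.eventually_le_const (show (0:ℝ) < 1 by norm_num)
  constructor
  · rintro ⟨C0, hM⟩
    obtain ⟨B, hB⟩ := var_pow hPL hID hKB hMID hBD h hr hθ hθ1 hM
    refine ⟨3 * B + 4, ?_⟩
    filter_upwards [hB, he1, eventually_ge_atTop (Real.exp 1)] with T t1 t2 t3
    have hL : 1 ≤ T ^ θ := Real.one_le_rpow (logT t3).2.1.le hθ.le
    have h2 := (h1 1 one_pos le_rfl T t3).1
    rw [abs_le] at h2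
    linarith [h2.2]
  · rintro ⟨B, hB⟩
    obtain ⟨C, hC, hw⟩ := win_bdd hPL hID hKB hMID h hr k
    rw [half_pow hk h hφ (by linarith)]
    refine ⟨C * (3 * B + 5), ?_⟩
    filter_upwards [hB, he1, hw, eventually_ge_atTop (Real.exp 1)] with T t1 t2 t4 t3
    obtain ⟨hT0, hT1, hL'⟩ := logT t3
    have hL : 1 ≤ T ^ θ := Real.one_le_rpow hT1.le hθ.le
    have h2 := (h1 1 one_pos le_rfl T t3).2
    rw [abs_le] at h2
    have h3 : Va φ k T + 1 ≤ (3 * B + 5) * T ^ θ := by linarith [h2.2]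
    calc mD φ k T ≤ C * (T * (Va φ k T + 1)) := t4
      _ ≤ C * (T * ((3 * B + 5) * T ^ θ)) := by gcongr
      _ = _ := by rw [Real.rpow_add hT0, Real.rpow_one]; ring

end

end Pool.Agent.K4H49.SV
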