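import Pool.Agent.K4H49.SV.Stm
import Pool.Agent.K4H90.CM.B

set_option autoImplicit false

/-!
# The variance of the divisor functions in short intervals: comparison of kernels
-/

namespace Pool.Agent.K4H49.SV

theorem s_bd : S_BD := CM.bd_core

theorem s_cm : S_CM := CM.cm_core

theorem s_ab : S_AB := CM.ab_core

end Pool.Agent.K4H49.SV
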