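import Pool.Agent.K4H66.HL.O

set_option autoImplicit false

/-!
# The variance of the divisor functions in short intervals: definitions

Notation of the library (helper66): `DP φ k T t = ∑ d_k(n) φ(log n / log T) n^(-1/2-it)`,
`kp φ L y = (1/2π) ∫ φ(v/L) e^(iyv) dv`, `KK κ f t = ∫ κ(y) f(t+y) dy`, `zr k 0 t = ζ(1/2+it)^k`,
`TS φ`: smooth with compact support.
-/

namespace Pool.Agent.K4H49.SV

open Complex MeasureTheory Filter Topology Set

noncomputable section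

/-- the residue of `ζ(s)^k y^(s-1)` at `s = 1` -/
def res (k : ℕ) (y : ℝ) : ℂ :=
  (2 * Real.pi * I)⁻¹ * ∮ s in C(1, 1 / 4), riemannZeta s ^ k * (y : ℂ) ^ (s - 1)

/-- the Mellin transform of the indicator function of `x < 1 ≤ (1+h) x` on the line `1/2` -/
def EE (h t : ℝ) : ℂ := (((1 + h : ℝ) : ℂ) ^ (1 / 2 + I * t : ℂ) - 1) / (1 / 2 + I * t)

/-- the deviation from the main term, for the interval `(x, (1+h) x]` -/
def dev (φ : ℝ → ℂ) (k : ℕ) (T h x : ℝ) : ℂ :=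
  ∑' n : ℕ, (if x < n ∧ (n : ℝ) ≤ (1 + h) * x then (W182.KO.dk k n : ℂ) * φ (Real.log n / Real.log T) else 0) -
    ∫ y in x..((1 + h) * x), res k y * φ (Real.log y / Real.log T)

/-- the variance over the intervals `(x, x + x/T]` -/
def Va (φ : ℝ → ℂ) (k : ℕ) (T : ℝ) : ℝ := T * ∫ x in Ioi (0 : ℝ), ‖dev φ k T (1 / T) x‖ ^ 2 / x ^ 2

end

end Pool.Agent.K4H49.SV
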