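import Pool.Agent.K4H49.SV.Stm
import Pool.Agent.K4H24.RS.Strip
import Pool.Agent.K4H24.RS.Pole

set_option autoImplicit false

/-! The smooth Dirichlet polynomial minus its pole term is the convolution of `ζ^k` on the critical line. -/

namespace Pool.Agent.K4H49.SV

open Complex MeasureTheory Filter Topology Set
open Pool.Agent.K4H66.HL Pool.Agent.K4H66.OL Pool.Agent.TH535.SM

noncomputable section

variable {φ : ℝ → ℂ}

/-- the kernel in the plane -/
def Gs (φ : ℝ → ℂ) (L t : ℝ) (s : ℂ) : ℂ :=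
  ((L / (2 * Real.pi) : ℝ) : ℂ) * W182.KO.P φ ((L : ℂ) * (s - (1 / 2 + I * t)))

/-- the numerator -/
def Ns (φ : ℝ → ℂ) (k : ℕ) (L t : ℝ) (s : ℂ) : ℂ := Gs φ L t s * Y s ^ k

lemma Gs_diff {X : ℝ} (hX : W182.KO.TF X φ) (L t : ℝ) : Differentiable ℂ (Gs φ L t) := by
  unfold Gs
  exact (differentiable_const _).mul ((W182.KO.P_diff hX).comp (by fun_prop))

lemma Ns_diff {X : ℝ} (hX : W182.KO.TF X φ) (k : ℕ) (L t : ℝ) : Differentiable ℂ (Ns φ k L t) :=
  (Gs_diff hX L t).mul (Y_diff.pow k)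

lemma Ns_eq (k : ℕ) (L t : ℝ) {s : ℂ} (hs : s ≠ 1) :
    Ns φ k L t s * ((s - 1) ^ k)⁻¹ = Gs φ L t s * riemannZeta s ^ k := by
  have hs' : s - 1 ≠ 0 := sub_ne_zero.2 hs
  unfold Ns
  rw [Y_eq hs, mul_pow]
  field_simp

lemma Gs_bound {X : ℝ} (hX0 : 0 ≤ X) (hX : W182.KO.TF X φ) (M : ℕ) (k : ℕ) {C L t : ℝ} (hC : 0 ≤ C)
    (hL : 1 ≤ L) : ∃ B : ℝ, 0 ≤ B ∧ ∀ s : ℂ, 1 / 2 ≤ s.re → s.re ≤ 3 / 2 →
      ‖riemannZeta s ^ k‖ ≤ C * (1 + |s.im|) ^ M → ‖Gs φ L t s * riemannZeta s ^ k‖ ≤ B / (1 + |s.im|) ^ 2 := by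
  obtain ⟨CN, hCN, hP⟩ := W182.KO.P_bound hX (M + 2)
  refine ⟨L * (CN * Real.exp (X * L)) * C * (1 + |t|) ^ (M + 2), by positivity, fun s h1 h2 h3 => ?_⟩
  set z : ℂ := (L : ℂ) * (s - (1 / 2 + I * t)) with hz
  have ere : z.re = L * (s.re - 1 / 2) := by
    rw [hz]
    simp
  have eim : z.im = L * (s.im - t) := by
    rw [hz]
    simp
  have h4 := hP z (by rw [ere]; exact mul_nonneg (by linarith) (by linarith))
  have h5 : Real.exp (X * z.re) ≤ Real.exp (X * L) := by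
    refine Real.exp_le_exp.2 (mul_le_mul_of_nonneg_left ?_ hX0)
    rw [ere]
    nlinarith
  have h6 : |s.im - t| ≤ ‖z‖ := by
    refine le_trans ?_ (Complex.abs_im_le_norm z)
    rw [eim, abs_mul, abs_of_pos (by linarith : 0 < L)]
    exact le_mul_of_one_le_left (abs_nonneg _) hL
  have h7 : 1 + |s.im| ≤ (1 + ‖z‖) * (1 + |t|) := by
    have a1 : |s.im| ≤ |s.im - t| + |t| := by
      have := abs_add_le (s.im - t) t
      rwa [sub_add_cancel] at this
    have a2 := abs_nonneg t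
    have a3 := norm_nonneg z
    nlinarith
  have h8 : ‖W182.KO.P φ z‖ * (1 + |s.im|) ^ (M + 2) ≤ CN * Real.exp (X * L) * (1 + |t|) ^ (M + 2) := by
    calc _ ≤ ‖W182.KO.P φ z‖ * ((1 + ‖z‖) * (1 + |t|)) ^ (M + 2) := by gcongr
      _ = (‖W182.KO.P φ z‖ * (1 + ‖z‖) ^ (M + 2)) * (1 + |t|) ^ (M + 2) := by rw [mul_pow]; ring
      _ ≤ (CN * Real.exp (X * z.re)) * (1 + |t|) ^ (M + 2) := by gcongr
      _ ≤ _ := by gcongr
  have hp : 0 < (1 + |s.im|) ^ 2 := by positivity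
  rw [le_div_iff₀ hp]
  unfold Gs
  rw [norm_mul, norm_mul, Complex.norm_real, Real.norm_of_nonneg (by positivity)]
  have h9 : L / (2 * Real.pi) ≤ L := div_le_self (by linarith) (by have := Real.pi_gt_three; linarith)
  calc L / (2 * Real.pi) * ‖W182.KO.P φ z‖ * ‖riemannZeta s ^ k‖ * (1 + |s.im|) ^ 2
      ≤ L * ‖W182.KO.P φ z‖ * (C * (1 + |s.im|) ^ M) * (1 + |s.im|) ^ 2 := by gcongr
    _ = L * C * (‖W182.KO.P φ z‖ * (1 + |s.im|) ^ (M + 2)) := by ring
    _ ≤ L * C * (CN * Real.exp (X * L) * (1 + |t|) ^ (M + 2)) := by gcongr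
    _ = _ := by ring

theorem s_id : S_ID := by
  intro φ h k T hT t
  obtain ⟨X, hX0, hX⟩ := h.tf
  have hT0 : 0 < T := (Real.exp_pos 1).trans_le hT
  have hL : 1 ≤ Real.log T := by rwa [Real.le_log_iff_exp_le hT0]
  set L := Real.log T with hLd
  have hL0 : 0 < L := by linarith
  have hp := Real.pi_pos
  set κ : ℝ := 1 / 8 with hκd
  have hκ : 0 < κ := by rw [hκd]; norm_num
  obtain ⟨D1, hD1, h1⟩ := W182.KO.tau_ptw k hκ
  obtain ⟨C1, G1⟩ := W182.KO.ZP_DF (fun _ : Fin k => (0:ℝ)) hκ hD1 (h1 _) (M := 2 * k) le_rfl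
    (le_refl (W182.KO.RR (fun _ : Fin k => (0:ℝ))))
  set R : ℝ := W182.KO.RR (fun _ : Fin k => (0:ℝ)) with hR
  have hc : (1 + 4 * κ : ℝ) = 3 / 2 := by rw [hκd]; norm_num
  rw [hc] at G1
  have hC1 := G1.hC
  obtain ⟨B, hB0, hB⟩ := Gs_bound (φ := φ) hX0 hX (2 * k) k (t := t) hC1 hL
  have hne : ∀ (x y : ℝ), x ≠ 1 → ((x : ℂ) + y * I) ≠ 1 := fun x y hx =>
    sub_ne_zero.1 (Pool.Agent.K4H24.RS.ne_v hx)
  have hR1 : 1 ≤ R := W182.KO.RR_pos _
  have key := Pool.Agent.K4H24.RS.strip_res (Ns_diff hX k L t) (a := 1 / 2) (b := 3 / 2) (B := B) (R := R)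
    (by norm_num) (by norm_num) k hB0
    (by
      intro s hs1 hs2 hs3
      have hs : s ≠ 1 := by
        intro h0
        rw [h0] at hs3
        simp only [one_im, abs_zero] at hs3
        linarith
      rw [Ns_eq k L t hs]
      refine hB s hs1 hs2 ?_
      have := G1.bd s hs1 hs2 hs3
      rwa [W182.KO.ZP_zero] at this)
    (by
      intro y
      rw [Ns_eq k L t (hne _ _ (by norm_num))]
      have e : ((((1 / 2 : ℝ) : ℂ) + y * I)).im = y := by simp
      have e' : ((((1 / 2 : ℝ) : ℂ) + y * I)).re = 1 / 2 := by simp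
      have := hB (((1 / 2 : ℝ) : ℂ) + y * I) (by rw [e']) (by rw [e']; norm_num) (by
        have h2 := G1.bdl y
        rw [W182.KO.ZP_zero] at h2
        rw [e]
        convert h2 using 4
        push_cast
        rfl)
      rwa [e] at this)
    (by
      intro y
      rw [Ns_eq k L t (hne _ _ (by norm_num))]
      have e : ((((3 / 2 : ℝ) : ℂ) + y * I)).im = y := by simp
      have e' : ((((3 / 2 : ℝ) : ℂ) + y * I)).re = 3 / 2 := by simp
      have := hB (((3 / 2 : ℝ) : ℂ) + y * I) (by rw [e']; norm_num) (by rw [e']) (by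
        have h2 := G1.bdc y
        rw [W182.KO.ZP_zero] at h2
        rw [e]
        refine h2.trans (le_mul_of_one_le_right hC1 (one_le_pow₀ ?_))
        have := abs_nonneg y
        linarith)
      rwa [e] at this)
  -- the far line
  have efar : (∫ y : ℝ, Ns φ k L t (((3 / 2 : ℝ) : ℂ) + y * I) * ((((3 / 2 : ℝ) : ℂ) + y * I - 1) ^ k)⁻¹) =
      DP φ k T t := by
    rw [← DP_K0 hX k hκ hT t, ← hLd]
    unfold W182.KO.K0
    rw [← integral_const_mul, ← integral_add_right_eq_self _ t]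
    refine integral_congr_ae (Eventually.of_forall fun y => ?_)
    simp only
    rw [Ns_eq k L t (hne _ _ (by norm_num)), W182.KO.ZP_zero, W182.KO.ZP_zero, pow_zero, mul_one, hc]
    unfold Gs
    have e1 : (L : ℂ) * (((3 / 2 : ℝ) : ℂ) + ((y + t : ℝ) : ℂ) * I - (1 / 2 + I * t)) =
        ((L * (3 / 2 - 1 / 2) : ℝ) : ℂ) + L * y * I := by
      push_cast
      ring
    rw [e1]
    ring
  have enear : (∫ y : ℝ, Ns φ k L t (((1 / 2 : ℝ) : ℂ) + y * I) * ((((1 / 2 : ℝ) : ℂ) + y * I - 1) ^ k)⁻¹) =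
      KK (kp φ L) (zr k 0) t := by
    unfold KK
    rw [← integral_add_right_eq_self _ t]
    refine integral_congr_ae (Eventually.of_forall fun y => ?_)
    simp only
    rw [Ns_eq k L t (hne _ _ (by norm_num))]
    unfold Gs kp zr
    have e1 : (L : ℂ) * (((1 / 2 : ℝ) : ℂ) + ((y + t : ℝ) : ℂ) * I - (1 / 2 + I * t)) = L * y * I := by
      push_cast
      ring
    have e2 : (((1 / 2 : ℝ) : ℂ) + ((y + t : ℝ) : ℂ) * I) = ((1 / 2 + 0 : ℝ) : ℂ) + ((t + y : ℝ) : ℂ) * I := by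
      push_cast
      ring
    rw [e1, e2]
  rw [efar, enear] at key
  -- the pole
  have hQ : ContinuousOn (fun s : ℂ => riemannZeta s ^ k) (Metric.sphere 1 (1 / 4)) := by
    refine ContinuousOn.pow (fun s hs => ?_) k
    refine (differentiableAt_riemannZeta ?_).continuousAt.continuousWithinAt
    rw [mem_sphere_iff_norm] at hs
    intro h0
    rw [h0] at hs
    norm_num at hs
  have hpole := Pool.Agent.K4H24.RS.pole_term hQ hX.cont hX.cs hL0 (1 / 2 + I * t)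
  have epole : ∫ y in Ioi (0:ℝ), res k y * φ (Real.log y / L) * (y : ℂ) ^ (-(1 / 2 + I * t) : ℂ) =
      -I * ∮ z in C((1 : ℂ), (1 / 4 : ℝ)), Ns φ k L t z * ((z - 1) ^ k)⁻¹ := by
    unfold res
    rw [hpole]
    have e3 : ∮ z in C((1 : ℂ), (1 / 4 : ℝ)), Ns φ k L t z * ((z - 1) ^ k)⁻¹ =
        ((2 * Real.pi : ℝ) : ℂ)⁻¹ * ∮ s in C((1 : ℂ), (1 / 4 : ℝ)), riemannZeta s ^ k *
          ((L : ℂ) * ∫ ξ : ℝ, φ ξ * cexp (ξ * ((L : ℂ) * (s - (1 / 2 + I * t))))) := by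
      rw [← circleIntegral.integral_const_mul]
      refine circleIntegral.integral_congr (by norm_num) fun z hz => ?_
      have hz1 : z ≠ 1 := by
        rw [mem_sphere_iff_norm] at hz
        intro h0
        rw [h0] at hz
        norm_num at hz
      rw [Ns_eq k L t hz1]
      unfold Gs W182.KO.P
      generalize (∫ ξ : ℝ, φ ξ * cexp (ξ * ((L : ℂ) * (z - (1 / 2 + I * t))))) = W
      push_cast
      have hpc : (Real.pi : ℂ) ≠ 0 := by exact_mod_cast hp.ne'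
      field_simp
    rw [e3, ← mul_assoc]
    congr 1
    push_cast
    have hI : I ≠ 0 := Complex.I_ne_zero
    have hpc : (Real.pi : ℂ) ≠ 0 := by exact_mod_cast hp.ne'
    field_simp
    rw [Complex.I_sq]
    norm_num
  rw [epole, ← key, ← mul_assoc]
  have : -I * I = 1 := by rw [neg_mul, Complex.I_mul_I]; ring
  rw [this]
  ring

end

end Pool.Agent.K4H49.SV
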