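import Mathlib

/-!
# The transform of a short interval and the integral of the square of the cardinal sine
-/

set_option autoImplicit false

namespace Pool.Agent.K4H49.SV.KBc

open Complex MeasureTheory Filter Topology Set

noncomputable section

/-- the Mellin transform of the indicator function of `x < 1 ≤ (1+h) x` on the line `1/2` -/
def E0 (h t : ℝ) : ℂ := (((1 + h : ℝ) : ℂ) ^ (1 / 2 + I * t : ℂ) - 1) / (1 / 2 + I * t)

theorem s_ne (t : ℝ) : (1 / 2 + I * t : ℂ) ≠ 0 := by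
  intro h
  have := congrArg Complex.re h
  simp at this

theorem continuous_E0 {h : ℝ} (hh : 0 < h) : Continuous (E0 h) := by
  have h1 : ((1 + h : ℝ) : ℂ) ≠ 0 := by exact_mod_cast (by linarith : (1 + h) ≠ 0)
  unfold E0
  have hs : Continuous fun t : ℝ => (1 / 2 + I * t : ℂ) := by fun_prop
  refine Continuous.div ?_ hs s_ne
  refine Continuous.sub ?_ continuous_const
  exact hs.const_cpow (Or.inl h1)

theorem norm_cpow_s {x : ℝ} (hx : 0 < x) (t : ℝ) :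
    ‖((x : ℝ) : ℂ) ^ (1 / 2 + I * t : ℂ)‖ = √x := by
  rw [Complex.norm_cpow_eq_rpow_re_of_pos hx, Real.sqrt_eq_rpow]
  congr 1
  simp

theorem norm_E0_le {h : ℝ} (hh : 0 < h) (t : ℝ) : ‖E0 h t‖ ≤ h := by
  have h1 : E0 h t = ∫ y in (1 : ℝ)..(1 + h), (y : ℂ) ^ (-(1 / 2) + I * t : ℂ) := by
    have h0 : (-(1 / 2) + I * t : ℂ) + 1 = 1 / 2 + I * t := by ring
    rw [integral_cpow (Or.inl (by simp; norm_num)), h0]
    unfold E0
    norm_num
  rw [h1]
  have h2 : ∀ y ∈ Set.uIoc (1 : ℝ) (1 + h), ‖(y : ℂ) ^ (-(1 / 2) + I * t : ℂ)‖ ≤ 1 := by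
    intro y hy
    rw [uIoc_of_le (by linarith)] at hy
    have hy1 : 1 < y := hy.1
    rw [Complex.norm_cpow_eq_rpow_re_of_pos (by linarith)]
    refine Real.rpow_le_one_of_one_le_of_nonpos hy1.le ?_
    simp
  have h3 := intervalIntegral.norm_integral_le_of_norm_le_const h2
  rwa [one_mul, add_sub_cancel_left, abs_of_pos hh] at h3

theorem normSq_s (t : ℝ) : ‖(1 / 2 + I * t : ℂ)‖ ^ 2 = 1 / 4 + t ^ 2 := by
  rw [← Complex.normSq_eq_norm_sq, Complex.normSq_apply]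
  simp
  ring

theorem abs_le_norm_s (t : ℝ) : |t| ≤ ‖(1 / 2 + I * t : ℂ)‖ := by
  have h := Complex.abs_im_le_norm (1 / 2 + I * t : ℂ)
  simpa using h

theorem norm_E0_mul_le {h : ℝ} (hh : 0 < h) (hh1 : h ≤ 1) (t : ℝ) : ‖E0 h t‖ * |t| ≤ 3 := by
  have h0 : 0 < ‖(1 / 2 + I * t : ℂ)‖ := norm_pos_iff.2 (s_ne t)
  have h1 : ‖((1 + h : ℝ) : ℂ) ^ (1 / 2 + I * t : ℂ) - 1‖ ≤ 3 := by
    refine (norm_sub_le _ _).trans ?_
    rw [norm_cpow_s (by linarith), norm_one]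
    have : √(1 + h) ≤ 2 := Real.sqrt_le_iff.2 ⟨by norm_num, by linarith⟩
    linarith
  unfold E0
  rw [norm_div, div_mul_eq_mul_div, div_le_iff₀ h0]
  exact mul_le_mul h1 (abs_le_norm_s t) (abs_nonneg _) (by norm_num)

theorem E0_neg {h : ℝ} (hh : 0 < h) (t : ℝ) : ‖E0 h (-t)‖ = ‖E0 h t‖ := by
  have h1 : E0 h (-t) = (starRingEnd ℂ) (E0 h t) := by
    unfold E0
    have hs : (starRingEnd ℂ) (1 / 2 + I * t : ℂ) = (1 / 2 + I * ((-t : ℝ) : ℂ) : ℂ) := by
      apply Complex.ext <;> simp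
    rw [map_div₀, map_sub, map_one, hs]
    congr 2
    have h2 : ((1 + h : ℝ) : ℂ) ≠ 0 := by exact_mod_cast (by linarith : (1 + h) ≠ 0)
    rw [Complex.cpow_def_of_ne_zero h2, Complex.cpow_def_of_ne_zero h2, ← Complex.exp_conj,
      map_mul, hs, ← Complex.ofReal_log (by linarith), Complex.conj_ofReal]
  rw [h1, Complex.norm_conj]

theorem kb1 (h : ℝ) (hh : 0 < h) (hh1 : h ≤ 1) :
    Continuous (E0 h) ∧ ∀ t : ℝ, ‖E0 h t‖ ≤ h ∧ ‖E0 h t‖ * |t| ≤ 3 ∧ ‖E0 h (-t)‖ = ‖E0 h t‖ :=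
  ⟨continuous_E0 hh, fun t => ⟨norm_E0_le hh t, norm_E0_mul_le hh hh1 t, E0_neg hh t⟩⟩

/-- the exact formula -/
theorem normSq_E0 {h : ℝ} (hh : 0 < h) (t : ℝ) :
    ‖E0 h t‖ ^ 2 = ((√(1 + h) - 1) ^ 2 + 4 * √(1 + h) * Real.sin (t * Real.log (1 + h) / 2) ^ 2) /
      (1 / 4 + t ^ 2) := by
  unfold E0
  rw [norm_div, div_pow, normSq_s]
  congr 1
  have h2 : ((1 + h : ℝ) : ℂ) ≠ 0 := by exact_mod_cast (by linarith : (1 + h) ≠ 0)
  set θ : ℝ := t * Real.log (1 + h) with hθ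
  have h3 : ((1 + h : ℝ) : ℂ) ^ (1 / 2 + I * t : ℂ) = (√(1 + h) : ℂ) * Complex.exp (θ * I) := by
    rw [Complex.cpow_add _ _ h2]
    congr 1
    · rw [Real.sqrt_eq_rpow, Complex.ofReal_cpow (by linarith)]
      norm_num
    · rw [Complex.cpow_def_of_ne_zero h2, ← Complex.ofReal_log (by linarith), hθ]
      congr 1
      push_cast
      ring
  rw [h3, ← Complex.normSq_eq_norm_sq, Complex.normSq_apply, Complex.exp_mul_I]
  have h4 : ((√(1 + h) : ℂ) * (Complex.cos θ + Complex.sin θ * I) - 1).re =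
      √(1 + h) * Real.cos θ - 1 := by
    simp [Complex.cos_ofReal_re, Complex.sin_ofReal_re, Complex.cos_ofReal_im,
      Complex.sin_ofReal_im]
  have h5 : ((√(1 + h) : ℂ) * (Complex.cos θ + Complex.sin θ * I) - 1).im =
      √(1 + h) * Real.sin θ := by
    simp [Complex.cos_ofReal_re, Complex.sin_ofReal_re, Complex.cos_ofReal_im,
      Complex.sin_ofReal_im]
  rw [h4, h5]
  have h6 : Real.sin (θ / 2) ^ 2 = (1 - Real.cos θ) / 2 := by
    have h7 := Real.cos_sq (θ / 2)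
    have h8 : 2 * (θ / 2) = θ := by ring
    rw [h8] at h7
    have h9 := Real.sin_sq_add_cos_sq (θ / 2)
    linarith
  rw [h6]
  have h10 := Real.sin_sq_add_cos_sq θ
  linear_combination (√(1 + h) ^ 2) * h10

theorem abs_sin_sq_sub (x y : ℝ) : |Real.sin x ^ 2 - Real.sin y ^ 2| ≤ |x - y| := by
  have h1 : Real.sin x ^ 2 - Real.sin y ^ 2 = Real.sin (x + y) * Real.sin (x - y) := by
    rw [Real.sin_add, Real.sin_sub]
    have hx := Real.sin_sq_add_cos_sq x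
    have hy := Real.sin_sq_add_cos_sq y
    have : Real.sin x ^ 2 - Real.sin y ^ 2 = Real.sin x ^ 2 * (Real.sin y ^ 2 + Real.cos y ^ 2) -
      Real.sin y ^ 2 * (Real.sin x ^ 2 + Real.cos x ^ 2) := by rw [hx, hy]; ring
    rw [this]; ring
  rw [h1, abs_mul]
  calc |Real.sin (x + y)| * |Real.sin (x - y)| ≤ 1 * |x - y| :=
        mul_le_mul (Real.abs_sin_le_one _) (Real.abs_sin_le_abs) (abs_nonneg _) zero_le_one
    _ = |x - y| := one_mul _

theorem kb2 (κ a b : ℝ) (hκ : 0 < κ) (ha : 0 < a) (hab : a < b) (ε : ℝ) (hε : 0 < ε) :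
    ∀ᶠ T : ℝ in atTop, ∀ u ∈ Icc a b,
      |T ^ 2 * ‖E0 (κ / T) (u * T)‖ ^ 2 - 4 * Real.sin (κ * u / 2) ^ 2 / u ^ 2| ≤ ε := by
  have hb : 0 < b := ha.trans hab
  -- the three parameters
  have hp : Tendsto (fun T : ℝ => √(1 + κ / T)) atTop (𝓝 1) := by
    have h1 : Tendsto (fun T : ℝ => 1 + κ / T) atTop (𝓝 (1 + 0)) :=
      tendsto_const_nhds.add (tendsto_const_nhds.div_atTop tendsto_id)
    have h2 := (Real.continuous_sqrt.tendsto _).comp h1
    simpa [Function.comp_def] using h2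
  have hq : Tendsto (fun T : ℝ => 1 / (4 * T ^ 2)) atTop (𝓝 0) :=
    tendsto_const_nhds.div_atTop ((tendsto_pow_atTop two_ne_zero).const_mul_atTop (by norm_num))
  have hθ : Tendsto (fun T : ℝ => T * Real.log (1 + κ / T)) atTop (𝓝 κ) := by
    refine Real.tendsto_mul_log_one_add_of_tendsto ?_
    refine tendsto_const_nhds.congr' ?_
    filter_upwards [eventually_gt_atTop 0] with T hT
    field_simp
  have hδ : Tendsto (fun T : ℝ => ((√(1 + κ / T) - 1) ^ 2 + 4 * |√(1 + κ / T) - 1| +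
      2 * |T * Real.log (1 + κ / T) - κ| * b) / a ^ 2 + 4 * (1 / (4 * T ^ 2)) / a ^ 4) atTop
      (𝓝 (((1 - 1) ^ 2 + 4 * |(1 : ℝ) - 1| + 2 * |κ - κ| * b) / a ^ 2 + 4 * 0 / a ^ 4)) := by
    refine Tendsto.add (Tendsto.div_const ?_ _) ((tendsto_const_nhds.mul hq).div_const _)
    refine Tendsto.add (Tendsto.add ((hp.sub_const 1).pow 2) (tendsto_const_nhds.mul
      (hp.sub_const 1).abs)) ((tendsto_const_nhds.mul (hθ.sub_const κ).abs).mul_const b)
  have h0 : ((1 - 1) ^ 2 + 4 * |(1 : ℝ) - 1| + 2 * |κ - κ| * b) / a ^ 2 + 4 * 0 / a ^ 4 = 0 := by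
    simp
  rw [h0] at hδ
  filter_upwards [eventually_gt_atTop 0, hδ.eventually (eventually_le_nhds hε)] with T hT hle u hu
  refine le_trans ?_ hle
  have hu0 : 0 < u := lt_of_lt_of_le ha hu.1
  set p := √(1 + κ / T) with hpdef
  set θ := T * Real.log (1 + κ / T) with hθdef
  set q := 1 / (4 * T ^ 2) with hqdef
  have hq0 : 0 < q := by positivity
  have hp0 : 0 ≤ p := Real.sqrt_nonneg _
  have hform : T ^ 2 * ‖E0 (κ / T) (u * T)‖ ^ 2 =
      ((p - 1) ^ 2 + 4 * p * Real.sin (θ * u / 2) ^ 2) / (u ^ 2 + q) := by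
    rw [normSq_E0 (by positivity), ← hpdef]
    have h1 : u * T * Real.log (1 + κ / T) / 2 = θ * u / 2 := by rw [hθdef]; ring
    rw [h1, hqdef]
    field_simp
    ring
  rw [hform]
  set N := (p - 1) ^ 2 + 4 * p * Real.sin (θ * u / 2) ^ 2 with hN
  set N0 := 4 * Real.sin (κ * u / 2) ^ 2 with hN0
  have hN0le : N0 ≤ 4 := by
    have := Real.sin_sq_le_one (κ * u / 2)
    linarith
  have hN00 : 0 ≤ N0 := by positivity
  have hdiff : |N - N0| ≤ (p - 1) ^ 2 + 4 * |p - 1| + 2 * |θ - κ| * b := by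
    have e1 : N - N0 = (p - 1) ^ 2 + 4 * (p - 1) * Real.sin (θ * u / 2) ^ 2 +
        4 * (Real.sin (θ * u / 2) ^ 2 - Real.sin (κ * u / 2) ^ 2) := by
      rw [hN, hN0]; ring
    rw [e1]
    have e2 : |4 * (p - 1) * Real.sin (θ * u / 2) ^ 2| ≤ 4 * |p - 1| := by
      rw [abs_mul, abs_mul, abs_of_nonneg (sq_nonneg (Real.sin (θ * u / 2)))]
      have := Real.sin_sq_le_one (θ * u / 2)
      have h4 : |(4 : ℝ)| = 4 := abs_of_pos (by norm_num)
      rw [h4]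
      nlinarith [abs_nonneg (p - 1), sq_nonneg (Real.sin (θ * u / 2))]
    have e3 : |4 * (Real.sin (θ * u / 2) ^ 2 - Real.sin (κ * u / 2) ^ 2)| ≤ 2 * |θ - κ| * b := by
      rw [abs_mul, abs_of_pos (by norm_num : (0 : ℝ) < 4)]
      have h1 := abs_sin_sq_sub (θ * u / 2) (κ * u / 2)
      have h2 : |θ * u / 2 - κ * u / 2| = |θ - κ| * u / 2 := by
        rw [show θ * u / 2 - κ * u / 2 = (θ - κ) * (u / 2) by ring, abs_mul,
          abs_of_pos (by positivity : (0 : ℝ) < u / 2)]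
        ring
      rw [h2] at h1
      have h3 : |θ - κ| * u ≤ |θ - κ| * b := mul_le_mul_of_nonneg_left hu.2 (abs_nonneg _)
      linarith
    calc _ ≤ |(p - 1) ^ 2 + 4 * (p - 1) * Real.sin (θ * u / 2) ^ 2| +
          |4 * (Real.sin (θ * u / 2) ^ 2 - Real.sin (κ * u / 2) ^ 2)| := abs_add_le _ _
      _ ≤ |(p - 1) ^ 2| + |4 * (p - 1) * Real.sin (θ * u / 2) ^ 2| +
          |4 * (Real.sin (θ * u / 2) ^ 2 - Real.sin (κ * u / 2) ^ 2)| := by
        gcongr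
        exact abs_add_le _ _
      _ ≤ (p - 1) ^ 2 + 4 * |p - 1| + 2 * |θ - κ| * b := by
        rw [abs_of_nonneg (sq_nonneg _)]
        linarith
  have hsplit : N / (u ^ 2 + q) - N0 / u ^ 2 = (N - N0) / (u ^ 2 + q) - N0 * q / (u ^ 2 * (u ^ 2 + q)) := by
    field_simp
    ring
  have hau : a ^ 2 ≤ u ^ 2 := pow_le_pow_left₀ ha.le hu.1 2
  rw [hsplit]
  refine (abs_sub _ _).trans ?_
  refine add_le_add ?_ ?_
  · rw [abs_div, abs_of_pos (by positivity : 0 < u ^ 2 + q)]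
    have h2 : a ^ 2 ≤ u ^ 2 + q := by linarith
    exact div_le_div₀ (by positivity) hdiff (by positivity) h2
  · rw [abs_of_nonneg (by positivity)]
    have h2 : a ^ 4 ≤ u ^ 2 * (u ^ 2 + q) := by
      have : a ^ 4 = a ^ 2 * a ^ 2 := by ring
      rw [this]
      exact mul_le_mul hau (by linarith) (by positivity) (by positivity)
    exact div_le_div₀ (by positivity) (mul_le_mul_of_nonneg_right hN0le hq0.le) (by positivity) h2

end

end Pool.Agent.K4H49.SV.KBc
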