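import Mathlib

/-!
# The integral of the square of the cardinal sine, by Laplace transforms
-/

set_option autoImplicit false

namespace Pool.Agent.K4H49.SV.KBc

open MeasureTheory Filter Topology Set

noncomputable section

theorem int_t {v : ℝ} (hv : 0 < v) : ∫ t in Ioi (0 : ℝ), t * Real.exp (-(v * t)) = 1 / v ^ 2 := by
  have h := Real.integral_rpow_mul_exp_neg_mul_Ioi (a := 2) (r := v) (by norm_num) hv
  have h2 : ∀ t ∈ Ioi (0 : ℝ), t ^ ((2 : ℝ) - 1) * Real.exp (-(v * t)) =
      t * Real.exp (-(v * t)) := by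
    intro t _
    norm_num
  rw [setIntegral_congr_fun measurableSet_Ioi h2] at h
  rw [h]
  have h3 : Real.Gamma 2 = 1 := Real.Gamma_two
  rw [h3, mul_one, div_rpow_two]
where
  div_rpow_two : (1 / v) ^ (2 : ℝ) = 1 / v ^ 2 := by
    rw [show (2 : ℝ) = ((2 : ℕ) : ℝ) by norm_num, Real.rpow_natCast]
    ring

theorem int_v {t : ℝ} (ht : 0 < t) :
    ∫ v in Ioi (0 : ℝ), Real.exp (-(v * t)) * Real.sin v ^ 2 = 2 / (t * (t ^ 2 + 4)) := by
  set G : ℝ → ℝ := fun v => Real.exp (-(v * t)) *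
    (-(1 / (2 * t)) + (t * Real.cos (2 * v) - 2 * Real.sin (2 * v)) / (2 * (t ^ 2 + 4))) with hG
  have hd : ∀ x ∈ Ici (0 : ℝ), HasDerivAt G (Real.exp (-(x * t)) * Real.sin x ^ 2) x := by
    intro x _
    have h1 : HasDerivAt (fun v : ℝ => Real.exp (-(v * t))) (Real.exp (-(x * t)) * (-(1 * t))) x :=
      (((hasDerivAt_id x).mul_const t).neg).exp
    have h0 : HasDerivAt (fun v : ℝ => 2 * v) (2 * 1) x := (hasDerivAt_id x).const_mul 2
    have h2 : HasDerivAt (fun v : ℝ => Real.cos (2 * v)) (-Real.sin (2 * x) * (2 * 1)) x := h0.cos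
    have h3 : HasDerivAt (fun v : ℝ => Real.sin (2 * v)) (Real.cos (2 * x) * (2 * 1)) x := h0.sin
    have h4 := (((h2.const_mul t).sub (h3.const_mul 2)).div_const (2 * (t ^ 2 + 4))).const_add
      (-(1 / (2 * t)))
    have h5 := h1.mul h4
    refine h5.congr_deriv ?_
    have h6 : Real.sin x ^ 2 = (1 - Real.cos (2 * x)) / 2 := by
      rw [Real.cos_two_mul]
      have := Real.sin_sq_add_cos_sq x
      linarith
    rw [h6]
    simp only [Pi.sub_apply]
    field_simp
    ring
  have hlim : Tendsto G atTop (𝓝 0) := by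
    have h1 : Tendsto (fun v : ℝ => Real.exp (-(v * t))) atTop (𝓝 0) :=
      Real.tendsto_exp_neg_atTop_nhds_zero.comp (tendsto_id.atTop_mul_const ht)
    refine h1.zero_mul_isBoundedUnder_le ?_
    refine isBoundedUnder_of ⟨1 / (2 * t) + (t + 2) / (2 * (t ^ 2 + 4)), fun v => ?_⟩
    show ‖-(1 / (2 * t)) + (t * Real.cos (2 * v) - 2 * Real.sin (2 * v)) / (2 * (t ^ 2 + 4))‖ ≤ _
    refine (norm_add_le _ _).trans (add_le_add ?_ ?_)
    · rw [norm_neg, Real.norm_of_nonneg (by positivity)]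
    · rw [norm_div, Real.norm_of_nonneg (by positivity : 0 ≤ 2 * (t ^ 2 + 4))]
      refine div_le_div_of_nonneg_right ?_ (by positivity)
      refine (norm_sub_le _ _).trans ?_
      rw [norm_mul, norm_mul, Real.norm_of_nonneg ht.le, Real.norm_of_nonneg (zero_le_two (α := ℝ)),
        Real.norm_eq_abs, Real.norm_eq_abs]
      have h2 := Real.abs_cos_le_one (2 * v)
      have h3 := Real.abs_sin_le_one (2 * v)
      nlinarith
  have h := integral_Ioi_of_hasDerivAt_of_nonneg' hd (fun x _ => by positivity) hlim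
  rw [h, hG]
  simp only [zero_mul, neg_zero, Real.exp_zero, mul_zero, Real.cos_zero, Real.sin_zero]
  field_simp
  ring

theorem int_last : ∫ t in Ioi (0 : ℝ), 2 / (t ^ 2 + 4) = Real.pi / 2 := by
  have hd : ∀ x ∈ Ici (0 : ℝ), HasDerivAt (fun t : ℝ => Real.arctan (t / 2)) (2 / (x ^ 2 + 4)) x := by
    intro x _
    have h1 : HasDerivAt (fun t : ℝ => t / 2) (1 / 2) x := (hasDerivAt_id x).div_const 2
    refine h1.arctan.congr_deriv ?_
    field_simp
    ring
  have hlim : Tendsto (fun t : ℝ => Real.arctan (t / 2)) atTop (𝓝 (Real.pi / 2)) :=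
    (Real.tendsto_arctan_atTop.mono_right nhdsWithin_le_nhds).comp
      (tendsto_id.atTop_div_const (by norm_num))
  have h := integral_Ioi_of_hasDerivAt_of_nonneg' hd (fun x _ => by positivity) hlim
  rw [h]
  simp

theorem integral_sin_sq_div : ∫ v in Ioi (0 : ℝ), Real.sin v ^ 2 / v ^ 2 = Real.pi / 2 := by
  have hnn : 0 ≤ᵐ[volume.restrict (Ioi (0 : ℝ))] fun v : ℝ => Real.sin v ^ 2 / v ^ 2 :=
    Eventually.of_forall fun v => by positivity
  have hm : AEStronglyMeasurable (fun v : ℝ => Real.sin v ^ 2 / v ^ 2)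
      (volume.restrict (Ioi (0 : ℝ))) := by
    apply Measurable.aestronglyMeasurable
    fun_prop
  rw [integral_eq_lintegral_of_nonneg_ae hnn hm]
  have hI1 : ∀ v ∈ Ioi (0 : ℝ), IntegrableOn (fun t : ℝ => t * Real.exp (-(v * t))) (Ioi 0) := by
    intro v hv
    refine Integrable.of_integral_ne_zero ?_
    rw [int_t hv]
    have : (0 : ℝ) < v := hv
    positivity
  have hI2 : ∀ t ∈ Ioi (0 : ℝ), IntegrableOn (fun v : ℝ => Real.exp (-(v * t)) * Real.sin v ^ 2)
      (Ioi 0) := by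
    intro t ht
    refine Integrable.of_integral_ne_zero ?_
    rw [int_v ht]
    have : (0 : ℝ) < t := ht
    positivity
  have e1 : ∫⁻ v in Ioi (0 : ℝ), ENNReal.ofReal (Real.sin v ^ 2 / v ^ 2) =
      ∫⁻ v in Ioi (0 : ℝ), ∫⁻ t in Ioi (0 : ℝ),
        ENNReal.ofReal (Real.sin v ^ 2 * (t * Real.exp (-(v * t)))) := by
    refine setLIntegral_congr_fun measurableSet_Ioi fun v hv => ?_
    rw [← ofReal_integral_eq_lintegral_ofReal ((hI1 v hv).const_mul _)]
    · rw [integral_const_mul, int_t hv]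
      congr 1
      ring
    · filter_upwards [self_mem_ae_restrict measurableSet_Ioi] with t ht
      have : (0 : ℝ) < t := ht
      positivity
  have e2 : ∫⁻ t in Ioi (0 : ℝ), ENNReal.ofReal (2 / (t ^ 2 + 4)) =
      ∫⁻ t in Ioi (0 : ℝ), ∫⁻ v in Ioi (0 : ℝ),
        ENNReal.ofReal (Real.sin v ^ 2 * (t * Real.exp (-(v * t)))) := by
    refine setLIntegral_congr_fun measurableSet_Ioi fun t ht => ?_
    have ht0 : (0 : ℝ) < t := ht
    have h1 : ∀ v : ℝ, Real.sin v ^ 2 * (t * Real.exp (-(v * t))) =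
        t * (Real.exp (-(v * t)) * Real.sin v ^ 2) := fun v => by ring
    simp only [h1]
    rw [← ofReal_integral_eq_lintegral_ofReal ((hI2 t ht).const_mul _)]
    · rw [integral_const_mul, int_v ht]
      congr 1
      field_simp
    · exact Eventually.of_forall fun v => by positivity
  have e3 : ∫⁻ t in Ioi (0 : ℝ), ENNReal.ofReal (2 / (t ^ 2 + 4)) = ENNReal.ofReal (Real.pi / 2) := by
    rw [← int_last, ofReal_integral_eq_lintegral_ofReal]
    · refine Integrable.of_integral_ne_zero ?_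
      rw [int_last]
      positivity
    · exact Eventually.of_forall fun v => by positivity
  rw [e1, lintegral_lintegral_swap, ← e2, e3, ENNReal.toReal_ofReal (by positivity)]
  apply Measurable.aemeasurable
  unfold Function.uncurry
  fun_prop

theorem sin_core (κ : ℝ) (hκ : 0 < κ) :
    ∫ u in Ioi (0 : ℝ), 4 * Real.sin (κ * u / 2) ^ 2 / u ^ 2 = Real.pi * κ := by
  have h1 := integral_comp_mul_left_Ioi (fun v : ℝ => Real.sin v ^ 2 / v ^ 2) 0
    (b := κ / 2) (by positivity)
  rw [mul_zero, integral_sin_sq_div] at h1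
  have h2 : ∀ u : ℝ, 4 * Real.sin (κ * u / 2) ^ 2 / u ^ 2 =
      κ ^ 2 * (Real.sin (κ / 2 * u) ^ 2 / (κ / 2 * u) ^ 2) := by
    intro u
    have h3 : κ * u / 2 = κ / 2 * u := by ring
    rw [h3]
    rcases eq_or_ne u 0 with hu | hu
    · subst hu; simp
    · field_simp
      ring
  simp only [h2]
  rw [integral_const_mul, h1, smul_eq_mul]
  field_simp

end

end Pool.Agent.K4H49.SV.KBc
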