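import Pool.Agent.K4H49.SV.Stm
import Pool.Agent.K4H49.SV.KBcore
import Pool.Agent.K4H49.SV.KBsin

/-!
# Piece KB
-/

set_option autoImplicit false

namespace Pool.Agent.K4H49.SV

open MeasureTheory Filter Topology Set

noncomputable section

theorem s_kb : S_KB :=
  ⟨fun h h0 h1 => KBc.kb1 h h0 h1, fun κ a b hκ ha hab ε hε => KBc.kb2 κ a b hκ ha hab ε hε⟩

theorem s_sin : S_SIN := fun κ hκ => KBc.sin_core κ hκ

end

end Pool.Agent.K4H49.SV
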