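import Pool.Agent.K4H49.SV.Stm

set_option autoImplicit false

/-!
# Mean squares of convolutions, and the kernel as a function of the parameter
-/

namespace Pool.Agent.K4H49.SV

open Complex MeasureTheory Filter Topology Set
open Pool.Agent.K4H66.HL Pool.Agent.K4H66.OL Pool.Agent.TH535.SM
open scoped ContDiff ENNReal

noncomputable section

lemma cv_int {L : ℝ} (hL : 1 ≤ L) : Integrable (fun y : ℝ => L * ((1 + |L * y|) ^ 2)⁻¹) ∧
    ∫ y : ℝ, L * ((1 + |L * y|) ^ 2)⁻¹ = ∫ y : ℝ, ((1 + |y|) ^ 2)⁻¹ := by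
  have hL0 : 0 < L := by linarith
  refine ⟨(inv_sq_int.comp_mul_left' hL0.ne').const_mul L, ?_⟩
  rw [integral_const_mul]
  have := Measure.integral_comp_mul_left (fun y : ℝ => ((1 + |y|) ^ 2)⁻¹) L
  rw [this, abs_of_pos (inv_pos.2 hL0), smul_eq_mul]
  field_simp

lemma kap_le {p : ℕ} {L A : ℝ} {κ : ℝ → ℂ} (hL : 1 ≤ L) (hA : 0 ≤ A)
    (hκ : ∀ y : ℝ, ‖κ y‖ ≤ A * (L / (1 + |L * y|) ^ (p + 3))) (y : ℝ) :
    ‖κ y‖ * (1 + |y|) ^ (p + 1) ≤ A * (L * ((1 + |L * y|) ^ 2)⁻¹) := by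
  have h1 : 1 + |y| ≤ 1 + |L * y| := by
    rw [abs_mul, abs_of_pos (show (0 : ℝ) < L by linarith)]
    nlinarith [abs_nonneg y]
  have h2 : (1 + |y|) ^ (p + 1) ≤ (1 + |L * y|) ^ (p + 1) := by gcongr
  have hp : 0 < 1 + |L * y| := by positivity
  calc ‖κ y‖ * (1 + |y|) ^ (p + 1) ≤ (A * (L / (1 + |L * y|) ^ (p + 3))) * (1 + |L * y|) ^ (p + 1) := by
        gcongr
        exact hκ y
    _ = _ := by
        field_simp
        ring

lemma kap_le' {p : ℕ} {L A : ℝ} {κ : ℝ → ℂ} (hL : 1 ≤ L) (hA : 0 ≤ A)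
    (hκ : ∀ y : ℝ, ‖κ y‖ ≤ A * (L / (1 + |L * y|) ^ (p + 3))) (y : ℝ) :
    ‖κ y‖ ≤ A * (L * ((1 + |L * y|) ^ 2)⁻¹) := by
  refine le_trans ?_ (kap_le hL hA hκ y)
  exact le_mul_of_one_le_right (norm_nonneg _) (one_le_pow₀ (by have := abs_nonneg y; linarith))

lemma KK_cont {z : ℝ → ℂ} (hz : Continuous z) {C0 : ℝ} {p : ℕ} (hC0 : 1 ≤ C0)
    (hb : ∀ t, ‖z t‖ ^ 2 ≤ C0 * (1 + |t|) ^ p) {L A : ℝ} {κ : ℝ → ℂ} (hL : 1 ≤ L) (hA : 0 ≤ A)
    (hc : Continuous κ) (hκ : ∀ y : ℝ, ‖κ y‖ ≤ A * (L / (1 + |L * y|) ^ (p + 3))) :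
    Continuous (KK κ z) := by
  have hb1 : ∀ t, ‖z t‖ ≤ C0 * (1 + |t|) ^ p := by
    intro t
    have h1 : 1 ≤ C0 * (1 + |t|) ^ p :=
      one_le_mul_of_one_le_of_one_le hC0 (one_le_pow₀ (by have := abs_nonneg t; linarith))
    by_contra h2
    push Not at h2
    have h3 := hb t
    nlinarith [norm_nonneg (z t)]
  rw [continuous_iff_continuousAt]
  intro t0
  have hi := (cv_int hL).1
  refine continuousAt_of_dominated (bound := fun y => (C0 * (2 + |t0|) ^ p * A) * (L * ((1 + |L * y|) ^ 2)⁻¹))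
    (Eventually.of_forall fun t => ?_) ?_ (hi.const_mul _) (Eventually.of_forall fun y => ?_)
  · exact (hc.mul (hz.comp (by fun_prop))).aestronglyMeasurable
  · filter_upwards [Metric.ball_mem_nhds t0 one_pos] with t ht
    refine Eventually.of_forall fun y => ?_
    have ht' : |t| ≤ |t0| + 1 := by
      rw [Metric.mem_ball, Real.dist_eq] at ht
      have := abs_sub_abs_le_abs_sub t t0
      linarith
    have h1 : 1 + |t + y| ≤ (2 + |t0|) * (1 + |y|) := by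
      have h2 := abs_add_le t y
      nlinarith [mul_nonneg (abs_nonneg t0) (abs_nonneg y), abs_nonneg y]
    rw [norm_mul]
    calc ‖κ y‖ * ‖z (t + y)‖ ≤ ‖κ y‖ * (C0 * (1 + |t + y|) ^ p) := by
          gcongr; exact hb1 _
      _ ≤ ‖κ y‖ * (C0 * ((2 + |t0|) * (1 + |y|)) ^ p) := by gcongr
      _ = (C0 * (2 + |t0|) ^ p) * (‖κ y‖ * (1 + |y|) ^ p) := by rw [mul_pow]; ring
      _ ≤ (C0 * (2 + |t0|) ^ p) * (‖κ y‖ * (1 + |y|) ^ (p + 1)) := by
          gcongr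
          · have := abs_nonneg y; linarith
          · omega
      _ ≤ (C0 * (2 + |t0|) ^ p) * (A * (L * ((1 + |L * y|) ^ 2)⁻¹)) :=
          mul_le_mul_of_nonneg_left (kap_le hL hA hκ y) (by positivity)
      _ = _ := by ring
  · exact (continuous_const.mul (hz.comp (by fun_prop))).continuousAt

lemma mid_core {z : ℝ → ℂ} (hz : Continuous z) {C0 : ℝ} {p : ℕ} (hC0 : 1 ≤ C0)
    (hb : ∀ t, ‖z t‖ ^ 2 ≤ C0 * (1 + |t|) ^ p) {L A : ℝ} {κ : ℝ → ℂ} (hL : 1 ≤ L) (hA : 0 ≤ A)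
    (hc : Continuous κ) (hκ : ∀ y : ℝ, ‖κ y‖ ≤ A * (L / (1 + |L * y|) ^ (p + 3))) {U : ℝ}
    (hU : 1 ≤ U) :
    ∫ t in (-U)..U, ‖KK κ z t‖ ^ 2 ≤ ((∫ y : ℝ, ((1 + |y|) ^ 2)⁻¹) ^ 2 * (1 + 2 ^ (p + 1) * C0)) * A ^ 2 *
      (1 + ∫ t in (-(2 * U))..(2 * U), ‖z t‖ ^ 2) := by
  set J : ℝ := ∫ y : ℝ, ((1 + |y|) ^ 2)⁻¹ with hJ
  have hJ0 : 0 ≤ J := integral_nonneg fun y => by positivity
  set M : ℝ := ∫ t in (-(2 * U))..(2 * U), ‖z t‖ ^ 2 with hM
  have hM0 : 0 ≤ M := intervalIntegral.integral_nonneg (by linarith) fun t _ => by positivity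
  set C1 : ℝ := 2 ^ (p + 1) * C0 with hC1
  have hC10 : 0 ≤ C1 := by positivity
  obtain ⟨hi, hie⟩ := cv_int hL
  -- the inner integral
  have hin : ∀ y : ℝ, ∫ t in (-U)..U, ‖z (t + y)‖ ^ 2 ≤ M + C1 * (1 + |y|) ^ (p + 1) := by
    intro y
    rcases le_or_gt |y| U with hy | hy
    · have hy1 := (abs_le.1 hy).1
      have hy2 := (abs_le.1 hy).2
      have h1 : ∫ t in (-U)..U, ‖z (t + y)‖ ^ 2 = ∫ t in (-U + y)..(U + y), ‖z t‖ ^ 2 :=
        intervalIntegral.integral_comp_add_right (fun t => ‖z t‖ ^ 2) y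
      rw [h1]
      have h2 : ∫ t in (-U + y)..(U + y), ‖z t‖ ^ 2 ≤ M := by
        refine intervalIntegral.integral_mono_interval (by linarith) (by linarith) (by linarith)
          (Eventually.of_forall fun t => by positivity) ?_
        exact (hz.norm.pow 2).intervalIntegrable _ _
      have : 0 ≤ C1 * (1 + |y|) ^ (p + 1) := by positivity
      linarith
    · have h1 : ∫ t in (-U)..U, ‖z (t + y)‖ ^ 2 ≤ ∫ t in (-U)..U, C0 * (1 + 2 * |y|) ^ p := by
        refine intervalIntegral.integral_mono_on (by linarith) ?_ (by simp) ?_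
        · exact ((hz.comp (by fun_prop : Continuous fun t : ℝ => t + y)).norm.pow 2).intervalIntegrable _ _
        · intro t ht
          refine (hb _).trans ?_
          gcongr
          have h2 := abs_add_le t y
          have h3 : |t| ≤ U := abs_le.2 ⟨ht.1, ht.2⟩
          linarith
      rw [intervalIntegral.integral_const, smul_eq_mul] at h1
      have h4 : (1 + 2 * |y|) ^ p ≤ 2 ^ p * (1 + |y|) ^ p := by
        rw [← mul_pow]
        gcongr
        have := abs_nonneg y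
        linarith
      have h5 : (U - -U) * (C0 * (1 + 2 * |y|) ^ p) ≤ (2 * (1 + |y|)) * (C0 * (2 ^ p * (1 + |y|) ^ p)) := by
        gcongr
        linarith
      have h6 : (2 * (1 + |y|)) * (C0 * (2 ^ p * (1 + |y|) ^ p)) = C1 * (1 + |y|) ^ (p + 1) := by
        rw [hC1, pow_succ, pow_succ]; ring
      linarith
  -- Cauchy-Schwarz
  set G : ℝ × ℝ → ℂ := fun q => (Ioc (-U) U).indicator (fun _ => z (q.1 + q.2)) q.1 with hG
  have hGm : Measurable G := by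
    have h1 : G = (Prod.fst ⁻¹' (Ioc (-U) U)).indicator (fun q : ℝ × ℝ => z (q.1 + q.2)) := by
      funext q
      simp only [hG, Set.indicator, mem_preimage]
    rw [h1]
    refine Measurable.indicator ?_ (measurable_fst measurableSet_Ioc)
    exact (hz.comp (by fun_prop : Continuous fun q : ℝ × ℝ => q.1 + q.2)).measurable
  have hcs := cs_ineq (κ := κ) (G := G) hc.measurable hGm
  have e1 : ∀ t : ℝ, ‖∫ y, κ y * G (t, y)‖ₑ ^ 2 = (Ioc (-U) U).indicator (fun t => ‖KK κ z t‖ₑ ^ 2) t := by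
    intro t
    by_cases ht : t ∈ Ioc (-U) U
    · simp only [hG, Set.indicator_of_mem ht, KK]
    · simp only [hG, Set.indicator_of_notMem ht, mul_zero, integral_zero, enorm_zero]
      simp
  have e2 : ∀ y t : ℝ, ‖G (t, y)‖ₑ ^ 2 = (Ioc (-U) U).indicator (fun t => ‖z (t + y)‖ₑ ^ 2) t := by
    intro y t
    by_cases ht : t ∈ Ioc (-U) U
    · simp only [hG, Set.indicator_of_mem ht]
    · simp only [hG, Set.indicator_of_notMem ht, enorm_zero]
      simp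
  simp_rw [e1, e2] at hcs
  rw [lintegral_indicator measurableSet_Ioc] at hcs
  simp_rw [lintegral_indicator (μ := volume) (measurableSet_Ioc (a := -U) (b := U))] at hcs
  have hKc := KK_cont hz hC0 hb hL hA hc hκ
  have conv : ∀ f : ℝ → ℂ, Continuous f → ∫⁻ t in Ioc (-U) U, ‖f t‖ₑ ^ 2 =
      ENNReal.ofReal (∫ t in (-U)..U, ‖f t‖ ^ 2) := by
    intro f hf
    rw [intervalIntegral.integral_of_le (by linarith), ofReal_integral_eq_lintegral_ofReal]
    · refine lintegral_congr fun t => ?_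
      rw [ENNReal.ofReal_pow (norm_nonneg _), ofReal_norm]
    · exact ((hf.norm.pow 2).intervalIntegrable _ _).1
    · exact Eventually.of_forall fun t => by positivity
  rw [conv _ hKc] at hcs
  have hin' : ∀ y : ℝ, ∫⁻ t in Ioc (-U) U, ‖z (t + y)‖ₑ ^ 2 =
      ENNReal.ofReal (∫ t in (-U)..U, ‖z (t + y)‖ ^ 2) := fun y =>
    conv (fun t => z (t + y)) (hz.comp (by fun_prop))
  simp_rw [hin'] at hcs
  -- the two factors
  have f1 : ∫⁻ y, ‖κ y‖ₑ ≤ ENNReal.ofReal (A * J) := by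
    calc ∫⁻ y, ‖κ y‖ₑ ≤ ∫⁻ y, ENNReal.ofReal (A * (L * ((1 + |L * y|) ^ 2)⁻¹)) := by
          refine lintegral_mono fun y => ?_
          rw [← ofReal_norm]
          exact ENNReal.ofReal_le_ofReal (kap_le' hL hA hκ y)
      _ = ENNReal.ofReal (∫ y, A * (L * ((1 + |L * y|) ^ 2)⁻¹)) := by
          rw [ofReal_integral_eq_lintegral_ofReal (hi.const_mul A)]
          exact Eventually.of_forall fun y => by positivity
      _ = _ := by rw [integral_const_mul, hie]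
  have f2 : ∫⁻ y, ‖κ y‖ₑ * ENNReal.ofReal (∫ t in (-U)..U, ‖z (t + y)‖ ^ 2) ≤
      ENNReal.ofReal (A * (M + C1) * J) := by
    calc ∫⁻ y, ‖κ y‖ₑ * ENNReal.ofReal (∫ t in (-U)..U, ‖z (t + y)‖ ^ 2) ≤
          ∫⁻ y, ENNReal.ofReal ((A * (M + C1)) * (L * ((1 + |L * y|) ^ 2)⁻¹)) := by
          refine lintegral_mono fun y => ?_
          rw [← ofReal_norm, ← ENNReal.ofReal_mul (norm_nonneg _)]
          refine ENNReal.ofReal_le_ofReal ?_
          have h1 := kap_le hL hA hκ y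
          have h2 := kap_le' hL hA hκ y
          calc ‖κ y‖ * ∫ t in (-U)..U, ‖z (t + y)‖ ^ 2 ≤ ‖κ y‖ * (M + C1 * (1 + |y|) ^ (p + 1)) := by
                gcongr; exact hin y
            _ = ‖κ y‖ * M + C1 * (‖κ y‖ * (1 + |y|) ^ (p + 1)) := by ring
            _ ≤ (A * (L * ((1 + |L * y|) ^ 2)⁻¹)) * M + C1 * (A * (L * ((1 + |L * y|) ^ 2)⁻¹)) := by
                gcongr
            _ = _ := by ring
      _ = ENNReal.ofReal (∫ y, (A * (M + C1)) * (L * ((1 + |L * y|) ^ 2)⁻¹)) := by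
          rw [ofReal_integral_eq_lintegral_ofReal (hi.const_mul _)]
          exact Eventually.of_forall fun y => by positivity
      _ = _ := by rw [integral_const_mul, hie]
  have f3 := hcs.trans (mul_le_mul' f1 f2)
  rw [← ENNReal.ofReal_mul (by positivity)] at f3
  have f4 := (ENNReal.ofReal_le_ofReal_iff (by positivity)).1 f3
  refine f4.trans ?_
  have f5 : M + C1 ≤ (1 + C1) * (1 + M) := by nlinarith
  calc A * J * (A * (M + C1) * J) = J ^ 2 * A ^ 2 * (M + C1) := by ring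
    _ ≤ J ^ 2 * A ^ 2 * ((1 + C1) * (1 + M)) := by gcongr
    _ = _ := by ring

theorem s_mid : S_MID := by
  intro k
  obtain ⟨C0, p, hC0, hb⟩ := zr_bd k
  have hb' : ∀ t, ‖zr k 0 t‖ ^ 2 ≤ C0 * (1 + |t|) ^ p := fun t => hb 0 (by norm_num) t
  have hz : Continuous (zr k 0) := zr_cont k (by norm_num)
  refine ⟨(∫ y : ℝ, ((1 + |y|) ^ 2)⁻¹) ^ 2 * (1 + 2 ^ (p + 1) * C0), p + 3, by positivity, ?_⟩
  intro L A κ hL hA hc hκ U hU
  exact ⟨KK_cont hz hC0 hb' hL hA hc hκ, mid_core hz hC0 hb' hL hA hc hκ hU⟩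

/-! ### the kernel as a function of the parameter -/

lemma mul_TS {φ : ℝ → ℂ} (h : TS φ) : TS (fun ξ => φ ξ * (ξ : ℂ)) := by
  refine ⟨h.cd.mul ?_, h.cs.mul_right⟩
  exact Complex.ofRealCLM.contDiff

lemma P_hasDeriv {ξ1 : ℝ} {ψ : ℝ → ℂ} (h : W182.KO.TF ξ1 ψ) (z0 : ℂ) :
    HasDerivAt (W182.KO.P ψ) (W182.KO.P (fun ξ => ψ ξ * (ξ : ℂ)) z0) z0 := by
  have hb : Integrable (fun ξ : ℝ => ‖ψ ξ‖ * (|ξ| * Real.exp (|ξ| * (‖z0‖ + 1)))) := by
    refine Continuous.integrable_of_hasCompactSupport ?_ ?_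
    · have := h.cont; fun_prop
    · exact (h.cs.norm).mul_right
  have key := hasDerivAt_integral_of_dominated_loc_of_deriv_le (𝕜 := ℂ)
    (F := fun (z : ℂ) (ξ : ℝ) => ψ ξ * exp (ξ * z))
    (F' := fun (z : ℂ) (ξ : ℝ) => ψ ξ * (exp (ξ * z) * ξ))
    (x₀ := z0) (s := Metric.ball z0 1) (μ := volume)
    (bound := fun ξ : ℝ => ‖ψ ξ‖ * (|ξ| * Real.exp (|ξ| * (‖z0‖ + 1))))
    (Metric.ball_mem_nhds z0 one_pos)
    (Eventually.of_forall fun z => (h.int_exp z).aestronglyMeasurable)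
    (h.int_exp z0) ?_ (Eventually.of_forall fun ξ z hz => ?_) hb
    (Eventually.of_forall fun ξ z hz => ?_)
  · have h1 := key.2
    have e : (∫ ξ : ℝ, ψ ξ * (exp (ξ * z0) * ξ)) = W182.KO.P (fun ξ => ψ ξ * (ξ : ℂ)) z0 := by
      unfold W182.KO.P
      refine integral_congr_ae (Eventually.of_forall fun ξ => ?_)
      simp only
      ring
    rw [e] at h1
    exact h1
  · have := h.cont
    exact (by fun_prop : Continuous fun ξ : ℝ => ψ ξ * (exp (ξ * z0) * ξ)).aestronglyMeasurable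
  · rw [norm_mul, norm_mul, Complex.norm_exp, Complex.norm_real, Real.norm_eq_abs, mul_comm (Real.exp _)]
    refine mul_le_mul_of_nonneg_left (mul_le_mul_of_nonneg_left (Real.exp_le_exp.2 ?_) (abs_nonneg _))
      (norm_nonneg _)
    have h1 : ‖z‖ ≤ ‖z0‖ + 1 := by
      have := norm_sub_norm_le z z0
      rw [Metric.mem_ball, dist_eq_norm] at hz
      linarith
    calc ((ξ:ℂ) * z).re ≤ ‖(ξ:ℂ) * z‖ := Complex.re_le_norm _
      _ = |ξ| * ‖z‖ := by rw [norm_mul, Complex.norm_real, Real.norm_eq_abs]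
      _ ≤ |ξ| * (‖z0‖ + 1) := mul_le_mul_of_nonneg_left h1 (abs_nonneg _)
  · have h1 : HasDerivAt (fun z : ℂ => (ξ : ℂ) * z) (ξ : ℂ) z := by
      simpa using (hasDerivAt_id z).const_mul (ξ : ℂ)
    exact h1.cexp.const_mul (ψ ξ)

lemma kp_hasDeriv {φ : ℝ → ℂ} (h : TS φ) (y : ℝ) {L : ℝ} (hL : 0 < L) :
    HasDerivAt (fun L : ℝ => kp φ L y)
      ((L : ℂ)⁻¹ * kp φ L y + (y * I : ℂ) * kp (fun ξ => φ ξ * (ξ : ℂ)) L y) L := by
  obtain ⟨X, -, hX⟩ := h.tf
  have h1 : HasDerivAt (fun L : ℝ => ((L / (2 * Real.pi) : ℝ) : ℂ)) (((1 / (2 * Real.pi) : ℝ) : ℂ)) L := by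
    exact ((hasDerivAt_id L).div_const (2 * Real.pi)).ofReal_comp
  have h2 : HasDerivAt (fun L : ℝ => (L * y * I : ℂ)) (y * I) L := by
    have h3 : HasDerivAt (fun L : ℝ => ((L : ℝ) : ℂ)) 1 L := (hasDerivAt_id L).ofReal_comp
    have h4 := h3.mul_const (y * I : ℂ)
    simp only [one_mul] at h4
    refine h4.congr_of_eventuallyEq (Eventually.of_forall fun L => ?_)
    simp only
    ring
  have h3 := (P_hasDeriv hX (L * y * I : ℂ)).comp_of_eq L h2 rfl
  have h4 := h1.mul h3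
  have hL' : (L : ℂ) ≠ 0 := by exact_mod_cast hL.ne'
  have hpi : (Real.pi : ℂ) ≠ 0 := by exact_mod_cast Real.pi_pos.ne'
  refine (h4.congr_deriv ?_).congr_of_eventuallyEq (Eventually.of_forall fun L => ?_)
  · unfold kp
    simp only [Function.comp_apply]
    push_cast
    field_simp
  · simp only [Pi.mul_apply, Function.comp_apply, kp]

theorem s_kp : S_KP := by
  intro φ h N
  obtain ⟨C1, hC1, hb1⟩ := kp_bd h N
  obtain ⟨C2, hC2, hb2⟩ := kp_bd (mul_TS h) (N + 1)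
  refine ⟨2 ^ N * (C1 + C2), by positivity, fun L L' hL hL1 hL2 y => ?_⟩
  have hL0 : 0 < L := by linarith
  have hder : ∀ M ∈ Icc (L / 2) (2 * L), ‖(M : ℂ)⁻¹ * kp φ M y + (y * I : ℂ) * kp (fun ξ => φ ξ * (ξ : ℂ)) M y‖ ≤
      (C1 + C2) * 2 ^ N / (1 + |L * y|) ^ N := by
    intro M hM
    have hM0 : 0 < M := by linarith [hM.1]
    have hpM : 0 < 1 + |M * y| := by positivity
    have b1 : ‖(M : ℂ)⁻¹ * kp φ M y‖ ≤ C1 / (1 + |M * y|) ^ N := by
      rw [norm_mul, norm_inv, Complex.norm_real, Real.norm_of_nonneg hM0.le]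
      calc M⁻¹ * ‖kp φ M y‖ ≤ M⁻¹ * (C1 * (M / (1 + |M * y|) ^ N)) := by
            gcongr; exact hb1 M y hM0.le
        _ = _ := by field_simp
    have b2 : ‖(y * I : ℂ) * kp (fun ξ => φ ξ * (ξ : ℂ)) M y‖ ≤ C2 / (1 + |M * y|) ^ N := by
      rw [norm_mul, norm_mul, Complex.norm_I, mul_one, Complex.norm_real, Real.norm_eq_abs]
      have h3 : M * |y| ≤ 1 + |M * y| := by rw [abs_mul, abs_of_pos hM0]; linarith
      calc |y| * ‖kp (fun ξ => φ ξ * (ξ : ℂ)) M y‖ ≤ |y| * (C2 * (M / (1 + |M * y|) ^ (N + 1))) := by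
            gcongr; exact hb2 M y hM0.le
        _ = C2 * (M * |y|) / (1 + |M * y|) ^ (N + 1) := by ring
        _ ≤ C2 * (1 + |M * y|) / (1 + |M * y|) ^ (N + 1) := by gcongr
        _ = _ := by
            rw [pow_succ]
            field_simp
    have b3 : (1 + |L * y|) ^ N ≤ 2 ^ N * (1 + |M * y|) ^ N := by
      rw [← mul_pow]
      gcongr
      rw [abs_mul, abs_mul, abs_of_pos hM0, abs_of_pos hL0]
      have := hM.1
      nlinarith [abs_nonneg y]
    have b4 : (C1 + C2) / (1 + |M * y|) ^ N ≤ (C1 + C2) * 2 ^ N / (1 + |L * y|) ^ N := by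
      rw [div_le_div_iff₀ (by positivity) (by positivity)]
      calc (C1 + C2) * (1 + |L * y|) ^ N ≤ (C1 + C2) * (2 ^ N * (1 + |M * y|) ^ N) := by gcongr
        _ = _ := by ring
    refine (norm_add_le _ _).trans ?_
    calc _ ≤ C1 / (1 + |M * y|) ^ N + C2 / (1 + |M * y|) ^ N := add_le_add b1 b2
      _ = (C1 + C2) / (1 + |M * y|) ^ N := by ring
      _ ≤ _ := b4
  have key := (convex_Icc (L / 2) (2 * L)).norm_image_sub_le_of_norm_hasDerivWithin_le
    (f := fun L : ℝ => kp φ L y)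
    (fun M hM => (kp_hasDeriv h y (by linarith [hM.1] : 0 < M)).hasDerivWithinAt) hder
    (x := L) (y := L') ⟨by linarith, by linarith⟩ ⟨hL1, hL2⟩
  refine key.trans (le_of_eq ?_)
  rw [Real.norm_eq_abs]
  field_simp

end

end Pool.Agent.K4H49.SV
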