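import Mathlib
import Pool.Agent.H153R4.Pl

set_option autoImplicit false

/-!
# Mellin-Plancherel for a step function plus a continuous density (helper41)
-/

namespace Pool.Agent.K4H49.SV.PLA

open Complex MeasureTheory Filter Topology Set FourierTransform

noncomputable section

/-- the transform of the interval -/
def EL (h t : ℝ) : ℂ := (((1 + h : ℝ) : ℂ) ^ (1 / 2 + I * t : ℂ) - 1) / (1 / 2 + I * t)

theorem int_exp {E : Type*} [NormedAddCommGroup E] [NormedSpace ℝ E] (F : ℝ → E) :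
    ∫ y in Ioi (0:ℝ), F y = ∫ v : ℝ, Real.exp v • F (Real.exp v) := by
  have h1 : Real.exp '' univ = Ioi 0 := by rw [Set.image_univ, Real.range_exp]
  rw [← h1, integral_image_eq_integral_abs_deriv_smul MeasurableSet.univ
    (fun x _ => (Real.hasDerivAt_exp x).hasDerivWithinAt) Real.exp_injective.injOn]
  simp [abs_of_pos (Real.exp_pos _)]

/-- the elementary function of the interval -/
def E1 (h u : ℝ) : ℂ := if -Real.log (1 + h) ≤ u ∧ u < 0 then ((Real.exp (-u / 2) : ℝ) : ℂ) else 0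

theorem E1_ind (h : ℝ) : E1 h = (Ico (-Real.log (1 + h)) 0).indicator fun u => ((Real.exp (-u / 2) : ℝ) : ℂ) := by
  funext u
  unfold E1
  by_cases hu : -Real.log (1 + h) ≤ u ∧ u < 0
  · rw [if_pos hu, indicator_of_mem (show u ∈ Ico (-Real.log (1 + h)) 0 from hu)]
  · rw [if_neg hu, indicator_of_notMem (show u ∉ Ico (-Real.log (1 + h)) 0 from hu)]

theorem E1_int (h : ℝ) : Integrable (E1 h) := by
  rw [E1_ind, integrable_indicator_iff measurableSet_Ico]
  have hc : Continuous fun u : ℝ => ((Real.exp (-u / 2) : ℝ) : ℂ) := by fun_prop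
  exact (hc.continuousOn.integrableOn_Icc (a := -Real.log (1 + h)) (b := 0)).mono_set Ico_subset_Icc_self

theorem E1_meas (h : ℝ) : Measurable (E1 h) := by
  rw [E1_ind]
  exact (by fun_prop : Measurable fun u : ℝ => ((Real.exp (-u / 2) : ℝ) : ℂ)).indicator measurableSet_Ico

theorem E1_bd (h : ℝ) (hh : 0 < h) (hh1 : h ≤ 1) (u : ℝ) : ‖E1 h u‖ ≤ 2 := by
  unfold E1
  split_ifs with hu
  · rw [Complex.norm_real, Real.norm_eq_abs, abs_of_pos (Real.exp_pos _)]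
    have h1 : Real.log (1 + h) ≤ Real.log 2 := Real.log_le_log (by linarith) (by linarith)
    have h2 : Real.exp (-u / 2) ≤ Real.exp (Real.log 2) := by
      apply Real.exp_le_exp.2
      have : 0 ≤ Real.log 2 := Real.log_nonneg (by norm_num)
      linarith [hu.1]
    rwa [Real.exp_log (by norm_num : (0:ℝ) < 2)] at h2
  · simp

theorem fourier_E1 (h : ℝ) (hh : 0 < h) (ξ : ℝ) : 𝓕 (E1 h) ξ = EL h (2 * Real.pi * ξ) := by
  have hL : 0 < Real.log (1 + h) := Real.log_pos (by linarith)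
  rw [Real.fourier_eq', E1_ind]
  have e1 : ∀ v : ℝ, cexp (↑(-2 * Real.pi * inner ℝ v ξ) * I) •
      (Ico (-Real.log (1 + h)) 0).indicator (fun u : ℝ => ((Real.exp (-u / 2) : ℝ) : ℂ)) v =
      (Ico (-Real.log (1 + h)) 0).indicator
        (fun u : ℝ => cexp (-(1 / 2 + I * ((2 * Real.pi * ξ : ℝ) : ℂ)) * u)) v := by
    intro v
    by_cases hv : v ∈ Ico (-Real.log (1 + h)) 0
    · rw [indicator_of_mem hv, indicator_of_mem hv, smul_eq_mul, Complex.ofReal_exp, ← Complex.exp_add]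
      congr 1
      simp only [RCLike.inner_apply, conj_trivial]
      push_cast
      ring
    · rw [indicator_of_notMem hv, indicator_of_notMem hv, smul_zero]
  simp_rw [e1]
  rw [integral_indicator measurableSet_Ico, integral_Ico_eq_integral_Ioo, ← integral_Ioc_eq_integral_Ioo,
    ← intervalIntegral.integral_of_le (by linarith)]
  set s : ℂ := 1 / 2 + I * ((2 * Real.pi * ξ : ℝ) : ℂ) with hs
  have hs0 : s ≠ 0 := by
    intro h0
    have := congrArg Complex.re h0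
    simp [hs] at this
  rw [integral_exp_mul_complex (neg_ne_zero.2 hs0)]
  unfold EL
  rw [← hs]
  have e2 : cexp (-s * ((-Real.log (1 + h) : ℝ) : ℂ)) = (((1 + h : ℝ) : ℂ)) ^ s := by
    rw [Complex.cpow_def_of_ne_zero (by exact_mod_cast (by linarith : (1 + h : ℝ) ≠ 0)),
      ← Complex.ofReal_log (by linarith)]
    congr 1
    push_cast
    ring
  rw [e2]
  simp only [Complex.ofReal_zero, mul_zero, Complex.exp_zero]
  field_simp
  ring

theorem ft (f : ℝ → ℂ) (ξ : ℝ) : 𝓕 f ξ = ∫ v : ℝ, cexp (((-2 * Real.pi * v * ξ : ℝ) : ℂ) * I) * f v := by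
  rw [Real.fourier_real_eq_integral_exp_smul]
  rfl

theorem ft_int {f : ℝ → ℂ} (hf : Integrable f) (ξ : ℝ) :
    Integrable fun v : ℝ => cexp (((-2 * Real.pi * v * ξ : ℝ) : ℂ) * I) * f v := by
  refine hf.bdd_mul (c := 1) ?_ (Eventually.of_forall fun v => ?_)
  · exact (by fun_prop : Continuous fun v : ℝ => cexp (((-2 * Real.pi * v * ξ : ℝ) : ℂ) * I)).aestronglyMeasurable
  · rw [Complex.norm_exp_ofReal_mul_I]

theorem ft_tr (f : ℝ → ℂ) (a ξ : ℝ) :
    𝓕 (fun u => f (u - a)) ξ = cexp (((-2 * Real.pi * a * ξ : ℝ) : ℂ) * I) * 𝓕 f ξ := by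
  rw [ft, ft, ← integral_const_mul]
  rw [← integral_sub_right_eq_self (fun v : ℝ => cexp (((-2 * Real.pi * a * ξ : ℝ) : ℂ) * I) *
    (cexp (((-2 * Real.pi * v * ξ : ℝ) : ℂ) * I) * f v)) a]
  refine integral_congr_ae (Eventually.of_forall fun v => ?_)
  simp only
  rw [← mul_assoc, ← Complex.exp_add]
  congr 2
  push_cast
  ring

/-- the density on the logarithmic scale -/
def MM (m : ℝ → ℂ) (v : ℝ) : ℂ := m (Real.exp v) * ((Real.exp (v / 2) : ℝ) : ℂ)

theorem MM_cont {m : ℝ → ℂ} (hm : Continuous m) : Continuous (MM m) := by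
  unfold MM
  fun_prop

theorem MM_int {m : ℝ → ℂ} (hm : Continuous m) {c C : ℝ} (hc : 0 < c) (h1 : ∀ y, y < c → m y = 0)
    (h2 : ∀ y, C < y → m y = 0) : Integrable (MM m) := by
  refine (MM_cont hm).integrable_of_hasCompactSupport ?_
  refine HasCompactSupport.of_support_subset_isCompact (isCompact_Icc (a := Real.log c)
    (b := Real.log (max C c))) ?_
  intro v hv
  rw [Function.mem_support] at hv
  unfold MM at hv
  constructor
  · by_contra hlt
    push Not at hlt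
    apply hv
    rw [h1 _ ((Real.lt_log_iff_exp_lt hc).1 hlt), zero_mul]
  · by_contra hlt
    push Not at hlt
    apply hv
    have h3 := (Real.log_lt_iff_lt_exp (lt_of_lt_of_le hc (le_max_right C c))).1 hlt
    rw [h2 _ (lt_of_le_of_lt (le_max_left C c) h3), zero_mul]

theorem cpow_exp (v : ℝ) (w : ℂ) : ((Real.exp v : ℝ) : ℂ) ^ w = cexp (v * w) := by
  rw [Complex.cpow_def_of_ne_zero (by exact_mod_cast (Real.exp_pos v).ne'), ← Complex.ofReal_log (Real.exp_pos v).le,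
    Real.log_exp]

theorem ft_MM (m : ℝ → ℂ) (ξ : ℝ) :
    𝓕 (MM m) ξ = ∫ y in Ioi (0:ℝ), m y * (y : ℂ) ^ (-(1 / 2 + I * ((2 * Real.pi * ξ : ℝ) : ℂ)) : ℂ) := by
  rw [ft, int_exp]
  refine integral_congr_ae (Eventually.of_forall fun v => ?_)
  simp only
  rw [cpow_exp, Complex.real_smul]
  unfold MM
  rw [show cexp (((-2 * Real.pi * v * ξ : ℝ) : ℂ) * I) * (m (Real.exp v) * ((Real.exp (v / 2) : ℝ) : ℂ)) =
    m (Real.exp v) * (cexp (((-2 * Real.pi * v * ξ : ℝ) : ℂ) * I) * ((Real.exp (v / 2) : ℝ) : ℂ)) by ring,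
    show ((Real.exp v : ℝ) : ℂ) * (m (Real.exp v) * cexp (v * -(1 / 2 + I * ((2 * Real.pi * ξ : ℝ) : ℂ)))) =
    m (Real.exp v) * (((Real.exp v : ℝ) : ℂ) * cexp (v * -(1 / 2 + I * ((2 * Real.pi * ξ : ℝ) : ℂ)))) by ring]
  congr 1
  rw [Complex.ofReal_exp, Complex.ofReal_exp, ← Complex.exp_add, ← Complex.exp_add]
  congr 1
  push_cast
  ring

/-- the function on the logarithmic scale -/
def GG (N : ℕ) (a : ℕ → ℂ) (m : ℝ → ℂ) (h u : ℝ) : ℂ :=
  (∑ n ∈ Finset.range N, a n * ((n : ℂ) ^ (-(1 / 2) : ℂ)) * E1 h (u - Real.log n)) -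
    convolution (MM m) (E1 h) (ContinuousLinearMap.lsmul ℂ ℂ) volume u

/-- the Dirichlet polynomial minus the integral -/
def BB (N : ℕ) (a : ℕ → ℂ) (m : ℝ → ℂ) (t : ℝ) : ℂ :=
  ∑ n ∈ Finset.range N, a n * (n : ℂ) ^ (-(1 / 2 + I * t) : ℂ) -
    ∫ y in Ioi (0:ℝ), m y * (y : ℂ) ^ (-(1 / 2 + I * t) : ℂ)

theorem GG_int (N : ℕ) (a : ℕ → ℂ) {m : ℝ → ℂ} (hM : Integrable (MM m)) (h : ℝ) : Integrable (GG N a m h) := by
  unfold GG
  refine Integrable.sub ?_ ?_
  · refine integrable_finsetSum _ fun n _ => ?_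
    exact ((E1_int h).comp_sub_right (Real.log n)).const_mul _
  · exact hM.integrable_convolution _ (E1_int h)

theorem ft_GG (N : ℕ) (a : ℕ → ℂ) {m : ℝ → ℂ} (ha : a 0 = 0) (hM : Integrable (MM m)) (h : ℝ) (hh : 0 < h) (ξ : ℝ) :
    𝓕 (GG N a m h) ξ = EL h (2 * Real.pi * ξ) * BB N a m (2 * Real.pi * ξ) := by
  have hE := E1_int h
  have hi : ∀ n ∈ Finset.range N, Integrable fun v : ℝ => cexp (((-2 * Real.pi * v * ξ : ℝ) : ℂ) * I) *
      (a n * ((n : ℂ) ^ (-(1 / 2) : ℂ)) * E1 h (v - Real.log n)) := fun n _ =>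
    ft_int ((hE.comp_sub_right (Real.log n)).const_mul _) ξ
  have hconv := hM.integrable_convolution (ContinuousLinearMap.lsmul ℂ ℂ) hE
  rw [ft]
  unfold GG
  simp_rw [mul_sub, Finset.mul_sum]
  rw [integral_sub (integrable_finsetSum _ hi) (ft_int hconv ξ), integral_finsetSum _ hi, ← ft,
    Real.fourier_smul_convolution_eq hM hE, smul_eq_mul, fourier_E1 h hh, ft_MM]
  unfold BB
  rw [mul_sub, Finset.mul_sum]
  congr 1
  · refine Finset.sum_congr rfl fun n _ => ?_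
    rcases Nat.eq_zero_or_pos n with h0 | hn
    · rw [h0, ha]
      simp
    · have e1 : ∀ v : ℝ, cexp (((-2 * Real.pi * v * ξ : ℝ) : ℂ) * I) *
          (a n * ((n : ℂ) ^ (-(1 / 2) : ℂ)) * E1 h (v - Real.log n)) =
          (a n * ((n : ℂ) ^ (-(1 / 2) : ℂ))) * (cexp (((-2 * Real.pi * v * ξ : ℝ) : ℂ) * I) * E1 h (v - Real.log n)) :=
        fun v => by ring
      simp_rw [e1]
      rw [integral_const_mul, ← ft (fun v => E1 h (v - Real.log n)), ft_tr, fourier_E1 h hh]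
      have hn0 : (n : ℂ) ≠ 0 := by exact_mod_cast hn.ne'
      rw [show (-(1 / 2 + I * ((2 * Real.pi * ξ : ℝ) : ℂ)) : ℂ) = -(1 / 2) + -(I * ((2 * Real.pi * ξ : ℝ) : ℂ)) by ring,
        Complex.cpow_add _ _ hn0, Complex.cpow_def_of_ne_zero hn0 (-(I * ((2 * Real.pi * ξ : ℝ) : ℂ))),
        ← Complex.natCast_log]
      rw [show cexp (((-2 * Real.pi * Real.log n * ξ : ℝ) : ℂ) * I) =
        cexp (((Real.log n : ℝ) : ℂ) * -(I * ((2 * Real.pi * ξ : ℝ) : ℂ))) by
          congr 1; push_cast; ring]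
      ring
  · ring

/-- the deviation -/
def gg (N : ℕ) (a : ℕ → ℂ) (m : ℝ → ℂ) (h x : ℝ) : ℂ :=
  ∑ n ∈ Finset.range N, (if x < n ∧ (n:ℝ) ≤ (1 + h) * x then a n else 0) - ∫ y in x..((1 + h) * x), m y

theorem E1_log (h : ℝ) (hh : 0 < h) (u y : ℝ) (hy : 0 < y) :
    E1 h (u - Real.log y) = if Real.exp u < y ∧ y ≤ (1 + h) * Real.exp u then
      ((Real.exp (-(u - Real.log y) / 2) : ℝ) : ℂ) else 0 := by
  unfold E1
  have h1 : (-Real.log (1 + h) ≤ u - Real.log y ∧ u - Real.log y < 0) ↔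
      (Real.exp u < y ∧ y ≤ (1 + h) * Real.exp u) := by
    have h2 : u - Real.log y < 0 ↔ Real.exp u < y := by
      rw [sub_neg, Real.lt_log_iff_exp_lt hy]
    have h3 : -Real.log (1 + h) ≤ u - Real.log y ↔ y ≤ (1 + h) * Real.exp u := by
      rw [show (-Real.log (1 + h) ≤ u - Real.log y) ↔ (Real.log y ≤ Real.log (1 + h) + u) by
        constructor <;> intro h' <;> linarith, Real.log_le_iff_le_exp hy, Real.exp_add, Real.exp_log (by linarith)]
    rw [h2, h3]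
    exact And.comm
  by_cases hc : Real.exp u < y ∧ y ≤ (1 + h) * Real.exp u
  · rw [if_pos hc, if_pos (h1.2 hc)]
  · rw [if_neg hc, if_neg fun h' => hc (h1.1 h')]

theorem conv_eq (m : ℝ → ℂ) (h : ℝ) (hh : 0 < h) (u : ℝ) :
    convolution (MM m) (E1 h) (ContinuousLinearMap.lsmul ℂ ℂ) volume u =
      ((Real.exp (-u / 2) : ℝ) : ℂ) * ∫ y in (Real.exp u)..((1 + h) * Real.exp u), m y := by
  have hle : Real.exp u ≤ (1 + h) * Real.exp u := by nlinarith [Real.exp_pos u]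
  rw [intervalIntegral.integral_of_le hle]
  have e1 : ∫ y in Ioc (Real.exp u) ((1 + h) * Real.exp u), m y =
      ∫ y in Ioi (0:ℝ), (Ioc (Real.exp u) ((1 + h) * Real.exp u)).indicator m y := by
    rw [setIntegral_indicator measurableSet_Ioc]
    congr 1
    rw [inter_eq_right.2]
    exact fun y hy => (Real.exp_pos u).trans hy.1
  rw [e1, int_exp, ← integral_const_mul, convolution_def]
  refine integral_congr_ae (Eventually.of_forall fun v => ?_)
  simp only [ContinuousLinearMap.lsmul_apply, smul_eq_mul, Complex.real_smul]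
  have h1 := E1_log h hh u (Real.exp v) (Real.exp_pos v)
  rw [Real.log_exp] at h1
  rw [h1]
  by_cases hc : Real.exp u < Real.exp v ∧ Real.exp v ≤ (1 + h) * Real.exp u
  · rw [if_pos hc, indicator_of_mem (show Real.exp v ∈ Ioc (Real.exp u) ((1 + h) * Real.exp u) from hc)]
    unfold MM
    rw [show m (Real.exp v) * ((Real.exp (v / 2) : ℝ) : ℂ) * ((Real.exp (-(u - v) / 2) : ℝ) : ℂ) =
      m (Real.exp v) * (((Real.exp (v / 2) : ℝ) : ℂ) * ((Real.exp (-(u - v) / 2) : ℝ) : ℂ)) by ring,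
      show ((Real.exp (-u / 2) : ℝ) : ℂ) * (((Real.exp v : ℝ) : ℂ) * m (Real.exp v)) =
        m (Real.exp v) * (((Real.exp (-u / 2) : ℝ) : ℂ) * ((Real.exp v : ℝ) : ℂ)) by ring,
      ← Complex.ofReal_mul, ← Complex.ofReal_mul, ← Real.exp_add, ← Real.exp_add]
    congr 3
    ring
  · rw [if_neg hc, indicator_of_notMem (show Real.exp v ∉ Ioc (Real.exp u) ((1 + h) * Real.exp u) from hc)]
    simp

theorem GG_eq (N : ℕ) (a : ℕ → ℂ) (m : ℝ → ℂ) (ha : a 0 = 0) (h : ℝ) (hh : 0 < h) (u : ℝ) :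
    GG N a m h u = ((Real.exp (-u / 2) : ℝ) : ℂ) * gg N a m h (Real.exp u) := by
  unfold GG gg
  rw [conv_eq m h hh, mul_sub, Finset.mul_sum]
  congr 1
  refine Finset.sum_congr rfl fun n _ => ?_
  rcases Nat.eq_zero_or_pos n with h0 | hn
  · rw [h0, ha]
    simp
  · have hn1 : (0:ℝ) < n := by exact_mod_cast hn
    rw [E1_log h hh u n hn1]
    by_cases hc : Real.exp u < n ∧ (n:ℝ) ≤ (1 + h) * Real.exp u
    · rw [if_pos hc, if_pos hc]
      have hn0 : (n : ℂ) ≠ 0 := by exact_mod_cast hn.ne'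
      rw [Complex.cpow_def_of_ne_zero hn0, ← Complex.natCast_log, mul_assoc, mul_comm _ (a n)]
      congr 1
      rw [Complex.ofReal_exp, Complex.ofReal_exp, ← Complex.exp_add]
      congr 1
      push_cast
      ring
    · rw [if_neg hc, if_neg hc]
      simp

theorem conv_bd {m : ℝ → ℂ} (hM : Integrable (MM m)) (h : ℝ) (hh : 0 < h) (hh1 : h ≤ 1) (u : ℝ) :
    ‖convolution (MM m) (E1 h) (ContinuousLinearMap.lsmul ℂ ℂ) volume u‖ ≤ 2 * ∫ v, ‖MM m v‖ := by
  rw [convolution_def, ← integral_const_mul]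
  refine norm_integral_le_of_norm_le (hM.norm.const_mul 2) (Eventually.of_forall fun v => ?_)
  simp only [ContinuousLinearMap.lsmul_apply, smul_eq_mul, norm_mul]
  rw [mul_comm]
  exact mul_le_mul_of_nonneg_right (E1_bd h hh hh1 _) (norm_nonneg _)

theorem GG_bd (N : ℕ) (a : ℕ → ℂ) {m : ℝ → ℂ} (hM : Integrable (MM m)) (h : ℝ) (hh : 0 < h) (hh1 : h ≤ 1) :
    ∃ K : ℝ, ∀ u, ‖GG N a m h u‖ ≤ K := by
  refine ⟨(∑ n ∈ Finset.range N, ‖a n * ((n : ℂ) ^ (-(1 / 2) : ℂ))‖ * 2) + 2 * ∫ v, ‖MM m v‖, fun u => ?_⟩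
  unfold GG
  refine (norm_sub_le _ _).trans (add_le_add ?_ (conv_bd hM h hh hh1 u))
  refine (norm_sum_le _ _).trans (Finset.sum_le_sum fun n _ => ?_)
  rw [norm_mul]
  exact mul_le_mul_of_nonneg_left (E1_bd h hh hh1 _) (norm_nonneg _)

theorem GG_memLp (N : ℕ) (a : ℕ → ℂ) {m : ℝ → ℂ} (hM : Integrable (MM m)) (h : ℝ) (hh : 0 < h) (hh1 : h ≤ 1) :
    MemLp (GG N a m h) 2 := by
  have hi := GG_int N a hM h
  obtain ⟨K, hK⟩ := GG_bd N a hM h hh hh1
  rw [memLp_two_iff_integrable_sq_norm hi.aestronglyMeasurable]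
  refine (hi.norm.const_mul K).mono' (hi.aestronglyMeasurable.norm.pow 2) (Eventually.of_forall fun u => ?_)
  rw [Real.norm_eq_abs, abs_of_nonneg (by positivity), sq]
  exact mul_le_mul_of_nonneg_right (hK u) (norm_nonneg _)

theorem toR {f : ℝ → ℂ} (hf : AEStronglyMeasurable f) :
    ∫ x, ‖f x‖ ^ 2 = (∫⁻ x, ‖f x‖ₑ ^ 2).toReal := by
  have hm : AEStronglyMeasurable (fun x => ‖f x‖ ^ 2) := hf.norm.pow 2
  rw [integral_eq_lintegral_of_nonneg_ae (Eventually.of_forall fun x => by positivity) hm]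
  congr 1
  refine lintegral_congr fun x => ?_
  rw [ENNReal.ofReal_pow (norm_nonneg _), ofReal_norm]

theorem pl (N : ℕ) (a : ℕ → ℂ) (m : ℝ → ℂ) (c C : ℝ) (ha : a 0 = 0) (hc : 0 < c) (hm : Continuous m)
    (h1 : ∀ y, y < c → m y = 0) (h2 : ∀ y, C < y → m y = 0) (h : ℝ) (hh : 0 < h) (hh1 : h ≤ 1) :
    Integrable (fun t : ℝ => ‖EL h t‖ ^ 2 * ‖BB N a m t‖ ^ 2) ∧
    ∫ x in Ioi (0:ℝ), ‖gg N a m h x‖ ^ 2 / x ^ 2 =
      1 / (2 * Real.pi) * ∫ t : ℝ, ‖EL h t‖ ^ 2 * ‖BB N a m t‖ ^ 2 := by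
  have hM := MM_int hm hc h1 h2
  have hG1 := GG_int N a hM h
  have hG2 := GG_memLp N a hM h hh hh1
  have hae := Pool.Agent.H153R4.fourier_ae_eq (GG N a m h) hG1 hG2
  have hmem : MemLp (𝓕 (GG N a m h)) 2 := (memLp_congr_ae hae).mp (Lp.memLp _)
  have hpi : (2 * Real.pi) ≠ 0 := by positivity
  set F : ℝ → ℝ := fun t => ‖EL h t‖ ^ 2 * ‖BB N a m t‖ ^ 2 with hF
  have e1 : ∀ ξ : ℝ, F (2 * Real.pi * ξ) = ‖𝓕 (GG N a m h) ξ‖ ^ 2 := by
    intro ξ
    rw [ft_GG N a ha hM h hh, norm_mul, mul_pow]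
  have i1 : Integrable fun ξ : ℝ => F (2 * Real.pi * ξ) := by
    simp_rw [e1]
    exact (memLp_two_iff_integrable_sq_norm hmem.aestronglyMeasurable).1 hmem
  refine ⟨(integrable_comp_mul_left_iff F hpi).1 i1, ?_⟩
  have e2 : ∫ ξ : ℝ, F (2 * Real.pi * ξ) = 1 / (2 * Real.pi) * ∫ t, F t := by
    rw [Measure.integral_comp_mul_left, smul_eq_mul, abs_of_pos (by positivity), one_div]
  rw [← e2]
  simp_rw [e1]
  rw [toR hmem.aestronglyMeasurable, Pool.Agent.H153R4.plancherel _ hG1 hG2, ← toR hG1.aestronglyMeasurable,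
    int_exp]
  refine integral_congr_ae (Eventually.of_forall fun u => ?_)
  simp only [smul_eq_mul]
  rw [GG_eq N a m ha h hh, norm_mul, Complex.norm_real, Real.norm_eq_abs, abs_of_pos (Real.exp_pos _), mul_pow,
    ← Real.exp_nat_mul, ← Real.exp_nat_mul]
  have e3 : Real.exp (((2:ℕ):ℝ) * (-u / 2)) = Real.exp u / Real.exp (((2:ℕ):ℝ) * u) := by
    rw [← Real.exp_sub]
    congr 1
    push_cast
    ring
  rw [e3]
  ring

end

end Pool.Agent.K4H49.SV.PLA
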