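import Pool.Agent.K4H49.SV.Stm
import Pool.Agent.K4H49.SV.PLA

set_option autoImplicit false

/-! # Mellin-Plancherel (piece PL, helper41) -/

namespace Pool.Agent.K4H49.SV

theorem s_pl : S_PL := fun N a m c C ha hc hm h1 h2 h hh hh1 => PLA.pl N a m c C ha hc hm h1 h2 h hh hh1

end Pool.Agent.K4H49.SV
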