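import Pool.Agent.K4H49.SV.B6
import Pool.Agent.K4H49.SV.CM
import Pool.Agent.K4H49.SV.KB
import Pool.Agent.K4H49.SV.PL
import Pool.Agent.K4H49.SV.MID
import Pool.Agent.K4H49.SV.ID
import Pool.Agent.K4H77.SV.TL

set_option autoImplicit false

/-!
# The moments of zeta and the variance of the divisor functions in short intervals

`Vo φ k T = T ∫_0^∞ |φ(log x / log T)|² |∑_{x < n ≤ x + x/T} d_k(n) - ∫_x^{x+x/T} p_k(y) dy|² dx / x²`.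
-/

namespace Pool.Agent.K4H49.SV

open Complex MeasureTheory Filter Topology Set Metric
open Pool.Agent.K4H66.HL Pool.Agent.K4H66.OL Pool.Agent.TH535.SM Pool.Agent.R446.KR
open scoped ComplexConjugate

noncomputable section

variable {φ : ℝ → ℂ} {k : ℕ}

lemma s_tl : S_TL := Pool.Agent.K4H77.SV.tl

/-- the asymptotic formula with the constant `c` for the moment is the one with `c/2 + J` for the variance -/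
theorem main_iff (hk : 2 ≤ k) (h : TS φ) (hr : ∀ x, conj (φ x) = φ x)
    (hφ : ∀ x ∈ Icc (1:ℝ) (k - 1), ‖φ x‖ ^ 2 + ‖φ (k - x)‖ ^ 2 = 1) {b : ℝ} (hb0 : 0 < b) (hb3 : b < 3)
    (hb : ∀ ξ, b ≤ ξ → φ ξ = 0) (c : ℝ) :
    Tendsto (fun T => M (zr k 0) T / NN (k ^ 2) T) atTop (𝓝 c) ↔
    Tendsto (fun T => Vo φ k T / Real.log T ^ (k ^ 2)) atTop (𝓝 (c / 2 + Jc φ k)) := by
  rw [equiv s_pl s_id s_kb s_mid s_kp s_bd s_cm s_ab s_tl s_sin hk h hr hφ c]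
  exact out_iff h k hb0 hb3 hb _

theorem main_ord (hk : 2 ≤ k) (h : TS φ) (hr : ∀ x, conj (φ x) = φ x)
    (hφ : ∀ x ∈ Icc (1:ℝ) (k - 1), ‖φ x‖ ^ 2 + ‖φ (k - x)‖ ^ 2 = 1) {b : ℝ} (hb0 : 0 < b) (hb3 : b < 3)
    (hb : ∀ ξ, b ≤ ξ → φ ξ = 0) :
    (∃ B : ℝ, ∀ᶠ T : ℝ in atTop, M (zr k 0) T ≤ B * NN (k ^ 2) T) ↔
    ∃ B : ℝ, ∀ᶠ T : ℝ in atTop, Vo φ k T ≤ B * Real.log T ^ (k ^ 2) :=
  ord_iff s_pl s_id s_kb s_mid s_bd hk h hr hφ hb0 hb3 hb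

theorem main_pow (hk : 2 ≤ k) (h : TS φ) (hr : ∀ x, conj (φ x) = φ x)
    (hφ : ∀ x ∈ Icc (1:ℝ) (k - 1), ‖φ x‖ ^ 2 + ‖φ (k - x)‖ ^ 2 = 1) {b : ℝ} (hb0 : 0 < b) (hb3 : b < 3)
    (hb : ∀ ξ, b ≤ ξ → φ ξ = 0) {θ : ℝ} (hθ : 0 < θ) (hθ1 : θ ≤ 1 / 2) :
    (∃ B : ℝ, ∀ᶠ T : ℝ in atTop, M (zr k 0) T ≤ B * T ^ (1 + θ)) ↔
    ∃ B : ℝ, ∀ᶠ T : ℝ in atTop, Vo φ k T ≤ B * T ^ θ :=
  pow_iff s_pl s_id s_kb s_mid s_bd hk h hr hφ hb0 hb3 hb hθ hθ1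

end

end Pool.Agent.K4H49.SV
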