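import Pool.Agent.K4H49.SV.Defs

set_option autoImplicit false

/-!
# The variance of the divisor functions in short intervals: statements of the pieces
-/

namespace Pool.Agent.K4H49.SV

open Complex MeasureTheory Filter Topology Set
open Pool.Agent.K4H66.HL Pool.Agent.K4H66.OL

noncomputable section

/-- Mellin-Plancherel for a step function plus a continuous density, over the intervals `(x, (1+h) x]` -/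
def S_PL : Prop := ∀ (N : ℕ) (a : ℕ → ℂ) (m : ℝ → ℂ) (c C : ℝ), a 0 = 0 → 0 < c → Continuous m →
  (∀ y, y < c → m y = 0) → (∀ y, C < y → m y = 0) → ∀ h : ℝ, 0 < h → h ≤ 1 →
  Integrable (fun t : ℝ => ‖EE h t‖ ^ 2 * ‖∑ n ∈ Finset.range N, a n * (n : ℂ) ^ (-(1 / 2 + I * t) : ℂ) -
      ∫ y in Ioi (0:ℝ), m y * (y : ℂ) ^ (-(1 / 2 + I * t) : ℂ)‖ ^ 2) ∧
  ∫ x in Ioi (0:ℝ), ‖∑ n ∈ Finset.range N, (if x < n ∧ (n:ℝ) ≤ (1 + h) * x then a n else 0) -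
      ∫ y in x..((1 + h) * x), m y‖ ^ 2 / x ^ 2 =
    1 / (2 * Real.pi) * ∫ t : ℝ, ‖EE h t‖ ^ 2 *
      ‖∑ n ∈ Finset.range N, a n * (n : ℂ) ^ (-(1 / 2 + I * t) : ℂ) -
        ∫ y in Ioi (0:ℝ), m y * (y : ℂ) ^ (-(1 / 2 + I * t) : ℂ)‖ ^ 2

/-- the polynomial minus its pole term is exactly the convolution of `ζ^k` on the critical line -/
def S_ID : Prop := ∀ (φ : ℝ → ℂ), TS φ → ∀ (k : ℕ) (T : ℝ), Real.exp 1 ≤ T → ∀ t : ℝ,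
  DP φ k T t - ∫ y in Ioi (0:ℝ), res k y * φ (Real.log y / Real.log T) * (y : ℂ) ^ (-(1 / 2 + I * t) : ℂ) =
    KK (kp φ (Real.log T)) (zr k 0) t

/-- mean squares of convolutions of `ζ^k` -/
def S_MID : Prop := ∀ k : ℕ, ∃ (C : ℝ) (N : ℕ), 0 ≤ C ∧ ∀ (L A : ℝ) (κ : ℝ → ℂ), 1 ≤ L → 0 ≤ A → Continuous κ →
  (∀ y : ℝ, ‖κ y‖ ≤ A * (L / (1 + |L * y|) ^ N)) → ∀ U : ℝ, 1 ≤ U →
  Continuous (KK κ (zr k 0)) ∧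
  ∫ t in (-U)..U, ‖KK κ (zr k 0) t‖ ^ 2 ≤ C * A ^ 2 * (1 + ∫ t in (-(2 * U))..(2 * U), ‖zr k 0 t‖ ^ 2)

/-- the kernel as a function of the parameter -/
def S_KP : Prop := ∀ (φ : ℝ → ℂ), TS φ → ∀ N : ℕ, ∃ C : ℝ, 0 ≤ C ∧ ∀ L L' : ℝ, 1 ≤ L → L / 2 ≤ L' → L' ≤ 2 * L →
  ∀ y : ℝ, ‖kp φ L' y - kp φ L y‖ ≤ C * (|L' - L| / L) * (L / (1 + |L * y|) ^ N)

/-- bounds for the transform of the interval, and its limit -/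
def S_KB : Prop :=
  (∀ h : ℝ, 0 < h → h ≤ 1 → Continuous (EE h) ∧ ∀ t : ℝ, ‖EE h t‖ ≤ h ∧ ‖EE h t‖ * |t| ≤ 3 ∧ ‖EE h (-t)‖ = ‖EE h t‖) ∧
  ∀ κ a b : ℝ, 0 < κ → 0 < a → a < b → ∀ ε : ℝ, 0 < ε → ∀ᶠ T : ℝ in atTop, ∀ u ∈ Icc a b,
    |T ^ 2 * ‖EE (κ / T) (u * T)‖ ^ 2 - 4 * Real.sin (κ * u / 2) ^ 2 / u ^ 2| ≤ ε

/-- the Tauberian lemma -/
def S_TL : Prop := ∀ (f : ℝ → ℝ → ℝ) (S C : ℝ), (∀ T, Continuous (f T)) → (∀ T u, 0 ≤ f T u) →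
  (∀ᶠ T : ℝ in atTop, ∀ x : ℝ, 1 ≤ x → ∫ u in (0:ℝ)..x, f T u ≤ C * x ^ (3 / 2 : ℝ)) →
  (∀ κ : ℝ, 0 < κ → Tendsto (fun T => ∫ u in Ioi (0:ℝ), 4 * Real.sin (κ * u / 2) ^ 2 / u ^ 2 * f T u) atTop
    (𝓝 (Real.pi * κ * S))) →
  ∀ a b : ℝ, 0 < a → a < b → Tendsto (fun T => ∫ u in a..b, f T u) atTop (𝓝 (S * (b - a)))

/-- comparison of kernels -/
def S_CM : Prop := ∀ (f G : ℝ → ℝ → ℝ) (g : ℝ → ℝ) (C : ℝ), (∀ T, Continuous (f T)) → (∀ T u, 0 ≤ f T u) →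
  (∀ T, ContinuousOn (G T) (Ioi 0)) → ContinuousOn g (Ioi 0) →
  (∀ᶠ T : ℝ in atTop, ∀ x : ℝ, 1 ≤ x → ∫ u in (0:ℝ)..x, f T u ≤ C * x ^ (3 / 2 : ℝ)) →
  (∀ ε : ℝ, 0 < ε → ∃ a : ℝ, 0 < a ∧ ∀ᶠ T : ℝ in atTop, ∫ u in (0:ℝ)..a, f T u ≤ ε) →
  (∀ᶠ T : ℝ in atTop, ∀ u : ℝ, 0 < u → |G T u| ≤ C ∧ |G T u| * u ^ 2 ≤ C) →
  (∀ u : ℝ, 0 < u → |g u| ≤ C ∧ |g u| * u ^ 2 ≤ C) →
  (∀ a b : ℝ, 0 < a → a < b → ∀ ε : ℝ, 0 < ε → ∀ᶠ T : ℝ in atTop, ∀ u ∈ Icc a b, |G T u - g u| ≤ ε) →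
  (∀ᶠ T : ℝ in atTop, IntegrableOn (fun u => G T u * f T u) (Ioi 0) ∧ IntegrableOn (fun u => g u * f T u) (Ioi 0)) ∧
  Tendsto (fun T => (∫ u in Ioi (0:ℝ), G T u * f T u) - ∫ u in Ioi (0:ℝ), g u * f T u) atTop (𝓝 0)

/-- the direct limit theorem -/
def S_AB : Prop := ∀ (f : ℝ → ℝ → ℝ) (g : ℝ → ℝ) (S C : ℝ), (∀ T, Continuous (f T)) → (∀ T u, 0 ≤ f T u) →
  ContinuousOn g (Ioi 0) →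
  (∀ᶠ T : ℝ in atTop, ∀ x : ℝ, 1 ≤ x → ∫ u in (0:ℝ)..x, f T u ≤ C * x ^ (3 / 2 : ℝ)) →
  (∀ x : ℝ, 0 < x → Tendsto (fun T => ∫ u in (0:ℝ)..x, f T u) atTop (𝓝 (S * x))) →
  (∀ u : ℝ, 0 < u → |g u| ≤ C ∧ |g u| * u ^ 2 ≤ C) →
  Tendsto (fun T => ∫ u in Ioi (0:ℝ), g u * f T u) atTop (𝓝 (S * ∫ u in Ioi (0:ℝ), g u))

/-- a bound for integrals against kernels with quadratic decay -/
def S_BD : Prop := ∃ K : ℝ, 0 ≤ K ∧ ∀ (f G : ℝ → ℝ) (A C : ℝ), 0 ≤ A → 0 ≤ C → Continuous f → (∀ u, 0 ≤ f u) →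
  ContinuousOn G (Ioi 0) → (∀ x : ℝ, 1 ≤ x → ∫ u in (0:ℝ)..x, f u ≤ A * x ^ (3 / 2 : ℝ)) →
  (∀ u : ℝ, 0 < u → |G u| ≤ C ∧ |G u| * u ^ 2 ≤ C) →
  IntegrableOn (fun u => G u * f u) (Ioi 0) ∧ |∫ u in Ioi (0:ℝ), G u * f u| ≤ K * A * C

/-- the constant -/
def S_SIN : Prop := ∀ κ : ℝ, 0 < κ → ∫ u in Ioi (0:ℝ), 4 * Real.sin (κ * u / 2) ^ 2 / u ^ 2 = Real.pi * κ

end

end Pool.Agent.K4H49.SV
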