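import Pool.Agent.K4H49.SV.Defs

set_option autoImplicit false

/-! Statements of the pieces for `S_ID`. -/

namespace Pool.Agent.K4H49.SV

open Complex MeasureTheory Filter Topology Set
open Pool.Agent.K4H66.HL Pool.Agent.K4H66.OL

noncomputable section

/-- rectangle minus circle: `F = g / (s-1)^k`, `g` entire -/
def S_RC : Prop := ∀ (g : ℂ → ℂ), Differentiable ℂ g → ∀ (k : ℕ) (b H : ℝ), 5 / 4 < b → 1 / 4 < H →
  (∫ x in (1 / 2 : ℝ)..b, g (x + (-H : ℝ) * I) / (x + (-H : ℝ) * I - 1) ^ k) -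
  (∫ x in (1 / 2 : ℝ)..b, g (x + H * I) / (x + H * I - 1) ^ k) +
  I * (∫ y in (-H)..H, g (b + y * I) / (b + y * I - 1) ^ k) -
  I * (∫ y in (-H)..H, g ((1 / 2 : ℝ) + y * I) / ((1 / 2 : ℝ) + y * I - 1) ^ k) =
  ∮ s in C(1, 1 / 4), g s / (s - 1) ^ k

/-- the pole term as a circle integral -/
def S_PT : Prop := ∀ (φ : ℝ → ℂ), TS φ → ∀ (k : ℕ) (T : ℝ), Real.exp 1 ≤ T → ∀ t : ℝ,
  ∫ y in Ioi (0:ℝ), res k y * φ (Real.log y / Real.log T) * (y : ℂ) ^ (-(1 / 2 + I * t) : ℂ) =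
  (2 * Real.pi * I)⁻¹ * ∮ s in C(1, 1 / 4), riemannZeta s ^ k *
    (Real.log T * W182.KO.P φ (Real.log T * (s - (1 / 2 + I * t))))

end

end Pool.Agent.K4H49.SV
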